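import Mathlib

/-!
# HZ10: measures: the parameters
-/

namespace HZ10

/-- the main term minus the costs -/
noncomputable def Egain (q s r δ M k K : ℕ) : ℝ :=
  M * (k * (δ - K) * Real.log (2 * r + 1)) -
      ((δ : ℝ) + (δ : ℝ) ^ 2 * Real.log q / 2 + s * M * (K + (K : ℝ) ^ 2 * Real.log q / 2) +
      M * (k + (k : ℝ) ^ 2 * Real.log q / 2 +
        k * (3 * (2 * r + 1) * (2 * Real.log q + 1 + 8 * Real.log 2))))

/-- the number of rows, divided by `n` -/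
noncomputable def R1 (s δ M k K : ℕ) : ℝ := δ + K * s * M + k * M

/-- admissible parameters: `s` numbers `ξ`, `M` shifts, `m` classes, exponent `F`, constant `exp (- A)` -/
structure AdmQ (q s r M m δ k K n₀ : ℕ) (F A : ℝ) : Prop where
  hr : 1 ≤ r
  hM : 1 ≤ M
  hk : 1 ≤ k
  hK : k + 3 * (2 * r + 1) + 1 ≤ K
  hKδ : K < δ
  hm : 2 * (δ + K * (M * (s + 1))) ≤ m
  hn : 4 * M * (s + 1) ≤ n₀
  hE : 0 < Egain q s r δ M k K - 3 * R1 s δ M k K
  hF : ((δ : ℝ) - K) * Real.log (2 * r + 1) * R1 s δ M k K ≤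
    F * (Egain q s r δ M k K - 3 * R1 s δ M k K)
  hbig : R1 s δ M k K * (Real.log (R1 s δ M k K) + 2 * Real.log δ + 9 * Real.log q + 28) <
    (Egain q s r δ M k K - 3 * R1 s δ M k K) * n₀
  hA : ((δ : ℝ) - K) * Real.log (2 * r + 1) * (n₀ + 1) ≤ A

end HZ10
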