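import Pool.Agent.LibHZ8.Core
import Pool.Agent.LibHZ10.Defs

/-!
# HZ10: measures: the inequality for one `n` (helper89)

The values `h (y / q)` are only approximately in the space `ℚ + ∑ ℚ ξ i`; every column has its own
denominator `wt`.
-/

namespace HZ10

open Finset HZ89 Polynomial HZ8

theorem rows_smallQ {q r n s d K k : ℕ} {Cs I : Finset ℕ} (hq : 1 ≤ q) (hr : 1 ≤ r) (hn : 1 ≤ n)
    (hC : ∀ c ∈ Cs, c < q) (hK : k + 3 * Tw r n ≤ K) (hKd : K < d)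
    (ξ : Fin s → ℝ) (b₀ : ℕ → ℚ) (b : ℕ → Fin s → ℚ) {η : ℝ}
    (hS : ∀ x ∈ I, ∀ c ∈ Cs, |HZ7.SS q ((x : ℝ) + c) -
      ((b₀ ((x + c) % q) : ℝ) + ∑ i, (b ((x + c) % q) i : ℝ) * ξ i)| ≤ η) (p : HZ7.RB Cs k) :
    ∃ v' : P q n I → ℝ, (v' - fun j : P q n I => rowB q r n Cs k b₀ p j) ∈
        HZ7.rsp q n s Cs d K b I ∧
      ∀ j : P q n I, |v' j| ≤ (12 * (((d - K : ℕ) : ℝ) + 2) ^ 2 *
        (1 / (2 * (r : ℝ) + 1)) ^ (d - K) + η) *
        (|(WP q r n p.1).eval ((j : ℕ) : ℝ)| * ((j : ℕ).choose p.2 : ℝ)) := by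
  obtain ⟨c, l⟩ := p
  obtain ⟨pk, hpk, hpk'⟩ := HZ7.choose_poly (l : ℕ)
  have hl := l.2
  have hD : 1 ≤ d - K := by omega
  obtain ⟨G, hG, hG'⟩ := tail_poly (c := (c : ℕ)) hq hr hn (hC c c.2) hD
  have hw : (WP q r n c * pk).natDegree < K := by
    have h1 : (WP q r n c * pk).natDegree ≤ (WP q r n c).natDegree + pk.natDegree :=
      natDegree_mul_le
    have h2 := W_natDegree q r n (c : ℕ)
    omega
  have hGw : (G * (WP q r n c * pk)).natDegree < d := by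
    have h1 : (G * (WP q r n c * pk)).natDegree ≤ G.natDegree + (WP q r n c * pk).natDegree :=
      natDegree_mul_le
    omega
  have hwe : ∀ j : ℕ, (WP q r n c * pk).eval (j : ℝ) =
      (WP q r n c).eval (j : ℝ) * (j.choose l : ℝ) := by
    intro j
    rw [eval_mul, hpk']
  refine ⟨fun j => ((b₀ (((j : ℕ) + (c : ℕ)) % q) : ℝ) +
      ∑ i, (b (((j : ℕ) + (c : ℕ)) % q) i : ℝ) * ξ i - ps q r n (((j : ℕ) : ℝ) + (c : ℕ)) -
    G.eval ((j : ℕ) : ℝ)) * (WP q r n c * pk).eval ((j : ℕ) : ℝ), ?_, ?_⟩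
  · have h1 : ((fun j : P q n I => ((b₀ (((j : ℕ) + (c : ℕ)) % q) : ℝ) +
        ∑ i, (b (((j : ℕ) + (c : ℕ)) % q) i : ℝ) * ξ i -
        ps q r n (((j : ℕ) : ℝ) + (c : ℕ)) - G.eval ((j : ℕ) : ℝ)) *
          (WP q r n c * pk).eval ((j : ℕ) : ℝ)) -
        fun j : P q n I => rowB q r n Cs k b₀ (c, l) j) =
        (∑ i, ξ i • fun j : P q n I => (b (((j : ℕ) + (c : ℕ)) % q) i : ℝ) *
          (WP q r n c * pk).eval ((j : ℕ) : ℝ)) -
        fun j : P q n I => (G * (WP q r n c * pk)).eval ((j : ℕ) : ℝ) := by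
      funext j
      simp only [Pi.sub_apply, Finset.sum_apply, Pi.smul_apply, smul_eq_mul]
      rw [eval_mul (p := G), hwe]
      simp only [rowB]
      rw [← sub_eq_zero]
      have h4 : ∑ i, ξ i * ((b (((j : ℕ) + (c : ℕ)) % q) i : ℝ) *
          ((WP q r n c).eval ((j : ℕ) : ℝ) * ((j : ℕ).choose l : ℝ))) =
          (∑ i, (b (((j : ℕ) + (c : ℕ)) % q) i : ℝ) * ξ i) *
          ((WP q r n c).eval ((j : ℕ) : ℝ) * ((j : ℕ).choose l : ℝ)) := by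
        rw [sum_mul]
        exact sum_congr rfl fun i _ => by ring
      rw [h4]
      ring
    rw [h1]
    exact Submodule.sub_mem _ (Submodule.sum_mem _ fun i _ => Submodule.smul_mem _ _
      (HZ7.span_iii hw i c.2)) (HZ7.span_i hGw)
  · intro j
    obtain ⟨hj1, hj2⟩ : (j : ℕ) ∈ range (q * n) ∧ (j : ℕ) % q ∈ I := mem_filter.1 j.2
    show |((b₀ (((j : ℕ) + (c : ℕ)) % q) : ℝ) +
      ∑ i, (b (((j : ℕ) + (c : ℕ)) % q) i : ℝ) * ξ i - ps q r n (((j : ℕ) : ℝ) + (c : ℕ)) -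
      G.eval ((j : ℕ) : ℝ)) * (WP q r n c * pk).eval ((j : ℕ) : ℝ)| ≤
        (12 * (((d - K : ℕ) : ℝ) + 2) ^ 2 * (1 / (2 * (r : ℝ) + 1)) ^ (d - K) + η) *
        (|(WP q r n c).eval ((j : ℕ) : ℝ)| * ((j : ℕ).choose l : ℝ))
    rw [hwe, abs_mul, abs_mul, Nat.abs_cast]
    refine mul_le_mul_of_nonneg_right ?_ (by positivity)
    have h2 : HZ7.SS q (((j : ℕ) : ℝ) + (c : ℕ)) = HZ7.SS q ((((j : ℕ) % q : ℕ) : ℝ) + (c : ℕ)) := by
      rw [← HZ7.SS_per (q := q) ((((j : ℕ) % q : ℕ) : ℝ) + (c : ℕ)) ((j : ℕ) / q)]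
      congr 1
      have h3 : ((j : ℕ) : ℝ) = (((j : ℕ) % q : ℕ) : ℝ) + q * (((j : ℕ) / q : ℕ) : ℝ) := by
        exact_mod_cast (Nat.mod_add_div (j : ℕ) q).symm
      linear_combination h3
    have h3 := hS _ hj2 c c.2
    rw [Nat.mod_add_mod, ← h2] at h3
    have h5 := hG' j (mem_range.1 hj1)
    have h6 := abs_sub_le_iff.1 h3
    have h7 := abs_le.1 h5
    rw [abs_le]
    constructor
    · linarith [h6.1, h6.2, h7.1, h7.2]
    · linarith [h6.1, h6.2, h7.1, h7.2]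

/-- the sizes of the rows (iv) -/
noncomputable def EQ (q r n : ℕ) (Cs : Finset ℕ) (k N : ℕ) (p : HZ7.RB Cs k) : ℝ :=
  13 * ((N : ℝ) + 2) ^ 2 * (1 / (2 * (r : ℝ) + 1)) ^ N *
    (Wm q (Tw r n) * (Real.exp n * (q : ℝ) ^ (p.2 : ℕ)))

theorem detQ {q r n s d K k : ℕ} {I Cs : Finset ℕ} (hq : 1 ≤ q) (hr : 1 ≤ r) (hn : 1 ≤ n)
    (hC : ∀ c ∈ Cs, c < q) (hI : ∀ x ∈ I, x < q) (hk : 1 ≤ k) (hK : k + 3 * Tw r n ≤ K)
    (hKd : K < d)
    (hdeg : 6 * Cs.card * (Cs.card * (s + 1) + 1) + d + (Cs.card * (s + 1)) * K +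
      I.card * (Cs.card * (s + 1)) < I.card * n)
    (ξ : Fin s → ℝ) (b₀ : ℕ → ℚ) (b : ℕ → Fin s → ℚ) {η : ℝ}
    (hη : η ≤ (1 / (2 * (r : ℝ) + 1)) ^ (d - K))
    (hS : ∀ x ∈ I, ∀ c ∈ Cs, |HZ7.SS q ((x : ℝ) + c) -
      ((b₀ ((x + c) % q) : ℝ) + ∑ i, (b ((x + c) % q) i : ℝ) * ξ i)| ≤ η)
    {D₀ : ℕ} (hD₀ : 1 ≤ D₀) {B : ℝ} (hB : 1 ≤ B) (wt : ℕ → ℕ) {W : ℕ} (hW : 1 ≤ W)
    (hw1 : ∀ x ∈ I, 1 ≤ wt x) (hw2 : ∀ x ∈ I, wt x ≤ W)
    (h0 : ∀ x ∈ I, ∀ c ∈ Cs, ∃ z : ℤ, (D₀ : ℝ) * wt x * (b₀ ((x + c) % q) : ℝ) = z)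
    (h1 : ∀ x ∈ I, ∀ c ∈ Cs, ∀ i, ∃ z : ℤ, (D₀ : ℝ) * wt x * (b ((x + c) % q) i : ℝ) = z)
    (h2 : ∀ x ∈ I, ∀ c ∈ Cs, ∀ i, |(b ((x + c) % q) i : ℝ)| ≤ B) :
    1 ≤ ((D₀ : ℝ) * W) ^ (Fintype.card (HZ7.RA s Cs d K) + Fintype.card (HZ7.RB Cs k)) *
      (Fintype.card (HZ7.RA s Cs d K) + Fintype.card (HZ7.RB Cs k)).factorial *
      (∏ a, HZ7.UU q n s Cs d K B a) * ∏ p, EQ q r n Cs k (d - K) p := by
  classical
  have hqr : (1 : ℝ) ≤ q := by exact_mod_cast hq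
  choose v' hv'1 hv'2 using fun p : HZ7.RB Cs k =>
    rows_smallQ (d := d) (K := K) hq hr hn hC hK hKd ξ b₀ b hS p
  have hint : ∀ x y : ℝ, (∃ z : ℤ, x = z) → (∃ z : ℤ, y = z) → ∃ z : ℤ, x * y = z := by
    rintro x y ⟨z, rfl⟩ ⟨z', rfl⟩
    exact ⟨z * z', by push_cast; ring⟩
  have hintn : ∀ m : ℕ, ∃ z : ℤ, (m : ℝ) = z := fun m => ⟨m, by simp⟩
  have hJ : ∀ j : P q n I, ((j : ℕ) % q) ∈ I := fun j => (mem_filter.1 j.2).2
  have hmm : ∀ j c : ℕ, (j % q + c) % q = (j + c) % q := fun j c => Nat.mod_add_mod j q c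
  refine HZ3.det_ineq (J := P q n I) (α := HZ7.RA s Cs d K) (β := HZ7.RB Cs k)
    (u := fun r j => HZ7.rowA q s Cs d K b r j) (v := fun p j => rowB q r n Cs k b₀ p j) (v' := v')
    (w := fun j => wt ((j : ℕ) % q)) (D₀ := D₀) (W := W) (U := HZ7.UU q n s Cs d K B)
    (ε := EQ q r n Cs k (d - K)) ?_ ?_ ?_ ?_ hD₀ hW (fun j => hw1 _ (hJ j))
    (fun j => hw2 _ (hJ j)) ?_ ?_ ?_
  · intro c hc
    exact rows_ind hq hr hn hC hI hk hK hKd hdeg b₀ b c hc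
  · intro p
    exact hv'1 p
  · rintro (k | ⟨i, c, k⟩) j
    · simp only [HZ7.rowA]
      exact hint _ _ (hint _ _ (hintn _) (hintn _)) (hintn _)
    · simp only [HZ7.rowA]
      rw [← mul_assoc]
      have h3 := h1 _ (hJ j) c c.2 i
      rw [hmm] at h3
      exact hint _ _ h3 (hintn _)
  · rintro ⟨c, k⟩ j
    simp only [rowB]
    have e1 : (D₀ : ℝ) * (wt ((j : ℕ) % q)) *
        (((b₀ (((j : ℕ) + c) % q) : ℝ) - ps q r n (((j : ℕ) : ℝ) + (c : ℕ))) *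
        ((WP q r n c).eval ((j : ℕ) : ℝ) * ((j : ℕ).choose k : ℝ))) =
        ((D₀ : ℝ) * (wt ((j : ℕ) % q)) * (b₀ (((j : ℕ) + c) % q) : ℝ)) *
          (WP q r n c).eval ((j : ℕ) : ℝ) * ((j : ℕ).choose k : ℝ) -
        (D₀ : ℝ) * (wt ((j : ℕ) % q)) *
          ((WP q r n c).eval ((j : ℕ) : ℝ) * ps q r n (((j : ℕ) : ℝ) + (c : ℕ))) *
          ((j : ℕ).choose k : ℝ) := by ring
    rw [e1]
    have h3 := h0 _ (hJ j) c c.2
    rw [hmm] at h3
    obtain ⟨z1, hz1⟩ := hint _ _ (hint _ _ h3 (W_int q r n c j))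
      (hintn ((j : ℕ).choose k))
    obtain ⟨z2, hz2⟩ := hint _ _ (hint _ _ (hint _ _ (hintn D₀) (hintn (wt ((j : ℕ) % q))))
      (Wps_int q r n c j)) (hintn ((j : ℕ).choose k))
    exact ⟨z1 - z2, by rw [hz1, hz2]; push_cast; ring⟩
  · rintro (k | ⟨i, c, k⟩) j
    · have hj : (j : ℕ) < q * n := mem_range.1 (mem_filter.1 j.2).1
      simp only [HZ7.rowA, HZ7.UU]
      rw [abs_of_nonneg (Nat.cast_nonneg _)]
      exact HZ7.ch_le hj
    · have hj : (j : ℕ) < q * n := mem_range.1 (mem_filter.1 j.2).1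
      simp only [HZ7.rowA, HZ7.UU]
      rw [abs_mul, Nat.abs_cast]
      have h3 := h2 _ (hJ j) c c.2 i
      rw [hmm] at h3
      exact mul_le_mul h3 (HZ7.ch_le hj) (Nat.cast_nonneg _) (by linarith)
  · have he : (1 : ℝ) ≤ Real.exp n := Real.one_le_exp (Nat.cast_nonneg n)
    have hq1 : ∀ m : ℕ, (1 : ℝ) ≤ (q : ℝ) ^ m := fun m => one_le_pow₀ hqr
    rintro (k | ⟨i, c, k⟩)
    · simp only [HZ7.UU]
      exact one_le_mul_of_one_le_of_one_le he (hq1 _)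
    · simp only [HZ7.UU]
      exact one_le_mul_of_one_le_of_one_le hB (one_le_mul_of_one_le_of_one_le he (hq1 _))
  · rintro ⟨c, k⟩ j
    have hj : (j : ℕ) < q * n := mem_range.1 (mem_filter.1 j.2).1
    refine (hv'2 (c, k) j).trans ?_
    simp only [EQ]
    have hpos : (0 : ℝ) < 1 / (2 * (r : ℝ) + 1) := by positivity
    have hpow : 0 < (1 / (2 * (r : ℝ) + 1)) ^ (d - K) := pow_pos hpos _
    have h3 : 12 * (((d - K : ℕ) : ℝ) + 2) ^ 2 * (1 / (2 * (r : ℝ) + 1)) ^ (d - K) + η ≤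
        13 * (((d - K : ℕ) : ℝ) + 2) ^ 2 * (1 / (2 * (r : ℝ) + 1)) ^ (d - K) := by
      have h4 : (1 : ℝ) ≤ (((d - K : ℕ) : ℝ) + 2) ^ 2 := by
        have : (0 : ℝ) ≤ ((d - K : ℕ) : ℝ) := Nat.cast_nonneg _
        nlinarith
      have h5 := mul_le_mul_of_nonneg_right h4 hpow.le
      linarith
    refine mul_le_mul h3 ?_ (by positivity) (by positivity)
    exact mul_le_mul (W_le hq (hC c c.2) hj) (HZ7.ch_le hj) (Nat.cast_nonneg _) (Wm_pos hq).le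

/-- the inequality for one `n` -/
theorem ineqQ {q r n s δ M k K : ℕ} {Cs : Finset ℕ} (hq : 1 ≤ q) (hr : 1 ≤ r) (hn : 1 ≤ n)
    (hM : Cs.card = M) (hM1 : 1 ≤ M) (hδ : K < δ) {D₀ : ℝ} (hD₀ : 1 ≤ D₀) {B : ℝ} (hB : 1 ≤ B)
    (h : 1 ≤ D₀ ^ (Fintype.card (HZ7.RA s Cs (δ * n) (K * n)) +
        Fintype.card (HZ7.RB Cs (k * n))) *
      (Fintype.card (HZ7.RA s Cs (δ * n) (K * n)) + Fintype.card (HZ7.RB Cs (k * n))).factorial *
      (∏ a, HZ7.UU q n s Cs (δ * n) (K * n) B a) *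
      ∏ p, EQ q r n Cs (k * n) (δ * n - K * n) p) :
    Egain q s r δ M k K * (n : ℝ) ≤
      (δ + K * s * M + k * M) * Real.log D₀ + K * s * M * Real.log B +
        3 * k * M * (2 * Real.log q + 1 + 8 * Real.log 2) +
      (δ + K * s * M + k * M) * Real.log ((δ + K * s * M + k * M) * n) +
      k * M * Real.log (200 * ((δ : ℝ) * n + 2) ^ 2) := by
  have hqr : (1 : ℝ) ≤ q := by exact_mod_cast hq
  have hq0 : (0 : ℝ) < q := by linarith
  have hnr : (1 : ℝ) ≤ n := by exact_mod_cast hn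
  have hrr : (1 : ℝ) ≤ r := by exact_mod_cast hr
  have hMr : (1 : ℝ) ≤ M := by exact_mod_cast hM1
  have hδr : (K : ℝ) < δ := by exact_mod_cast hδ
  have hK0 : (0 : ℝ) ≤ K := Nat.cast_nonneg K
  have hL : 0 ≤ Real.log q := Real.log_nonneg hqr
  have hW := Wm_pos (q := q) (T := Tw r n) hq
  set R : ℕ := δ * n + K * s * M * n + k * M * n with hR
  have hcard : Fintype.card (HZ7.RA s Cs (δ * n) (K * n)) + Fintype.card (HZ7.RB Cs (k * n)) =
      R := by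
    simp only [HZ7.RA, HZ7.RB, Fintype.card_sum, Fintype.card_prod, Fintype.card_fin,
      Fintype.card_coe, hM, hR]
    ring
  rw [hcard] at h
  have hR1 : 1 ≤ R := by
    have : 1 ≤ δ * n := Nat.one_le_iff_ne_zero.2 (mul_ne_zero (by omega) (by omega))
    omega
  have hRr : (R : ℝ) = (δ + K * s * M + k * M) * n := by
    rw [hR]
    push_cast
    ring
  have hUpos : ∀ a, 0 < HZ7.UU q n s Cs (δ * n) (K * n) B a := by
    rintro (k | ⟨i, c, k⟩)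
    · simp only [HZ7.UU]; positivity
    · simp only [HZ7.UU]; positivity
  have hEpos : ∀ p, 0 < EQ q r n Cs (k * n) (δ * n - K * n) p := by
    rintro ⟨c, k⟩
    simp only [EQ]; positivity
  have hlog := Real.log_nonneg h
  have hf0 : (0 : ℝ) < (R.factorial : ℝ) := by exact_mod_cast Nat.factorial_pos R
  have hDp : (0 : ℝ) < D₀ ^ R := by positivity
  have hPU : 0 < ∏ a, HZ7.UU q n s Cs (δ * n) (K * n) B a := prod_pos fun a _ => hUpos a
  have hPE : 0 < ∏ p, EQ q r n Cs (k * n) (δ * n - K * n) p := prod_pos fun a _ => hEpos a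
  rw [Real.log_mul (by positivity) hPE.ne', Real.log_mul (by positivity) hPU.ne',
    Real.log_mul hDp.ne' hf0.ne', Real.log_pow, Real.log_prod (fun a _ => (hUpos a).ne'),
    Real.log_prod (fun a _ => (hEpos a).ne')] at hlog
  -- factorial
  have hfac : Real.log (R.factorial : ℝ) ≤ R * Real.log R := by
    have h1 : (R.factorial : ℝ) ≤ (R : ℝ) ^ R := by exact_mod_cast Nat.factorial_le_pow R
    rw [← Real.log_pow]
    exact Real.log_le_log hf0 h1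
  -- rows (i), (iii)
  have hUsum : ∑ a, Real.log (HZ7.UU q n s Cs (δ * n) (K * n) B a) ≤
      ((δ : ℝ) * n) * n + ((δ : ℝ) * n) ^ 2 / 2 * Real.log q +
      s * M * ((K * (n : ℝ)) * (Real.log B + n) + (K * (n : ℝ)) ^ 2 / 2 * Real.log q) := by
    rw [Fintype.sum_sum_type, Fintype.sum_prod_type]
    have e1 : ∀ k : Fin (δ * n), Real.log (HZ7.UU q n s Cs (δ * n) (K * n) B (Sum.inl k)) =
        (n : ℝ) + ((k : ℕ) : ℝ) * Real.log q := by
      intro k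
      simp only [HZ7.UU]
      rw [Real.log_mul (by positivity) (by positivity), Real.log_exp, Real.log_pow]
    have e2 : ∀ (i : Fin s) (x : Cs × Fin (K * n)),
        Real.log (HZ7.UU q n s Cs (δ * n) (K * n) B (Sum.inr (i, x))) =
        (Real.log B + n) + ((x.2 : ℕ) : ℝ) * Real.log q := by
      rintro i ⟨c, k⟩
      simp only [HZ7.UU]
      rw [Real.log_mul (by positivity) (by positivity), Real.log_mul (by positivity) (by positivity),
        Real.log_exp, Real.log_pow]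
      ring
    simp only [e1, e2]
    have g1 := HZ7.core_sum_lin (δ * n) (n : ℝ) (Real.log q) hL
    have g2 := HZ7.core_sum_lin (K * n) (Real.log B + n) (Real.log q) hL
    have g3 : ∑ _i : Fin s, ∑ x : Cs × Fin (K * n), ((Real.log B + n) + ((x.2 : ℕ) : ℝ) * Real.log q)
        = s * M * ∑ k : Fin (K * n), ((Real.log B + n) + ((k : ℕ) : ℝ) * Real.log q) := by
      rw [sum_const, card_univ, Fintype.card_fin, nsmul_eq_mul, Fintype.sum_prod_type]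
      simp only [sum_const, card_univ, Fintype.card_coe, hM, nsmul_eq_mul]
      ring
    rw [g3]
    push_cast at g1 g2
    have hsM : (0 : ℝ) ≤ (s : ℝ) * M := by positivity
    have g4 := mul_le_mul_of_nonneg_left g2 hsM
    linarith
  -- rows (iv)
  have hEsum : ∑ p, Real.log (EQ q r n Cs (k * n) (δ * n - K * n) p) ≤
      M * ((k * (n : ℝ)) * (Real.log (200 * ((δ : ℝ) * n + 2) ^ 2) -
        ((δ : ℝ) - K) * n * Real.log (2 * r + 1) +
        (3 * ((2 * r + 1) * n + 1)) * (2 * Real.log q + 1 + 8 * Real.log 2) + n) +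
        (k * (n : ℝ)) ^ 2 / 2 * Real.log q) := by
    have hN : ((δ * n - K * n : ℕ) : ℝ) = ((δ : ℝ) - K) * n := by
      rw [Nat.cast_sub (Nat.mul_le_mul_right n hδ.le)]
      push_cast
      ring
    have e1 : ∀ p : Cs × Fin (k * n), Real.log (EQ q r n Cs (k * n) (δ * n - K * n) p) =
        (Real.log (13 * (((δ : ℝ) - K) * n + 2) ^ 2) - ((δ : ℝ) - K) * n * Real.log (2 * r + 1) +
          (3 * ((2 * r + 1) * n + 1)) * (2 * Real.log q + 1 + 8 * Real.log 2) + n) +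
          ((p.2 : ℕ) : ℝ) * Real.log q := by
      rintro ⟨c, k⟩
      simp only [EQ]
      have h12 : (0 : ℝ) < 13 * (((δ * n - K * n : ℕ) : ℝ) + 2) ^ 2 := by positivity
      have h13 : (13 : ℝ) * (((δ * n - K * n : ℕ) : ℝ) + 2) ^ 2 =
        13 * (((δ : ℝ) - K) * n + 2) ^ 2 := by rw [hN]
      rw [← h13]
      generalize (13 : ℝ) * (((δ * n - K * n : ℕ) : ℝ) + 2) ^ 2 = X at h12
      rw [Real.log_mul (mul_pos h12 (by positivity)).ne' (by positivity),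
        Real.log_mul h12.ne' (by positivity),
        Real.log_mul hW.ne' (by positivity), Real.log_mul (by positivity) (by positivity),
        Real.log_exp, Real.log_pow, Real.log_pow, log_Wm q (Tw r n) hq, one_div, Real.log_inv, hN,
        Tw]
      push_cast
      ring
    simp only [e1]
    have g3 : ∑ x : Cs × Fin (k * n), ((Real.log (13 * (((δ : ℝ) - K) * n + 2) ^ 2) -
          ((δ : ℝ) - K) * n * Real.log (2 * r + 1) +
          (3 * ((2 * r + 1) * n + 1)) * (2 * Real.log q + 1 + 8 * Real.log 2) + n) +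
          ((x.2 : ℕ) : ℝ) * Real.log q) =
        M * ∑ k : Fin (k * n), ((Real.log (13 * (((δ : ℝ) - K) * n + 2) ^ 2) -
          ((δ : ℝ) - K) * n * Real.log (2 * r + 1) +
          (3 * ((2 * r + 1) * n + 1)) * (2 * Real.log q + 1 + 8 * Real.log 2) + n) +
          ((k : ℕ) : ℝ) * Real.log q) := by
      rw [Fintype.sum_prod_type]
      simp only [sum_const, card_univ, Fintype.card_coe, hM, nsmul_eq_mul]
    rw [g3]
    refine mul_le_mul_of_nonneg_left ?_ (by positivity)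
    refine (HZ7.core_sum_lin (k * n) _ (Real.log q) hL).trans ?_
    push_cast
    have h200 : Real.log (13 * (((δ : ℝ) - K) * n + 2) ^ 2) ≤
        Real.log (200 * ((δ : ℝ) * n + 2) ^ 2) := by
      have h0 : 0 < ((δ : ℝ) - K) * n + 2 := by nlinarith
      refine Real.log_le_log (by positivity) ?_
      have h1 : ((δ : ℝ) - K) * n + 2 ≤ (δ : ℝ) * n + 2 := by nlinarith
      have h2 := pow_le_pow_left₀ h0.le h1 2
      nlinarith
    have hn10 : (0 : ℝ) ≤ k * n := by positivity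
    nlinarith [mul_le_mul_of_nonneg_left h200 hn10]
  have hRlog : (R : ℝ) * Real.log R = (δ + K * s * M + k * M) * n *
      Real.log ((δ + K * s * M + k * M) * n) := by rw [hRr]
  rw [hRlog] at hfac
  rw [hRr] at hlog
  have key : (Egain q s r δ M k K * (n : ℝ)) * n ≤
      ((δ + K * s * M + k * M) * Real.log D₀ + K * s * M * Real.log B +
        3 * k * M * (2 * Real.log q + 1 + 8 * Real.log 2) +
      (δ + K * s * M + k * M) * Real.log ((δ + K * s * M + k * M) * n) +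
      k * M * Real.log (200 * ((δ : ℝ) * n + 2) ^ 2)) * n := by
    unfold Egain
    nlinarith [hlog, hfac, hUsum, hEsum]
  exact le_of_mul_le_mul_right key (by linarith)

/-- the inequality for one `n`, all hypotheses -/
theorem coreQ {q r n s δ M m k K : ℕ} {I Cs : Finset ℕ} (hq : 1 ≤ q) (hr : 1 ≤ r) (hn : 3 ≤ n)
    (hC : ∀ c ∈ Cs, c < q) (hI : ∀ x ∈ I, x < q) (hM : Cs.card = M) (hm : I.card = m)
    (hM1 : 1 ≤ M) (hk : 1 ≤ k) (hK : k + 3 * (2 * r + 1) + 1 ≤ K) (hKδ : K < δ)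
    (hdeg : 6 * M * (M * (s + 1) + 1) + δ * n + M * (s + 1) * (K * n) + m * (M * (s + 1)) < m * n)
    (ξ : Fin s → ℝ) (b₀ : ℕ → ℚ) (b : ℕ → Fin s → ℚ) {η : ℝ}
    (hη : η ≤ (1 / (2 * (r : ℝ) + 1)) ^ (δ * n - K * n))
    (hS : ∀ x ∈ I, ∀ c ∈ Cs, |HZ7.SS q ((x : ℝ) + c) -
      ((b₀ ((x + c) % q) : ℝ) + ∑ i, (b ((x + c) % q) i : ℝ) * ξ i)| ≤ η)
    {D₀ : ℕ} (hD₀ : 1 ≤ D₀) {B : ℝ} (hB : 1 ≤ B) (wt : ℕ → ℕ) {W : ℕ} (hW : 1 ≤ W)
    (hw1 : ∀ x ∈ I, 1 ≤ wt x) (hw2 : ∀ x ∈ I, wt x ≤ W)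
    (h0 : ∀ x ∈ I, ∀ c ∈ Cs, ∃ z : ℤ, (D₀ : ℝ) * wt x * (b₀ ((x + c) % q) : ℝ) = z)
    (h1 : ∀ x ∈ I, ∀ c ∈ Cs, ∀ i, ∃ z : ℤ, (D₀ : ℝ) * wt x * (b ((x + c) % q) i : ℝ) = z)
    (h2 : ∀ x ∈ I, ∀ c ∈ Cs, ∀ i, |(b ((x + c) % q) i : ℝ)| ≤ B) :
    Egain q s r δ M k K * (n : ℝ) ≤
      (δ + K * s * M + k * M) * Real.log ((D₀ : ℝ) * W) + K * s * M * Real.log B +
        3 * k * M * (2 * Real.log q + 1 + 8 * Real.log 2) +
      (δ + K * s * M + k * M) * Real.log ((δ + K * s * M + k * M) * n) +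
      k * M * Real.log (200 * ((δ : ℝ) * n + 2) ^ 2) := by
  have hdet := detQ (n := n) (d := δ * n) (K := K * n) (k := k * n) hq hr (by omega) hC hI
    (Nat.one_le_iff_ne_zero.2 (mul_ne_zero (by omega) (by omega)))
    (by
      have h2 : (k + 3 * (2 * r + 1) + 1) * n ≤ K * n := Nat.mul_le_mul_right n hK
      have h3 : (k + 3 * (2 * r + 1) + 1) * n = k * n + 3 * ((2 * r + 1) * n) + n := by ring
      unfold Tw
      omega) (Nat.mul_lt_mul_of_pos_right hKδ (by omega)) (by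
      rw [hM, hm]
      exact hdeg) ξ b₀ b hη hS hD₀ hB wt hW hw1 hw2 h0 h1 h2
  have hD1 : (1 : ℝ) ≤ D₀ := by exact_mod_cast hD₀
  have hW1 : (1 : ℝ) ≤ W := by exact_mod_cast hW
  exact ineqQ hq hr (by omega) hM hM1 hKδ (by nlinarith : (1 : ℝ) ≤ (D₀ : ℝ) * W) hB hdet

end HZ10
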