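import Pool.Agent.LibHZ10.Fin

/-!
# HZ10: exact relations (helper89)
-/

namespace HZ10

open Finset HZ89 Polynomial HZ8

theorem density_exact {q : ℕ} (V : Submodule ℚ ℝ) (hV : Module.Finite ℚ V)
    (x₀ h N : ℕ) (hh : h.Coprime q) (hN : 2 * N ≤ q) (E : Finset ℕ)
    (hE : ∀ t ∈ E, t < N ∧
      hur (((x₀ + h * t : ℕ) : ℝ) / q) ∈ V ⊔ Submodule.span ℚ {(1 : ℝ)}) :
    (E.card : ℝ) ≤ 4 * N * Real.exp (-((Real.log N) ^ 3 /
      (80 * ((Module.finrank ℚ V : ℝ) + 1) * (Real.log q) ^ 2))) := by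
  classical
  obtain ⟨s, hs⟩ : ∃ s, Module.finrank ℚ V = s := ⟨_, rfl⟩
  rw [hs]
  have bas := Module.finBasisOfFinrankEq ℚ V hs
  have hrepr : ∀ v : V, (v : ℝ) = ∑ i, (bas.repr v i : ℝ) * (bas i : ℝ) := by
    intro v
    have h := congrArg (fun w : V => (w : ℝ)) (bas.sum_repr v)
    simp only [Submodule.coe_sum, Submodule.coe_smul, Rat.smul_def] at h
    exact h.symm
  have key : ∀ t : ℕ, ∃ (b : ℕ) (a : ℤ) (d : Fin s → ℤ), 1 ≤ b ∧ (t ∈ E →
      b * hur (((x₀ + h * t : ℕ) : ℝ) / q) - a - ∑ i, d i * (bas i : ℝ) = 0) := by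
    intro t
    by_cases ht : t ∈ E
    · obtain ⟨v, hv, w, hw, hvw⟩ := Submodule.mem_sup.1 (hE t ht).2
      obtain ⟨z, rfl⟩ := Submodule.mem_span_singleton.1 hw
      obtain ⟨b, hb, hb'⟩ := exists_den (univ : Finset (Option (Fin s)))
        (fun o => o.elim z fun i => bas.repr ⟨v, hv⟩ i)
      have h0 := hb' none (mem_univ _)
      have h1 : ∀ i, _ := fun i => hb' (some i) (mem_univ _)
      simp only [Option.elim] at h0 h1
      obtain ⟨a, ha⟩ := h0
      choose d hd using h1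
      refine ⟨b, a, d, hb, fun _ => ?_⟩
      rw [← hvw, Rat.smul_def, mul_one]
      have h5 : v = ∑ i, (bas.repr ⟨v, hv⟩ i : ℝ) * (bas i : ℝ) := hrepr ⟨v, hv⟩
      have ha' := congrArg (fun x : ℚ => (x : ℝ)) ha
      push_cast at ha'
      have h6 : (b : ℝ) * v = ∑ i, d i * (bas i : ℝ) := by
        conv_lhs => rw [h5]
        rw [mul_sum]
        refine sum_congr rfl fun i _ => ?_
        have hd' := congrArg (fun x : ℚ => (x : ℝ)) (hd i)
        push_cast at hd'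
        rw [← mul_assoc]
        first
          | rw [hd']
          | rw [← hd']
      rw [mul_add, h6]
      first
        | rw [ha']
        | rw [← ha']
      ring
    · exact ⟨1, 0, fun _ => 0, le_rfl, fun h' => absurd h' ht⟩
  choose b a d hb hrel using key
  obtain ⟨H, hH⟩ : ∃ H : ℕ, H = 1 + ∑ t ∈ E, (b t + ∑ i, (d t i).natAbs) := ⟨_, rfl⟩
  refine densityB x₀ h N hh hN (fun i => (bas i : ℝ)) (H := H) (by omega) E fun t ht => ?_
  have h1 : b t + ∑ i, (d t i).natAbs ≤ ∑ t ∈ E, (b t + ∑ i, (d t i).natAbs) :=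
    single_le_sum (f := fun t => b t + ∑ i, (d t i).natAbs) (fun _ _ => Nat.zero_le _) ht
  refine ⟨(hE t ht).1, b t, a t, d t, hb t, by omega, fun i => ?_, ?_⟩
  · have h2 : (d t i).natAbs ≤ ∑ i, (d t i).natAbs :=
      single_le_sum (f := fun i => (d t i).natAbs) (fun _ _ => Nat.zero_le _) (mem_univ i)
    have h3 : (d t i).natAbs ≤ H := by omega
    rw [← Int.natCast_natAbs]
    exact_mod_cast h3
  · rw [hrel t ht, abs_zero]
    have hH0 : (0 : ℝ) < H := by
      have : 1 ≤ H := by omega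
      exact_mod_cast this
    exact mul_pos (Real.exp_pos _) (Real.rpow_pos_of_pos hH0 _)

end HZ10
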