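import Mathlib

/-!
# Row HZ10 NUMa: the choice of `r`, `M`, first case (MEDIUM, real inequalities, ONLY MATHLIB)

Template with the same structure, to be copied: `LibHZ8/NUM.lean` (`num8`).  Put `l = log N`, `L = log q`, `u = e² (s + 1) ≥ 1`,
`w = l ^ 3 / (u L ^ 2)`; the hypothesis says `4 N exp (- w / 500) < E ≤ N`.
1. `w > 500 log 4 = 1000 log 2 > 693`; `0 < l ≤ L`, so `w ≤ l / u ≤ l`, `l > 693`, `u ≤ l / 693`.
2. `X = exp (2 l / 3)`, `r = ⌊(X - 1) / 2⌋₊`: `X / 2 ≤ 2 r + 1 ≤ X ≤ N ≤ q`, `log (2 r + 1) ≥ 0.66 l`, `r ≥ 1`.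
3. `c = L / log (2 r + 1)`, `1 ≤ c`, `u c² w ≤ 2.3 l` (as in `num8`), `u c² ≥ 1`, `u c² ≤ 0.00332 l`.
   `M = ⌈60 u c²⌉₊ ≤ 61 u c²`, so `M w ≤ 141 l`.
4. `4 M ≤ 0.82 l ≤ 4 (l - w / 500 + 1) ≤ 4 exp (l - w / 500) < E`.
5. `(E / (4 N)) ^ M ≥ exp (- w M / 500) ≥ exp (- 0.282 l)`, so the right-hand side is `≥ 2 exp (0.718 l)`; the left-hand side is
   `6200 e³ (2 r + 1) (s+1)² c² ≤ 6200 X (u c²)² ≤ 6200 X * 0.0000111 l²` (`e³ (s+1)² ≤ u²`, `c ≥ 1`) and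
   `0.069 l² ≤ 2 exp (0.05 l)` (`exp x ≥ x³ / 6`, `x = 0.05 l ≥ 34`).
6. Last: `100000 e⁴ (s+1)³ (2 r + 1) c² L ≤ N`: `e⁴ (s+1)² c² ≤ (u c²)² ≤ 0.0000111 l²`, `s + 1 ≤ u ≤ l / 693`, and
   `L ≤ L² ≤ l³ / 693` (from `w > 693`, `u ≥ 1`, `L ≥ 1`): the left side is `≤ X * 100000 * 0.0000111 l² * (l / 693) * (l³ / 693)
   ≤ X * 0.0000024 l⁶`, and `N = X exp (l / 3)`, `exp (l / 3) ≥ (l / 3) ^ 7 / 5040` (`Real.pow_div_factorial_le_exp`)
   `= l⁷ / 11022480 ≥ 0.00006 l⁶`.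
-/

namespace HZ10

theorem numA {N q s e E : ℕ} (hN : N ≤ q) (hE : E ≤ N) (he : 1 ≤ e)
    (h : 4 * (N : ℝ) * Real.exp (-((Real.log N) ^ 3 /
      (500 * (e : ℝ) ^ 2 * ((s : ℝ) + 1) * (Real.log q) ^ 2))) < E) :
    ∃ r M : ℕ, 1 ≤ r ∧ 2 * r + 1 ≤ q ∧
      60 * (e : ℝ) ^ 2 * ((s : ℝ) + 1) * (Real.log q / Real.log (2 * r + 1)) ^ 2 ≤ M ∧
      (M : ℝ) ≤ 61 * (e : ℝ) ^ 2 * ((s : ℝ) + 1) * (Real.log q / Real.log (2 * r + 1)) ^ 2 ∧
      4 * M ≤ E ∧
      6200 * (e : ℝ) ^ 3 * (2 * r + 1) * ((s : ℝ) + 1) ^ 2 *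
        (Real.log q / Real.log (2 * r + 1)) ^ 2 ≤ 2 * (N : ℝ) * ((E : ℝ) / (4 * N)) ^ M ∧
      100000 * (e : ℝ) ^ 4 * ((s : ℝ) + 1) ^ 3 * (2 * r + 1) *
        (Real.log q / Real.log (2 * r + 1)) ^ 2 * Real.log q ≤ N := by
  obtain ⟨l, hl⟩ : ∃ l : ℝ, l = Real.log N := ⟨_, rfl⟩
  obtain ⟨L, hL⟩ : ∃ L : ℝ, L = Real.log q := ⟨_, rfl⟩
  obtain ⟨t, ht⟩ : ∃ t : ℝ, t = (s : ℝ) + 1 := ⟨_, rfl⟩
  obtain ⟨ε, hε⟩ : ∃ ε : ℝ, ε = (e : ℝ) := ⟨_, rfl⟩
  rw [← hl, ← hL, ← ht, ← hε] at h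
  rw [← hL, ← ht, ← hε]
  have ht1 : (1 : ℝ) ≤ t := by
    rw [ht]
    have : (0 : ℝ) ≤ (s : ℝ) := Nat.cast_nonneg s
    linarith
  have hε1 : (1 : ℝ) ≤ ε := by
    rw [hε]
    exact_mod_cast he
  obtain ⟨u, hu⟩ : ∃ u : ℝ, u = ε ^ 2 * t := ⟨_, rfl⟩
  have hε2 : (1 : ℝ) ≤ ε ^ 2 := one_le_pow₀ hε1
  have htu : t ≤ u := by
    rw [hu]
    have := mul_le_mul_of_nonneg_right hε2 (show (0 : ℝ) ≤ t by linarith)
    linarith
  have hu1 : (1 : ℝ) ≤ u := ht1.trans htu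
  obtain ⟨a, ha⟩ : ∃ a : ℝ, a = l ^ 3 / (500 * ε ^ 2 * t * L ^ 2) := ⟨_, rfl⟩
  rw [← ha] at h
  have ha' : a = l ^ 3 / (500 * u * L ^ 2) := by rw [ha, hu]; ring_nf
  have heN : (E : ℝ) ≤ N := by exact_mod_cast hE
  have hNq : (N : ℝ) ≤ q := by exact_mod_cast hN
  have hepos : (0 : ℝ) < E := lt_of_le_of_lt (by positivity) h
  have hNpos : (0 : ℝ) < N := lt_of_lt_of_le hepos heN
  have hN1 : (1 : ℝ) ≤ N := by
    have : 0 < N := by exact_mod_cast hNpos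
    exact_mod_cast this
  have hqpos : (0 : ℝ) < q := lt_of_lt_of_le hNpos hNq
  have hl0 : 0 ≤ l := by rw [hl]; exact Real.log_nonneg hN1
  have hlL : l ≤ L := by rw [hl, hL]; exact Real.log_le_log hNpos hNq
  -- step 1
  have h1 : 4 * Real.exp (-a) < 1 := by
    have h2 : 4 * (N : ℝ) * Real.exp (-a) < N := lt_of_lt_of_le h heN
    by_contra hcon
    push Not at hcon
    have : (N : ℝ) * 1 ≤ N * (4 * Real.exp (-a)) := mul_le_mul_of_nonneg_left hcon hNpos.le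
    linarith
  have ha1 : 2 * Real.log 2 < a := by
    have h3 : Real.exp (2 * Real.log 2) = 4 := by
      rw [two_mul, Real.exp_add, Real.exp_log (by norm_num)]
      norm_num
    have h4 : 4 < Real.exp a := by
      rw [Real.exp_neg] at h1
      have h5 := Real.exp_pos a
      have h6 : 4 * (Real.exp a)⁻¹ * Real.exp a < 1 * Real.exp a :=
        mul_lt_mul_of_pos_right h1 h5
      rw [mul_assoc, inv_mul_cancel₀ h5.ne'] at h6
      linarith
    rw [← h3] at h4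
    exact Real.exp_lt_exp.mp h4
  have ha2 : 1.3862 < a := by
    have := Real.log_two_gt_d9
    linarith
  have hlpos : 0 < l := by
    rcases hl0.lt_or_eq with h5 | h5
    · exact h5
    · exfalso
      rw [← h5] at ha
      norm_num at ha
      linarith
  have hLpos : 0 < L := lt_of_lt_of_le hlpos hlL
  have hupos : 0 < u := by linarith
  -- w = 500 a
  obtain ⟨w, hw⟩ : ∃ w : ℝ, w = 500 * a := ⟨_, rfl⟩
  have hwa : a = w / 500 := by rw [hw]; ring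
  have hw693 : 693 < w := by rw [hw]; linarith
  have hwpos : 0 < w := by linarith
  have hwL : w * (u * L ^ 2) = l ^ 3 := by
    rw [hw, ha']
    field_simp
  have hwul : w * u ≤ l := by
    have h7 : l ^ 2 ≤ L ^ 2 := pow_le_pow_left₀ hl0 hlL 2
    have h8 : (w * u) * L ^ 2 ≤ l * L ^ 2 := by
      calc (w * u) * L ^ 2 = w * (u * L ^ 2) := by ring
        _ = l * l ^ 2 := by rw [hwL]; ring
        _ ≤ l * L ^ 2 := mul_le_mul_of_nonneg_left h7 hl0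
    exact le_of_mul_le_mul_right h8 (by positivity)
  have hwl : w ≤ l := by
    have h6 : w * 1 ≤ w * u := mul_le_mul_of_nonneg_left hu1 hwpos.le
    linarith
  have hl693 : 693 < l := lt_of_lt_of_le hw693 hwl
  have hul : 693 * u ≤ l := by
    have h6 : 693 * u ≤ w * u := mul_le_mul_of_nonneg_right hw693.le hupos.le
    linarith
  -- step 2
  obtain ⟨X, hX⟩ : ∃ X : ℝ, X = Real.exp (2 * l / 3) := ⟨_, rfl⟩
  have hX4 : 4 ≤ X := by
    rw [hX]
    have := Real.add_one_le_exp (2 * l / 3)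
    linarith
  have hXN : X ≤ N := by
    have h9 : (N : ℝ) = Real.exp l := by rw [hl, Real.exp_log hNpos]
    rw [hX, h9]
    exact Real.exp_le_exp.mpr (by linarith)
  obtain ⟨r, hr⟩ : ∃ r : ℕ, r = ⌊(X - 1) / 2⌋₊ := ⟨_, rfl⟩
  have hr1 : (r : ℝ) ≤ (X - 1) / 2 := by
    rw [hr]
    exact Nat.floor_le (by linarith)
  have hr2 : (X - 1) / 2 < r + 1 := by
    rw [hr]
    exact Nat.lt_floor_add_one _
  have hr3 : 1 ≤ r := by
    rw [hr]
    exact Nat.le_floor (by push_cast; linarith)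
  obtain ⟨b, hb⟩ : ∃ b : ℝ, b = Real.log (2 * (r : ℝ) + 1) := ⟨_, rfl⟩
  have hY1 : 2 * (r : ℝ) + 1 ≤ X := by linarith
  have hY2 : X / 2 ≤ 2 * (r : ℝ) + 1 := by linarith
  have hYpos : (0 : ℝ) < 2 * (r : ℝ) + 1 := by positivity
  have hYq : 2 * (r : ℝ) + 1 ≤ q := by linarith
  have hb1 : 0.66 * l ≤ b := by
    have h10 : Real.log (X / 2) ≤ Real.log (2 * (r : ℝ) + 1) :=
      Real.log_le_log (by linarith) hY2
    rw [Real.log_div (by linarith) (by norm_num), hX, Real.log_exp, ← hb] at h10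
    have := Real.log_two_lt_d9
    linarith
  have hbL : b ≤ L := by
    rw [hb, hL]
    exact Real.log_le_log hYpos hYq
  have hbpos : 0 < b := by nlinarith
  -- step 3
  obtain ⟨c, hc⟩ : ∃ c : ℝ, c = L / b := ⟨_, rfl⟩
  have hc1 : 1 ≤ c := by
    rw [hc, le_div_iff₀ hbpos]
    linarith
  have hcl : c * l ≤ L / 0.66 := by
    have h11 : c * b = L := by
      rw [hc]
      field_simp
    have h12 : c * (0.66 * l) ≤ c * b := mul_le_mul_of_nonneg_left hb1 (by linarith)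
    rw [le_div_iff₀ (by norm_num)]
    linarith
  have huc : u * c ^ 2 * w ≤ 2.3 * l := by
    -- u c² w · l² ≤ 2.3 l³
    have h13 : (c * l) ^ 2 ≤ (L / 0.66) ^ 2 :=
      pow_le_pow_left₀ (by positivity) hcl 2
    have h14 : (c * l) ^ 2 ≤ 2.3 * L ^ 2 := by
      have : (L / 0.66) ^ 2 ≤ 2.3 * L ^ 2 := by
        rw [div_pow]
        rw [div_le_iff₀ (by norm_num)]
        nlinarith [sq_nonneg L]
      linarith
    have h15 : (u * w) * (c * l) ^ 2 ≤ (u * w) * (2.3 * L ^ 2) :=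
      mul_le_mul_of_nonneg_left h14 (by positivity)
    have h16 : (u * c ^ 2 * w) * l ^ 2 ≤ (2.3 * l) * l ^ 2 := by
      calc (u * c ^ 2 * w) * l ^ 2 = (u * w) * (c * l) ^ 2 := by ring
        _ ≤ (u * w) * (2.3 * L ^ 2) := h15
        _ = 2.3 * (w * (u * L ^ 2)) := by ring
        _ = (2.3 * l) * l ^ 2 := by rw [hwL]; ring
    exact le_of_mul_le_mul_right h16 (by positivity)
  have hc2 : 1 ≤ c ^ 2 := one_le_pow₀ hc1
  have hucpos : 1 ≤ u * c ^ 2 := by nlinarith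
  have h31 : u * c ^ 2 ≤ 0.003319 * l := by
    have h32 : (u * c ^ 2) * 693 ≤ (u * c ^ 2) * w :=
      mul_le_mul_of_nonneg_left hw693.le (by positivity)
    linarith
  have h35 : (u * c ^ 2) ^ 2 ≤ 0.0000111 * l ^ 2 := by
    have h36 : (u * c ^ 2) ^ 2 ≤ (0.003319 * l) ^ 2 :=
      pow_le_pow_left₀ (by positivity) h31 2
    have h37 : (0.003319 * l) ^ 2 = 0.000011015761 * l ^ 2 := by ring
    rw [h37] at h36
    have h38 : 0.000011015761 * l ^ 2 ≤ 0.0000111 * l ^ 2 :=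
      mul_le_mul_of_nonneg_right (by norm_num) (by positivity)
    linarith
  obtain ⟨M, hM⟩ : ∃ M : ℕ, M = ⌈60 * ε ^ 2 * t * c ^ 2⌉₊ := ⟨_, rfl⟩
  have huM : 60 * ε ^ 2 * t * c ^ 2 = 60 * (u * c ^ 2) := by rw [hu]; ring
  have huM' : 61 * ε ^ 2 * t * c ^ 2 = 61 * (u * c ^ 2) := by rw [hu]; ring
  have hM1 : 60 * ε ^ 2 * t * c ^ 2 ≤ M := by
    rw [hM]
    exact Nat.le_ceil _
  have hM2 : (M : ℝ) ≤ 61 * ε ^ 2 * t * c ^ 2 := by
    have h18 : (M : ℝ) < 60 * ε ^ 2 * t * c ^ 2 + 1 := by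
      rw [hM]
      exact Nat.ceil_lt_add_one (by positivity)
    rw [huM] at h18
    rw [huM']
    linarith
  have hMw : (M : ℝ) * w ≤ 140.3 * l := by
    have h19 : (M : ℝ) * w ≤ (61 * (u * c ^ 2)) * w := by
      rw [← huM']
      exact mul_le_mul_of_nonneg_right hM2 hwpos.le
    linarith
  have hMl : (M : ℝ) ≤ 0.2025 * l := by
    have h20 : (M : ℝ) * 693 ≤ M * w := mul_le_mul_of_nonneg_left hw693.le (Nat.cast_nonneg M)
    linarith
  have hNexp : (N : ℝ) = Real.exp l := by rw [hl, Real.exp_log hNpos]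
  have hXpos : 0 < X := by linarith
  refine ⟨r, M, hr3, by exact_mod_cast hYq, ?_, ?_, ?_, ?_, ?_⟩
  · rw [← hb, ← hc]; exact hM1
  · rw [← hb, ← hc]; exact hM2
  · -- step 4
    have h21 : 4 * (M : ℝ) ≤ E := by
      have h22 : 4 * (N : ℝ) * Real.exp (-a) = 4 * Real.exp (l - a) := by
        rw [hNexp, mul_assoc, ← Real.exp_add]
        ring_nf
      rw [h22] at h
      have h23 := Real.add_one_le_exp (l - a)
      have h24 : a ≤ l / 500 := by rw [hwa]; linarith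
      linarith
    exact_mod_cast h21
  · -- step 5
    rw [← hb, ← hc]
    have h25 : Real.exp (-a) ≤ (E : ℝ) / (4 * N) := by
      rw [le_div_iff₀ (by positivity)]
      linarith
    have h26 : Real.exp (-a) ^ M ≤ ((E : ℝ) / (4 * N)) ^ M :=
      pow_le_pow_left₀ (Real.exp_pos _).le h25 M
    have h27 : Real.exp (-(0.282 * l)) ≤ Real.exp (-a) ^ M := by
      rw [← Real.exp_nat_mul]
      apply Real.exp_le_exp.mpr
      rw [hwa]
      linarith
    have h28 : 2 * Real.exp (0.718 * l) ≤ 2 * (N : ℝ) * ((E : ℝ) / (4 * N)) ^ M := by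
      have h29 : Real.exp (0.718 * l) = N * Real.exp (-(0.282 * l)) := by
        rw [hNexp, ← Real.exp_add]
        congr 1
        ring
      rw [h29]
      have h30 : (N : ℝ) * Real.exp (-(0.282 * l)) ≤ N * ((E : ℝ) / (4 * N)) ^ M :=
        mul_le_mul_of_nonneg_left (h27.trans h26) hNpos.le
      linarith
    refine le_trans ?_ h28
    -- left side
    have h33 : ε ^ 3 * t ^ 2 * c ^ 2 ≤ (u * c ^ 2) ^ 2 := by
      have h34 : ε ^ 3 * t ^ 2 * c ^ 2 * 1 ≤ ε ^ 3 * t ^ 2 * c ^ 2 * (ε * c ^ 2) := by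
        apply mul_le_mul_of_nonneg_left _ (by positivity)
        nlinarith
      calc ε ^ 3 * t ^ 2 * c ^ 2 = ε ^ 3 * t ^ 2 * c ^ 2 * 1 := by ring
        _ ≤ ε ^ 3 * t ^ 2 * c ^ 2 * (ε * c ^ 2) := h34
        _ = (u * c ^ 2) ^ 2 := by rw [hu]; ring
    have h36 : ε ^ 3 * t ^ 2 * c ^ 2 ≤ 0.0000111 * l ^ 2 := h33.trans h35
    have h37 : 6200 * ε ^ 3 * (2 * (r : ℝ) + 1) * t ^ 2 * c ^ 2 ≤
        6200 * X * (0.0000111 * l ^ 2) := by
      calc 6200 * ε ^ 3 * (2 * (r : ℝ) + 1) * t ^ 2 * c ^ 2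
          = (6200 * (2 * (r : ℝ) + 1)) * (ε ^ 3 * t ^ 2 * c ^ 2) := by ring
        _ ≤ (6200 * X) * (0.0000111 * l ^ 2) :=
            mul_le_mul (by linarith) h36 (by positivity) (by positivity)
    refine h37.trans ?_
    have h38 : Real.exp (0.718 * l) = X * Real.exp (0.05 * l + (0.718 - 2 / 3 - 0.05) * l) := by
      rw [hX, ← Real.exp_add]
      congr 1
      ring
    have h39 : Real.exp (0.05 * l) ≤ Real.exp (0.05 * l + (0.718 - 2 / 3 - 0.05) * l) := by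
      apply Real.exp_le_exp.mpr
      nlinarith
    have h40 : (0.05 * l) ^ 4 / 24 ≤ Real.exp (0.05 * l) := by
      have := Real.pow_div_factorial_le_exp (0.05 * l) (by positivity) 4
      simpa [Nat.factorial] using this
    have h41 : 6200 * (0.0000111 * l ^ 2) ≤ 2 * Real.exp (0.05 * l) := by
      have h42 : 6200 * (0.0000111 * l ^ 2) ≤ 2 * ((0.05 * l) ^ 4 / 24) := by
        have h44 : (693 : ℝ) ^ 2 ≤ l ^ 2 := pow_le_pow_left₀ (by norm_num) hl693.le 2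
        have h43 : 693 ^ 2 * l ^ 2 ≤ l ^ 2 * l ^ 2 := mul_le_mul_of_nonneg_right h44 (by positivity)
        have h45 : 2 * ((0.05 * l) ^ 4 / 24) = (0.05 ^ 4 / 12) * (l ^ 2 * l ^ 2) := by ring
        rw [h45]
        have h46 : (0.05 ^ 4 / 12 : ℝ) * (693 ^ 2 * l ^ 2) ≤ (0.05 ^ 4 / 12) * (l ^ 2 * l ^ 2) :=
          mul_le_mul_of_nonneg_left h43 (by norm_num)
        refine le_trans ?_ h46
        have h47 : (0.05 ^ 4 / 12 : ℝ) * (693 ^ 2 * l ^ 2) = (0.05 ^ 4 / 12 * 693 ^ 2) * l ^ 2 := by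
          ring
        have h48 : 6200 * (0.0000111 * l ^ 2) = (6200 * 0.0000111) * l ^ 2 := by ring
        rw [h47, h48]
        exact mul_le_mul_of_nonneg_right (by norm_num) (by positivity)
      linarith
    rw [h38]
    calc 6200 * X * (0.0000111 * l ^ 2) = X * (6200 * (0.0000111 * l ^ 2)) := by ring
      _ ≤ X * (2 * Real.exp (0.05 * l)) := mul_le_mul_of_nonneg_left h41 hXpos.le
      _ ≤ X * (2 * Real.exp (0.05 * l + (0.718 - 2 / 3 - 0.05) * l)) :=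
          mul_le_mul_of_nonneg_left (by linarith) hXpos.le
      _ = 2 * (X * Real.exp (0.05 * l + (0.718 - 2 / 3 - 0.05) * l)) := by ring
  · -- step 6
    rw [← hb, ← hc]
    have hL1 : 1 ≤ L := by linarith
    have g1 : 693 * L ≤ l ^ 3 := by
      have g2 : L ≤ L ^ 2 := by nlinarith
      have g3 : 693 * L ^ 2 ≤ l ^ 3 := by
        have g4 : 693 * L ^ 2 ≤ (w * u) * L ^ 2 := by
          apply mul_le_mul_of_nonneg_right _ (by positivity)
          have : 693 * 1 ≤ w * u := mul_le_mul hw693.le hu1 (by norm_num) hwpos.le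
          linarith
        calc 693 * L ^ 2 ≤ (w * u) * L ^ 2 := g4
          _ = l ^ 3 := by rw [← hwL]; ring
      linarith
    have g5 : ε ^ 4 * t ^ 2 * c ^ 2 ≤ 0.0000111 * l ^ 2 := by
      refine le_trans ?_ h35
      have h34 : ε ^ 4 * t ^ 2 * c ^ 2 * 1 ≤ ε ^ 4 * t ^ 2 * c ^ 2 * c ^ 2 :=
        mul_le_mul_of_nonneg_left hc2 (by positivity)
      calc ε ^ 4 * t ^ 2 * c ^ 2 = ε ^ 4 * t ^ 2 * c ^ 2 * 1 := by ring
        _ ≤ ε ^ 4 * t ^ 2 * c ^ 2 * c ^ 2 := h34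
        _ = (u * c ^ 2) ^ 2 := by rw [hu]; ring
    have g6 : t ≤ l / 693 := by
      rw [le_div_iff₀ (by norm_num)]
      linarith
    have g7 : L ≤ l ^ 3 / 693 := by
      rw [le_div_iff₀ (by norm_num)]
      linarith
    have g8 : (ε ^ 4 * t ^ 2 * c ^ 2) * t ≤ (0.0000111 * l ^ 2) * (l / 693) :=
      mul_le_mul g5 g6 (by linarith) (by positivity)
    have g9 : (ε ^ 4 * t ^ 2 * c ^ 2) * t * L ≤ (0.0000111 * l ^ 2) * (l / 693) * (l ^ 3 / 693) :=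
      mul_le_mul g8 g7 hLpos.le (by positivity)
    have g10 : 100000 * ε ^ 4 * t ^ 3 * (2 * (r : ℝ) + 1) * c ^ 2 * L ≤
        100000 * X * ((0.0000111 * l ^ 2) * (l / 693) * (l ^ 3 / 693)) := by
      calc 100000 * ε ^ 4 * t ^ 3 * (2 * (r : ℝ) + 1) * c ^ 2 * L
          = (100000 * (2 * (r : ℝ) + 1)) * ((ε ^ 4 * t ^ 2 * c ^ 2) * t * L) := by ring
        _ ≤ (100000 * X) * ((0.0000111 * l ^ 2) * (l / 693) * (l ^ 3 / 693)) :=
            mul_le_mul (by linarith) g9 (by positivity) (by positivity)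
    refine g10.trans ?_
    have g11 : (N : ℝ) = X * Real.exp (l / 3) := by
      rw [hNexp, hX, ← Real.exp_add]
      congr 1
      ring
    have g12 : (l / 3) ^ 7 / 5040 ≤ Real.exp (l / 3) := by
      have := Real.pow_div_factorial_le_exp (l / 3) (by positivity) 7
      simpa [Nat.factorial] using this
    have g13 : 100000 * ((0.0000111 * l ^ 2) * (l / 693) * (l ^ 3 / 693)) ≤ (l / 3) ^ 7 / 5040 := by
      have g14 : 100000 * ((0.0000111 * l ^ 2) * (l / 693) * (l ^ 3 / 693))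
          = (100000 * 0.0000111 / 693 ^ 2) * l ^ 6 := by ring
      have g15 : (l / 3) ^ 7 / 5040 = (1 / (3 ^ 7 * 5040)) * (l * l ^ 6) := by ring
      rw [g14, g15]
      have g16 : (1 / (3 ^ 7 * 5040) : ℝ) * (693 * l ^ 6) ≤ (1 / (3 ^ 7 * 5040)) * (l * l ^ 6) :=
        mul_le_mul_of_nonneg_left (mul_le_mul_of_nonneg_right hl693.le (by positivity))
          (by norm_num)
      refine le_trans ?_ g16
      rw [← mul_assoc]
      exact mul_le_mul_of_nonneg_right (by norm_num) (by positivity)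
    rw [g11]
    calc 100000 * X * ((0.0000111 * l ^ 2) * (l / 693) * (l ^ 3 / 693))
        = X * (100000 * ((0.0000111 * l ^ 2) * (l / 693) * (l ^ 3 / 693))) := by ring
      _ ≤ X * Real.exp (l / 3) := mul_le_mul_of_nonneg_left (g13.trans g12) hXpos.le

end HZ10
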