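import Mathlib

/-!
# Row HZ10 NUMb: the choice of `r`, `M`, second case (MEDIUM, real inequalities, ONLY MATHLIB)

Template with the same structure, to be copied: `LibHZ8/NUM.lean` (`num8`).  Put `l = log N`, `L = log q`, `u = s + 1 ≥ 1`,
`w = l ^ 3 / (u L ^ 2)`; the hypothesis says `4 N exp (- w / 80) < E ≤ N`.
1. `w > 80 log 4 = 160 log 2 > 110.9`; `0 < l ≤ L`, so `w ≤ l / u ≤ l`, `l > 110.9`, `u ≤ l / 110.9`, `L ≥ 110.9`.
2. `X = exp (2 l / 3)`, `r = ⌊(X - 1) / 2⌋₊`: `X / 2 ≤ 2 r + 1 ≤ X ≤ N ≤ q`, `log (2 r + 1) ≥ 2 l / 3 - log 2 ≥ 0.66 l`,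
   `log (2 r + 1) ≤ 2 l / 3 ≤ 2 L / 3`, `r ≥ 1`.
3. `c = L / log (2 r + 1)`, `3/2 ≤ c ≤ L / (0.66 l)`, `c² ≤ 2.296 (L / l)²`, `u c² w ≤ 2.3 l`, `u c² ≥ 2.25`, `u c² ≤ 0.02075 l`.
   `M = ⌈6.5 u c²⌉₊ ≤ 6.5 u c² + 1 ≤ 6.95 u c²` (`1 ≤ 0.445 u c²`), so `M w ≤ 16 l`.
4. `4 M ≤ 0.58 l ≤ 4 (l - w / 80 + 1) ≤ 4 exp (l - w / 80) < E`.
5. `(E / (4 N)) ^ M ≥ exp (- w M / 80) ≥ exp (- 0.2 l)`, so the right-hand side is `≥ 2 exp (0.8 l)`; the left-hand side is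
   `800 (2 r + 1) u² c² ≤ 800 X (u c²)² ≤ 800 X * 0.000431 l²` and `0.345 l² ≤ 2 exp (0.13 l)` (`exp x ≥ x³ / 6`, `x = 0.13 l ≥ 14.4`).
6. `4000 u³ (2 r + 1) c² L ≤ N`: `u c² ≤ 0.02075 l`, `u ≤ l / 110.9`, `L ≤ L² / 110.9 ≤ l³ / (110.9)²`
   (from `w > 110.9`, `u ≥ 1`: `L² ≤ l³ / 110.9`): the left side is `≤ X * 4000 * 0.02075 l * (l / 110.9)² * l³ / 110.9²
   ≤ X * 0.0000006 l⁶`, and `N = X exp (l / 3)`, `exp (l / 3) ≥ (l / 3) ^ 7 / 5040 = l⁷ / 11022480 ≥ 0.00001 l⁶`.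
7. Last: `3.4 u (M + 1) ≤ 3.4 u * 7.4 u c² ≤ 25.2 u² * 2.296 (L / l)² ≤ 60 u² (L / l)²` (`M + 1 ≤ 6.95 u c² + 0.445 u c²`).
-/

namespace HZ10

theorem numB {N q s E : ℕ} (hN : N ≤ q) (hE : E ≤ N)
    (h : 4 * (N : ℝ) * Real.exp (-((Real.log N) ^ 3 /
      (80 * ((s : ℝ) + 1) * (Real.log q) ^ 2))) < E) :
    ∃ r M : ℕ, 1 ≤ r ∧ 3 / 2 * Real.log (2 * r + 1) ≤ Real.log q ∧ 100 ≤ Real.log q ∧
      6.5 * ((s : ℝ) + 1) * (Real.log q / Real.log (2 * r + 1)) ^ 2 ≤ M ∧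
      (M : ℝ) ≤ 7 * ((s : ℝ) + 1) * (Real.log q / Real.log (2 * r + 1)) ^ 2 ∧
      4 * M ≤ E ∧
      800 * (2 * r + 1) * ((s : ℝ) + 1) ^ 2 *
        (Real.log q / Real.log (2 * r + 1)) ^ 2 ≤ 2 * (N : ℝ) * ((E : ℝ) / (4 * N)) ^ M ∧
      4000 * ((s : ℝ) + 1) ^ 3 * (2 * r + 1) *
        (Real.log q / Real.log (2 * r + 1)) ^ 2 * Real.log q ≤ N ∧
      3.4 * ((s : ℝ) + 1) * (M + 1) ≤ 60 * ((s : ℝ) + 1) ^ 2 * (Real.log q / Real.log N) ^ 2 := by
  obtain ⟨l, hl⟩ : ∃ l : ℝ, l = Real.log N := ⟨_, rfl⟩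
  obtain ⟨L, hL⟩ : ∃ L : ℝ, L = Real.log q := ⟨_, rfl⟩
  obtain ⟨t, ht⟩ : ∃ t : ℝ, t = (s : ℝ) + 1 := ⟨_, rfl⟩
  rw [← hl, ← hL, ← ht] at h
  rw [← hL, ← ht, ← hl]
  have ht1 : (1 : ℝ) ≤ t := by
    rw [ht]
    have : (0 : ℝ) ≤ (s : ℝ) := Nat.cast_nonneg s
    linarith
  obtain ⟨a, ha⟩ : ∃ a : ℝ, a = l ^ 3 / (80 * t * L ^ 2) := ⟨_, rfl⟩
  rw [← ha] at h
  have heN : (E : ℝ) ≤ N := by exact_mod_cast hE
  have hNq : (N : ℝ) ≤ q := by exact_mod_cast hN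
  have hepos : (0 : ℝ) < E := lt_of_le_of_lt (by positivity) h
  have hNpos : (0 : ℝ) < N := lt_of_lt_of_le hepos heN
  have hN1 : (1 : ℝ) ≤ N := by
    have : 0 < N := by exact_mod_cast hNpos
    exact_mod_cast this
  have hl0 : 0 ≤ l := by rw [hl]; exact Real.log_nonneg hN1
  have hlL : l ≤ L := by rw [hl, hL]; exact Real.log_le_log hNpos hNq
  -- step 1
  have h1 : 4 * Real.exp (-a) < 1 := by
    have h2 : 4 * (N : ℝ) * Real.exp (-a) < N := lt_of_lt_of_le h heN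
    by_contra hcon
    push Not at hcon
    have : (N : ℝ) * 1 ≤ N * (4 * Real.exp (-a)) := mul_le_mul_of_nonneg_left hcon hNpos.le
    linarith
  have ha1 : 2 * Real.log 2 < a := by
    have h3 : Real.exp (2 * Real.log 2) = 4 := by
      rw [two_mul, Real.exp_add, Real.exp_log (by norm_num)]
      norm_num
    have h4 : 4 < Real.exp a := by
      rw [Real.exp_neg] at h1
      have h5 := Real.exp_pos a
      have h6 : 4 * (Real.exp a)⁻¹ * Real.exp a < 1 * Real.exp a :=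
        mul_lt_mul_of_pos_right h1 h5
      rw [mul_assoc, inv_mul_cancel₀ h5.ne'] at h6
      linarith
    rw [← h3] at h4
    exact Real.exp_lt_exp.mp h4
  have ha2 : 1.38629 < a := by
    have := Real.log_two_gt_d9
    linarith
  have hlpos : 0 < l := by
    rcases hl0.lt_or_eq with h5 | h5
    · exact h5
    · exfalso
      rw [← h5] at ha
      norm_num at ha
      linarith
  have hLpos : 0 < L := lt_of_lt_of_le hlpos hlL
  have htpos : 0 < t := by linarith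
  -- w = 80 a
  obtain ⟨w, hw⟩ : ∃ w : ℝ, w = 80 * a := ⟨_, rfl⟩
  have hwa : a = w / 80 := by rw [hw]; ring
  have hw1 : 110.9 < w := by rw [hw]; linarith
  have hwpos : 0 < w := by linarith
  have hwL : w * (t * L ^ 2) = l ^ 3 := by
    rw [hw, ha]
    field_simp
  have hwtl : w * t ≤ l := by
    have h7 : l ^ 2 ≤ L ^ 2 := pow_le_pow_left₀ hl0 hlL 2
    have h8 : (w * t) * l ^ 2 ≤ (w * t) * L ^ 2 := mul_le_mul_of_nonneg_left h7 (by positivity)
    have h9 : (w * t) * l ^ 2 ≤ l * l ^ 2 := by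
      calc (w * t) * l ^ 2 ≤ (w * t) * L ^ 2 := h8
        _ = w * (t * L ^ 2) := by ring
        _ = l ^ 3 := hwL
        _ = l * l ^ 2 := by ring
    exact le_of_mul_le_mul_right h9 (by positivity)
  have hwl : w ≤ l := by
    have : w * 1 ≤ w * t := mul_le_mul_of_nonneg_left ht1 hwpos.le
    linarith
  have hl1 : 110.9 < l := lt_of_lt_of_le hw1 hwl
  have htl : t ≤ l / 110.9 := by
    rw [le_div_iff₀ (by norm_num)]
    have : t * 110.9 ≤ t * w := mul_le_mul_of_nonneg_left hw1.le htpos.le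
    linarith
  have hL2 : L ≤ l ^ 3 / 110.9 ^ 2 := by
    have h10 : L ^ 2 * 110.9 ≤ l ^ 3 := by
      rw [← hwL]
      have h11 : 110.9 ≤ w * t := by
        have : w * 1 ≤ w * t := mul_le_mul_of_nonneg_left ht1 hwpos.le
        linarith
      have h12 : L ^ 2 * 110.9 ≤ L ^ 2 * (w * t) := mul_le_mul_of_nonneg_left h11 (by positivity)
      calc L ^ 2 * 110.9 ≤ L ^ 2 * (w * t) := h12
        _ = w * (t * L ^ 2) := by ring
    have h13 : L * 110.9 ≤ L ^ 2 := by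
      rw [pow_two]
      exact mul_le_mul_of_nonneg_left (by linarith) hLpos.le
    rw [le_div_iff₀ (by norm_num)]
    have h14 : L * 110.9 * 110.9 ≤ L ^ 2 * 110.9 := mul_le_mul_of_nonneg_right h13 (by norm_num)
    calc L * 110.9 ^ 2 = L * 110.9 * 110.9 := by ring
      _ ≤ L ^ 2 * 110.9 := h14
      _ ≤ l ^ 3 := h10
  -- step 2
  obtain ⟨X, hX⟩ : ∃ X : ℝ, X = Real.exp (2 * l / 3) := ⟨_, rfl⟩
  have hX4 : 4 ≤ X := by
    rw [hX]
    have := Real.add_one_le_exp (2 * l / 3)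
    linarith
  have hXpos : 0 < X := by linarith
  have hNexp : (N : ℝ) = Real.exp l := by rw [hl, Real.exp_log hNpos]
  obtain ⟨r, hr⟩ : ∃ r : ℕ, r = ⌊(X - 1) / 2⌋₊ := ⟨_, rfl⟩
  have hr1 : (r : ℝ) ≤ (X - 1) / 2 := by
    rw [hr]
    exact Nat.floor_le (by linarith)
  have hr2 : (X - 1) / 2 < r + 1 := by
    rw [hr]
    exact Nat.lt_floor_add_one _
  have hr3 : 1 ≤ r := by
    rw [hr]
    exact Nat.le_floor (by push_cast; linarith)
  obtain ⟨b, hb⟩ : ∃ b : ℝ, b = Real.log (2 * (r : ℝ) + 1) := ⟨_, rfl⟩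
  have hY1 : 2 * (r : ℝ) + 1 ≤ X := by linarith
  have hY2 : X / 2 ≤ 2 * (r : ℝ) + 1 := by linarith
  have hYpos : (0 : ℝ) < 2 * (r : ℝ) + 1 := by positivity
  have hb1 : 0.66 * l ≤ b := by
    have h10 : Real.log (X / 2) ≤ Real.log (2 * (r : ℝ) + 1) :=
      Real.log_le_log (by linarith) hY2
    rw [Real.log_div (by linarith) (by norm_num), hX, Real.log_exp, ← hb] at h10
    have := Real.log_two_lt_d9
    linarith
  have hb2 : b ≤ 2 * l / 3 := by
    have h10 : Real.log (2 * (r : ℝ) + 1) ≤ Real.log X := Real.log_le_log hYpos hY1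
    rw [← hb, hX, Real.log_exp] at h10
    exact h10
  have hbL : 3 / 2 * b ≤ L := by linarith
  have hbpos : 0 < b := by
    have : 0 < 0.66 * l := by positivity
    linarith
  -- step 3
  obtain ⟨c, hc⟩ : ∃ c : ℝ, c = L / b := ⟨_, rfl⟩
  have hc1 : 3 / 2 ≤ c := by
    rw [hc, le_div_iff₀ hbpos]
    exact hbL
  have hcpos : 0 < c := by linarith
  have hc2 : 2.25 ≤ c ^ 2 := by nlinarith
  have hcl : c * l ≤ L / 0.66 := by
    have h11 : c * b = L := by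
      rw [hc]
      field_simp
    have h12 : c * (0.66 * l) ≤ c * b := mul_le_mul_of_nonneg_left hb1 (by linarith)
    rw [le_div_iff₀ (by norm_num)]
    linarith
  have hcl2 : (c * l) ^ 2 ≤ 2.296 * L ^ 2 := by
    have h13 : (c * l) ^ 2 ≤ (L / 0.66) ^ 2 :=
      pow_le_pow_left₀ (by positivity) hcl 2
    have : (L / 0.66) ^ 2 ≤ 2.296 * L ^ 2 := by
      rw [div_pow]
      rw [div_le_iff₀ (by norm_num)]
      nlinarith [sq_nonneg L]
    linarith
  obtain ⟨v, hv⟩ : ∃ v : ℝ, v = t * c ^ 2 := ⟨_, rfl⟩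
  have hvw : v * w ≤ 2.296 * l := by
    have h15 : (t * w) * (c * l) ^ 2 ≤ (t * w) * (2.296 * L ^ 2) :=
      mul_le_mul_of_nonneg_left hcl2 (by positivity)
    have h16 : (v * w) * l ^ 2 ≤ (2.296 * l) * l ^ 2 := by
      calc (v * w) * l ^ 2 = (t * w) * (c * l) ^ 2 := by rw [hv]; ring
        _ ≤ (t * w) * (2.296 * L ^ 2) := h15
        _ = 2.296 * (w * (t * L ^ 2)) := by ring
        _ = (2.296 * l) * l ^ 2 := by rw [hwL]; ring
    exact le_of_mul_le_mul_right h16 (by positivity)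
  have hv1 : 2.25 ≤ v := by
    rw [hv]
    have : 1 * c ^ 2 ≤ t * c ^ 2 := mul_le_mul_of_nonneg_right ht1 (by positivity)
    linarith
  have hvpos : 0 < v := by linarith
  have hvl : v ≤ 0.02075 * l := by
    have : v * 110.9 ≤ v * w := mul_le_mul_of_nonneg_left hw1.le hvpos.le
    linarith
  obtain ⟨M, hM⟩ : ∃ M : ℕ, M = ⌈6.5 * v⌉₊ := ⟨_, rfl⟩
  have hM1 : 6.5 * v ≤ M := by
    rw [hM]
    exact Nat.le_ceil _
  have hM2 : (M : ℝ) ≤ 6.945 * v := by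
    have h18 : (M : ℝ) < 6.5 * v + 1 := by
      rw [hM]
      exact Nat.ceil_lt_add_one (by positivity)
    linarith
  have hMw : (M : ℝ) * w ≤ 16 * l := by
    have h19 : (M : ℝ) * w ≤ (6.945 * v) * w := mul_le_mul_of_nonneg_right hM2 hwpos.le
    have h20 : (6.945 * v) * w = 6.945 * (v * w) := by ring
    rw [h20] at h19
    linarith
  refine ⟨r, M, hr3, ?_, by linarith, ?_, ?_, ?_, ?_, ?_, ?_⟩
  · rw [← hb]; exact hbL
  · rw [← hb, ← hc]
    calc 6.5 * t * c ^ 2 = 6.5 * v := by rw [hv]; ring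
      _ ≤ M := hM1
  · rw [← hb, ← hc]
    calc (M : ℝ) ≤ 6.945 * v := hM2
      _ ≤ 7 * v := by linarith
      _ = 7 * t * c ^ 2 := by rw [hv]; ring
  · -- step 4
    have h21 : 4 * (M : ℝ) ≤ E := by
      have h22 : 4 * (N : ℝ) * Real.exp (-a) = 4 * Real.exp (l - a) := by
        rw [hNexp, mul_assoc, ← Real.exp_add]
        ring_nf
      rw [h22] at h
      have h23 := Real.add_one_le_exp (l - a)
      have h24 : a ≤ l / 80 := by rw [hwa]; linarith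
      linarith
    exact_mod_cast h21
  · -- step 5
    rw [← hb, ← hc]
    have h25 : Real.exp (-a) ≤ (E : ℝ) / (4 * N) := by
      rw [le_div_iff₀ (by positivity)]
      linarith
    have h26 : Real.exp (-a) ^ M ≤ ((E : ℝ) / (4 * N)) ^ M :=
      pow_le_pow_left₀ (Real.exp_pos _).le h25 M
    have h27 : Real.exp (-(0.2 * l)) ≤ Real.exp (-a) ^ M := by
      rw [← Real.exp_nat_mul]
      apply Real.exp_le_exp.mpr
      rw [hwa]
      linarith
    have h28 : 2 * Real.exp (0.8 * l) ≤ 2 * (N : ℝ) * ((E : ℝ) / (4 * N)) ^ M := by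
      have h29 : Real.exp (0.8 * l) = N * Real.exp (-(0.2 * l)) := by
        rw [hNexp, ← Real.exp_add]
        congr 1
        ring
      rw [h29]
      have h30 : (N : ℝ) * Real.exp (-(0.2 * l)) ≤ N * ((E : ℝ) / (4 * N)) ^ M :=
        mul_le_mul_of_nonneg_left (h27.trans h26) hNpos.le
      linarith
    refine le_trans ?_ h28
    have h33 : t ^ 2 * c ^ 2 ≤ v ^ 2 := by
      have h34 : t ^ 2 * c ^ 2 * 1 ≤ t ^ 2 * c ^ 2 * c ^ 2 :=
        mul_le_mul_of_nonneg_left (by linarith) (by positivity)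
      calc t ^ 2 * c ^ 2 = t ^ 2 * c ^ 2 * 1 := by ring
        _ ≤ t ^ 2 * c ^ 2 * c ^ 2 := h34
        _ = v ^ 2 := by rw [hv]; ring
    have h35 : v ^ 2 ≤ (0.02075 * l) ^ 2 := pow_le_pow_left₀ hvpos.le hvl 2
    have h36 : t ^ 2 * c ^ 2 ≤ 0.000431 * l ^ 2 := by
      have h34 : (0.02075 * l) ^ 2 ≤ 0.000431 * l ^ 2 := by
        rw [mul_pow]
        exact mul_le_mul_of_nonneg_right (by norm_num) (by positivity)
      exact h33.trans (h35.trans h34)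
    have h37 : 800 * (2 * (r : ℝ) + 1) * t ^ 2 * c ^ 2 ≤
        800 * X * (0.000431 * l ^ 2) := by
      calc 800 * (2 * (r : ℝ) + 1) * t ^ 2 * c ^ 2
          = (800 * (2 * (r : ℝ) + 1)) * (t ^ 2 * c ^ 2) := by ring
        _ ≤ (800 * X) * (0.000431 * l ^ 2) :=
            mul_le_mul (by linarith) h36 (by positivity) (by positivity)
    refine h37.trans ?_
    have h38 : Real.exp (0.8 * l) = X * Real.exp (0.13 * l + (0.8 - 2 / 3 - 0.13) * l) := by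
      rw [hX, ← Real.exp_add]
      congr 1
      ring
    have h39 : Real.exp (0.13 * l) ≤ Real.exp (0.13 * l + (0.8 - 2 / 3 - 0.13) * l) := by
      apply Real.exp_le_exp.mpr
      have : 0 ≤ (0.8 - 2 / 3 - 0.13) * l := mul_nonneg (by norm_num) hl0
      linarith
    have h40 : (0.13 * l) ^ 5 / 120 ≤ Real.exp (0.13 * l) := by
      have := Real.pow_div_factorial_le_exp (0.13 * l) (by positivity) 5
      simpa [Nat.factorial] using this
    have h41 : 800 * (0.000431 * l ^ 2) ≤ 2 * Real.exp (0.13 * l) := by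
      have h42 : 800 * (0.000431 * l ^ 2) ≤ 2 * ((0.13 * l) ^ 5 / 120) := by
        have h43 : (110.9 : ℝ) ^ 3 ≤ l ^ 3 := pow_le_pow_left₀ (by norm_num) hl1.le 3
        have h44 : (110.9 : ℝ) ^ 3 * l ^ 2 ≤ l ^ 3 * l ^ 2 :=
          mul_le_mul_of_nonneg_right h43 (by positivity)
        have h45 : 2 * ((0.13 * l) ^ 5 / 120) = (0.13 ^ 5 / 60) * (l ^ 3 * l ^ 2) := by ring
        rw [h45]
        have h46 : (0.13 ^ 5 / 60 : ℝ) * ((110.9 : ℝ) ^ 3 * l ^ 2) ≤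
            (0.13 ^ 5 / 60) * (l ^ 3 * l ^ 2) := mul_le_mul_of_nonneg_left h44 (by norm_num)
        have h47 : (800 * 0.000431 : ℝ) ≤ (0.13 ^ 5 / 60) * (110.9 : ℝ) ^ 3 := by norm_num
        have h48 := mul_le_mul_of_nonneg_right h47 (sq_nonneg l)
        calc 800 * (0.000431 * l ^ 2) = 800 * 0.000431 * l ^ 2 := by ring
          _ ≤ (0.13 ^ 5 / 60) * (110.9 : ℝ) ^ 3 * l ^ 2 := h48
          _ = (0.13 ^ 5 / 60 : ℝ) * ((110.9 : ℝ) ^ 3 * l ^ 2) := by ring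
          _ ≤ _ := h46
      linarith
    rw [h38]
    calc 800 * X * (0.000431 * l ^ 2) = X * (800 * (0.000431 * l ^ 2)) := by ring
      _ ≤ X * (2 * Real.exp (0.13 * l)) := mul_le_mul_of_nonneg_left h41 hXpos.le
      _ ≤ X * (2 * Real.exp (0.13 * l + (0.8 - 2 / 3 - 0.13) * l)) :=
          mul_le_mul_of_nonneg_left (by linarith) hXpos.le
      _ = 2 * (X * Real.exp (0.13 * l + (0.8 - 2 / 3 - 0.13) * l)) := by ring
  · -- step 6
    rw [← hb, ← hc]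
    have h50 : t ^ 2 ≤ (l / 110.9) ^ 2 := pow_le_pow_left₀ htpos.le htl 2
    have h51 : v * t ^ 2 ≤ (0.02075 * l) * (l / 110.9) ^ 2 :=
      mul_le_mul hvl h50 (by positivity) (by positivity)
    have h52 : v * t ^ 2 * L ≤ (0.02075 * l) * (l / 110.9) ^ 2 * (l ^ 3 / 110.9 ^ 2) :=
      mul_le_mul h51 hL2 hLpos.le (by positivity)
    have h53 : (0.02075 * l) * (l / 110.9) ^ 2 * (l ^ 3 / 110.9 ^ 2) =
        (0.02075 / 110.9 ^ 4) * l ^ 6 := by ring
    have h54 : (0.02075 / 110.9 ^ 4 : ℝ) ≤ 0.00000000015 := by norm_num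
    have h55 : v * t ^ 2 * L ≤ 0.00000000015 * l ^ 6 := by
      rw [h53] at h52
      exact h52.trans (mul_le_mul_of_nonneg_right h54 (by positivity))
    have h56 : 4000 * t ^ 3 * (2 * (r : ℝ) + 1) * c ^ 2 * L ≤ X * (0.0000006 * l ^ 6) := by
      calc 4000 * t ^ 3 * (2 * (r : ℝ) + 1) * c ^ 2 * L
          = (2 * (r : ℝ) + 1) * (4000 * (v * t ^ 2 * L)) := by rw [hv]; ring
        _ ≤ X * (4000 * (0.00000000015 * l ^ 6)) := by
            apply mul_le_mul hY1 _ (by positivity) hXpos.le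
            linarith
        _ = X * (0.0000006 * l ^ 6) := by ring
    have h57 : (l / 3) ^ 7 / 5040 ≤ Real.exp (l / 3) := by
      have := Real.pow_div_factorial_le_exp (l / 3) (by positivity) 7
      simpa [Nat.factorial] using this
    have h58 : 0.0000006 * l ^ 6 ≤ Real.exp (l / 3) := by
      have h59 : (l / 3) ^ 7 / 5040 = (1 / 11022480) * (l * l ^ 6) := by ring
      have h60 : 110.9 * l ^ 6 ≤ l * l ^ 6 := mul_le_mul_of_nonneg_right hl1.le (by positivity)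
      have h61 : 0 ≤ l ^ 6 := by positivity
      rw [h59] at h57
      linarith
    have h62 : (N : ℝ) = X * Real.exp (l / 3) := by
      rw [hNexp, hX, ← Real.exp_add]
      congr 1
      ring
    rw [h62]
    exact h56.trans (mul_le_mul_of_nonneg_left h58 hXpos.le)
  · -- step 7
    have h70 : (M : ℝ) + 1 ≤ 7.39 * v := by linarith
    have h71 : c ^ 2 ≤ 2.296 * (L / l) ^ 2 := by
      rw [div_pow, ← mul_div_assoc, le_div_iff₀ (by positivity)]
      calc c ^ 2 * l ^ 2 = (c * l) ^ 2 := by ring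
        _ ≤ 2.296 * L ^ 2 := hcl2
    calc 3.4 * t * (M + 1) ≤ 3.4 * t * (7.39 * v) := mul_le_mul_of_nonneg_left h70 (by positivity)
      _ = (3.4 * 7.39) * t ^ 2 * c ^ 2 := by rw [hv]; ring
      _ ≤ (3.4 * 7.39) * t ^ 2 * (2.296 * (L / l) ^ 2) :=
          mul_le_mul_of_nonneg_left h71 (by positivity)
      _ = (3.4 * 7.39 * 2.296) * (t ^ 2 * (L / l) ^ 2) := by ring
      _ ≤ 60 * (t ^ 2 * (L / l) ^ 2) := mul_le_mul_of_nonneg_right (by norm_num) (by positivity)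
      _ = 60 * t ^ 2 * (L / l) ^ 2 := by ring

end HZ10
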