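import Pool.Agent.LibHZ10.Defs

/-!
# Row HZ10 PARa: parameters with exponent `(1 + 1/e) (s + 1)` (MEDIUM, real inequalities, ONLY MATHLIB)

Template: `LibHZ8/PAR.lean`.  Put `S = s + 1`, `ρ = 2 r + 1 ≥ 3`, `L = log q`, `λ = log ρ`, `κ = L / λ ≥ 1`, so `L = κ λ`,
`L ≥ λ ≥ log 3 ≥ 1.0986`.  Choose `k = 40 e ρ`, `K = (40 e + 4) ρ ≤ 44 e ρ`, `δ = ⌈400 e² S ρ κ⌉₊` (so `δ ≤ 401 e² S ρ κ`),
`n₀ = 4 M S`.  `a = (δ - K) λ ≥ ρ L (400 e² S - 44 e) ≥ 356 e² S ρ L`.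
Bounds, in units of `ρ² M L` (use `δ ≤ 6.7 ρ M / κ`, from `M ≥ 60 e² S κ²`; `8 log 2 ≤ 5.5452`; `6.55 ≤ 5.97 L`):
`δ² L / 2 ≤ 1341 e² S`; `s M K² L / 2 ≤ 968 e² (S - 1)`; `M k² L / 2 = 800 e²`; `M k 3 ρ (2 L + 1 + 8 log 2) ≤ 957 e`;
`δ + s M K + M k + 3 R₁ ≤ 60 e S` (all of them are `≤ const * e S ρ M`, and `ρ L ≥ 3.29`).
`R₁ = δ + K s M + k M`, and `(1 + 1/e) S k M - R₁ = ρ M (40 (e + 1) S - (40 e + 4) (S - 1) - 40 e) - δ = ρ M (36 S + 4) - δ ≥ 33 S ρ M`.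
hF: `(1 + 1/e) S (E - 3 R₁) - a R₁ = a ((1 + 1/e) S k M - R₁) - (1 + 1/e) S (costs + 3 R₁)
 ≥ 356 * 33 e² S² ρ² M L - (1 + 1/e) S (costs + 3 R₁) ≥ 0` (with `e ≥ 1`, `1 + 1/e ≤ 2`; for `S = 1`, `e = 1` the costs are
`≤ 3160`, `2 * 3160 < 11748`; for `S` large `2 (1341 + 968) e² S²`).
hE: from hF (`a R₁ > 0`, `(1 + 1/e) S > 0`).  hbig: by hF `(E - 3 R₁) ≥ a R₁ / (2 S) ≥ 178 e² ρ L R₁`, `n₀ = 4 M S ≥ 240 e² S² κ²`,
and `log R₁ ≤ R₁ ≤ 3085 e³ ρ S² κ²`, `log δ ≤ δ` (`Real.log_le_self` or `Real.add_one_le_exp`): the bracket is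
`< 42720 e⁴ ρ S² κ² L`.  hA: `a (n₀ + 1) ≤ 401 e² S ρ L (4 * 61 e² S² κ² + 1) ≤ 98245 e⁴ S³ ρ κ² L`.
hm: `2 (δ + K M S) ≤ 2 (401 + 44 * 61) e³ ρ S² κ² = 6170 e³ ρ S² κ²`.
-/

namespace HZ10

/-- the inequalities for real numbers -/
theorem parA_real {e S ρ L l κ M δ t f k K R : ℝ} (he : 1 ≤ e) (hS : 1 ≤ S) (hρ : 3 ≤ ρ)
    (hL : 1.098 ≤ L) (hl : 0 < l) (hlL : l ≤ L) (hκ : κ * l = L) (hκ1 : 1 ≤ κ)
    (hM1 : 60 * (e ^ 2 * S * κ ^ 2) ≤ M) (hM2 : M ≤ 61 * (e ^ 2 * S * κ ^ 2))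
    (hδ1 : 400 * (e ^ 2 * S * ρ * κ) ≤ δ) (hδ2 : δ ≤ 401 * (e ^ 2 * S * ρ * κ))
    (ht : t ≤ 0.6931471808) (ht0 : 0 ≤ t) (hfe : f * e = e + 1) (hf0 : 0 < f) (hf2 : f ≤ 2)
    (hk : k = 40 * e * ρ) (hK : K = (40 * e + 4) * ρ) (hR : R = δ + K * (S - 1) * M + k * M) :
    (0 < M * (k * (δ - K) * l) - (δ + δ ^ 2 * L / 2 + (S - 1) * M * (K + K ^ 2 * L / 2) +
      M * (k + k ^ 2 * L / 2 + k * (3 * ρ * (2 * L + 1 + 8 * t)))) - 3 * R) ∧
    ((δ - K) * l * R ≤ f * S * (M * (k * (δ - K) * l) -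
      (δ + δ ^ 2 * L / 2 + (S - 1) * M * (K + K ^ 2 * L / 2) +
      M * (k + k ^ 2 * L / 2 + k * (3 * ρ * (2 * L + 1 + 8 * t)))) - 3 * R)) ∧
    (356 * (e ^ 2 * S * ρ * L) ≤ (δ - K) * l) ∧ ((δ - K) * l ≤ 401 * (e ^ 2 * S * ρ * L)) ∧
    0 < R ∧ R ≤ 3085 * (e ^ 3 * ρ * S ^ 2 * κ ^ 2) := by
  have he0 : 0 < e := by linarith
  have hS0 : 0 < S := by linarith
  have hS1 : 0 ≤ S - 1 := by linarith
  have hρ0 : 0 < ρ := by linarith
  have hL0 : 0 < L := by linarith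
  have hκ0 : 0 < κ := by linarith
  have hM0 : 0 < M := lt_of_lt_of_le (by positivity) hM1
  have hm0 : 0 < e ^ 2 * S * ρ * κ := by positivity
  have hδ0 : 0 < δ := lt_of_lt_of_le (by positivity) hδ1
  have hK0 : 0 < K := by rw [hK]; positivity
  have hk0 : 0 < k := by rw [hk]; positivity
  have hKle : K ≤ 44 * (e * ρ) := by
    rw [hK]
    have : ρ * 1 ≤ ρ * e := mul_le_mul_of_nonneg_left he hρ0.le
    linarith
  have hee : e ≤ e ^ 2 := by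
    have : e * 1 ≤ e * e := mul_le_mul_of_nonneg_left he he0.le
    linarith
  -- `δ ≤ 6.69 ρ M`
  have hρM : 60 * (e ^ 2 * S * ρ * κ) ≤ ρ * M := by
    have h1 : ρ * (60 * (e ^ 2 * S * κ ^ 2)) ≤ ρ * M := mul_le_mul_of_nonneg_left hM1 hρ0.le
    have h2 : e ^ 2 * S * ρ * κ * 1 ≤ e ^ 2 * S * ρ * κ * κ :=
      mul_le_mul_of_nonneg_left hκ1 hm0.le
    have h3 : ρ * (60 * (e ^ 2 * S * κ ^ 2)) = 60 * (e ^ 2 * S * ρ * κ * κ) := by ring
    linarith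
  have hδM : δ ≤ 6.69 * (ρ * M) := by linarith
  have hρM0 : 0 < ρ * M := by positivity
  -- the unit `U`
  obtain ⟨U, hU⟩ : ∃ U : ℝ, U = ρ ^ 2 * M * L := ⟨_, rfl⟩
  have hU0 : 0 < U := by rw [hU]; positivity
  have hρL : 3.294 ≤ ρ * L := by
    have : 3 * 1.098 ≤ ρ * L := mul_le_mul hρ hL (by norm_num) hρ0.le
    linarith
  have hρMU : 3.294 * (ρ * M) ≤ U := by
    have : 3.294 * (ρ * M) ≤ ρ * L * (ρ * M) := mul_le_mul_of_nonneg_right hρL hρM0.le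
    have h2 : ρ * L * (ρ * M) = U := by rw [hU]; ring
    linarith
  -- (a)
  have ha : δ ^ 2 * L / 2 ≤ 1341 * (e ^ 2 * S * U) := by
    have h1 : δ ^ 2 ≤ (401 * (e ^ 2 * S * ρ * κ)) ^ 2 := pow_le_pow_left₀ hδ0.le hδ2 2
    have h2 : (e ^ 2 * S * ρ ^ 2) * (60 * (e ^ 2 * S * κ ^ 2)) ≤ (e ^ 2 * S * ρ ^ 2) * M :=
      mul_le_mul_of_nonneg_left hM1 (by positivity)
    have h3 : δ ^ 2 ≤ 2682 * (e ^ 2 * S * ρ ^ 2 * M) := by
      have h4 : (401 * (e ^ 2 * S * ρ * κ)) ^ 2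
          = (401 ^ 2 / 60) * ((e ^ 2 * S * ρ ^ 2) * (60 * (e ^ 2 * S * κ ^ 2))) := by ring
      have h5 : (401 ^ 2 / 60 : ℝ) * ((e ^ 2 * S * ρ ^ 2) * (60 * (e ^ 2 * S * κ ^ 2)))
          ≤ (401 ^ 2 / 60) * ((e ^ 2 * S * ρ ^ 2) * M) :=
        mul_le_mul_of_nonneg_left h2 (by norm_num)
      have h6 : (401 ^ 2 / 60 : ℝ) * ((e ^ 2 * S * ρ ^ 2) * M)
          ≤ 2682 * ((e ^ 2 * S * ρ ^ 2) * M) :=
        mul_le_mul_of_nonneg_right (by norm_num) (by positivity)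
      linarith
    have h7 : δ ^ 2 * L ≤ 2682 * (e ^ 2 * S * ρ ^ 2 * M) * L :=
      mul_le_mul_of_nonneg_right h3 hL0.le
    have h8 : 2682 * (e ^ 2 * S * ρ ^ 2 * M) * L = 2682 * (e ^ 2 * S * U) := by rw [hU]; ring
    linarith
  -- (b)
  have hb : (S - 1) * M * (K ^ 2 * L / 2) ≤ 968 * ((S - 1) * (e ^ 2 * U)) := by
    have h1 : K ^ 2 ≤ (44 * (e * ρ)) ^ 2 := pow_le_pow_left₀ hK0.le hKle 2
    have h2 : ((S - 1) * M * L / 2) * K ^ 2 ≤ ((S - 1) * M * L / 2) * (44 * (e * ρ)) ^ 2 :=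
      mul_le_mul_of_nonneg_left h1 (by positivity)
    have h3 : ((S - 1) * M * L / 2) * (44 * (e * ρ)) ^ 2 = 968 * ((S - 1) * (e ^ 2 * U)) := by
      rw [hU]; ring
    have h4 : (S - 1) * M * (K ^ 2 * L / 2) = ((S - 1) * M * L / 2) * K ^ 2 := by ring
    linarith
  -- (c)
  have hc : M * (k ^ 2 * L / 2) = 800 * (e ^ 2 * U) := by rw [hk, hU]; ring
  -- (d)
  have hd : M * (k * (3 * ρ * (2 * L + 1 + 8 * t))) ≤ 957 * (e * U) := by
    have h1 : 2 * L + 1 + 8 * t ≤ 7.97 * L := by linarith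
    have h2 : (120 * e * ρ ^ 2 * M) * (2 * L + 1 + 8 * t) ≤ (120 * e * ρ ^ 2 * M) * (7.97 * L) :=
      mul_le_mul_of_nonneg_left h1 (by positivity)
    have h3 : (120 * e * ρ ^ 2 * M) * (7.97 * L) = 956.4 * (e * U) := by rw [hU]; ring
    have h4 : M * (k * (3 * ρ * (2 * L + 1 + 8 * t)))
        = (120 * e * ρ ^ 2 * M) * (2 * L + 1 + 8 * t) := by rw [hk]; ring
    have h5 : 0 < e * U := by positivity
    linarith
  -- (e)
  have hRle : R ≤ 47 * (e * S * (ρ * M)) := by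
    have h1 : K * (S - 1) * M ≤ 44 * (e * ρ) * (S - 1) * M :=
      mul_le_mul_of_nonneg_right (mul_le_mul_of_nonneg_right hKle hS1) hM0.le
    have h2 : k * M = 40 * (e * (ρ * M)) := by rw [hk]; ring
    have h3 : 44 * (e * ρ) * (S - 1) * M = 44 * (e * S * (ρ * M)) - 44 * (e * (ρ * M)) := by ring
    have h4 : ρ * M ≤ e * (ρ * M) := by
      have := mul_le_mul_of_nonneg_right he hρM0.le
      linarith
    have h5 : e * (ρ * M) ≤ e * S * (ρ * M) := by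
      have : (e * (ρ * M)) * 1 ≤ (e * (ρ * M)) * S := mul_le_mul_of_nonneg_left hS (by positivity)
      linarith
    have h6 : 0 < e * (ρ * M) := by positivity
    linarith
  have hRU : 4 * R ≤ 58 * (e * (S * U)) := by
    have h1 : (e * S) * (3.294 * (ρ * M)) ≤ (e * S) * U :=
      mul_le_mul_of_nonneg_left hρMU (by positivity)
    have h2 : 0 < e * S * (ρ * M) := by positivity
    have h3 : e * (S * U) = e * S * U := by ring
    rw [h3]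
    linarith
  have hR0 : 0 < R := by
    rw [hR]
    have : 0 ≤ K * (S - 1) * M := by positivity
    have : 0 < k * M := by positivity
    linarith
  -- the costs
  have hcost : (δ + δ ^ 2 * L / 2 + (S - 1) * M * (K + K ^ 2 * L / 2) +
      M * (k + k ^ 2 * L / 2 + k * (3 * ρ * (2 * L + 1 + 8 * t)))) + 3 * R
      ≤ 3158 * (e ^ 2 * S * U) := by
    have h0 : (δ + δ ^ 2 * L / 2 + (S - 1) * M * (K + K ^ 2 * L / 2) +
      M * (k + k ^ 2 * L / 2 + k * (3 * ρ * (2 * L + 1 + 8 * t)))) + 3 * R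
      = δ ^ 2 * L / 2 + (S - 1) * M * (K ^ 2 * L / 2) + M * (k ^ 2 * L / 2)
        + M * (k * (3 * ρ * (2 * L + 1 + 8 * t))) + 4 * R := by
      rw [hR]; ring
    rw [h0]
    have h1 : e * U ≤ e ^ 2 * U := mul_le_mul_of_nonneg_right hee hU0.le
    have h2 : e * (S * U) ≤ e ^ 2 * S * U := by
      have : e * (S * U) ≤ e ^ 2 * (S * U) := mul_le_mul_of_nonneg_right hee (by positivity)
      have h3 : e ^ 2 * (S * U) = e ^ 2 * S * U := by ring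
      linarith
    have h4 : e ^ 2 * U ≤ e ^ 2 * S * U := by
      have : (e ^ 2 * U) * 1 ≤ (e ^ 2 * U) * S := mul_le_mul_of_nonneg_left hS (by positivity)
      have h3 : (e ^ 2 * U) * S = e ^ 2 * S * U := by ring
      linarith
    have h5 : (S - 1) * (e ^ 2 * U) = e ^ 2 * S * U - e ^ 2 * U := by ring
    rw [h5] at hb
    rw [hc]
    linarith
  -- (f)
  have hf1 : 356 * (e ^ 2 * S * ρ * L) ≤ (δ - K) * l := by
    have h1 : (400 * (e ^ 2 * S * ρ * κ) - 44 * (e * ρ)) * l ≤ (δ - K) * l :=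
      mul_le_mul_of_nonneg_right (by linarith) hl.le
    have h2 : (400 * (e ^ 2 * S * ρ * κ) - 44 * (e * ρ)) * l
        = 400 * (e ^ 2 * S * ρ * (κ * l)) - 44 * (e * ρ * l) := by ring
    rw [h2, hκ] at h1
    have h3 : e * ρ * l ≤ e ^ 2 * S * ρ * L := by
      have h4 : e * ρ * l ≤ e * ρ * L := mul_le_mul_of_nonneg_left hlL (by positivity)
      have h5 : e * (ρ * L) ≤ e ^ 2 * S * (ρ * L) := by
        apply mul_le_mul_of_nonneg_right _ (by positivity)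
        have : e ^ 2 * 1 ≤ e ^ 2 * S := mul_le_mul_of_nonneg_left hS (by positivity)
        linarith
      have h6 : e ^ 2 * S * (ρ * L) = e ^ 2 * S * ρ * L := by ring
      have h7 : e * (ρ * L) = e * ρ * L := by ring
      linarith
    linarith
  have hf3 : (δ - K) * l ≤ 401 * (e ^ 2 * S * ρ * L) := by
    have h1 : (δ - K) * l ≤ (401 * (e ^ 2 * S * ρ * κ)) * l :=
      mul_le_mul_of_nonneg_right (by linarith) hl.le
    have h2 : (401 * (e ^ 2 * S * ρ * κ)) * l = 401 * (e ^ 2 * S * ρ * (κ * l)) := by ring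
    rw [h2, hκ] at h1
    exact h1
  -- (g)
  have hg : 33 * (S * (ρ * M)) ≤ f * S * (M * k) - R := by
    have h1 : f * S * (M * k) = 40 * (e + 1) * (S * (ρ * M)) := by
      rw [hk, ← hfe]; ring
    have h2 : R = δ + (40 * e + 4) * ((S - 1) * (ρ * M)) + 40 * e * (ρ * M) := by
      rw [hR, hK, hk]; ring
    have h3 : ρ * M ≤ S * (ρ * M) := by
      have := mul_le_mul_of_nonneg_right hS hρM0.le
      linarith
    have h4 : 40 * (e + 1) * (S * (ρ * M)) - ((40 * e + 4) * ((S - 1) * (ρ * M))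
        + 40 * e * (ρ * M)) = 36 * (S * (ρ * M)) + 4 * (ρ * M) := by ring
    rw [h1, h2]
    linarith
  have hh : 11748 * (e ^ 2 * S ^ 2 * U) ≤ (δ - K) * l * (f * S * (M * k) - R) := by
    have h1 : 356 * (e ^ 2 * S * ρ * L) * (33 * (S * (ρ * M)))
        ≤ (δ - K) * l * (f * S * (M * k) - R) :=
      mul_le_mul hf1 hg (by positivity) (le_trans (by positivity) hf1)
    have h2 : 356 * (e ^ 2 * S * ρ * L) * (33 * (S * (ρ * M))) = 11748 * (e ^ 2 * S ^ 2 * U) := by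
      rw [hU]; ring
    linarith
  obtain ⟨E, hE⟩ : ∃ E : ℝ, E = M * (k * (δ - K) * l) -
      (δ + δ ^ 2 * L / 2 + (S - 1) * M * (K + K ^ 2 * L / 2) +
      M * (k + k ^ 2 * L / 2 + k * (3 * ρ * (2 * L + 1 + 8 * t)))) - 3 * R := ⟨_, rfl⟩
  have hE1 : M * (k * (δ - K) * l) - 3158 * (e ^ 2 * S * U) ≤ E := by
    rw [hE]; linarith
  have hE2 : (δ - K) * l * R + 5432 * (e ^ 2 * S ^ 2 * U) ≤ f * S * E := by
    have h1 : f * S * (M * (k * (δ - K) * l) - 3158 * (e ^ 2 * S * U)) ≤ f * S * E :=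
      mul_le_mul_of_nonneg_left hE1 (by positivity)
    have h2 : f * S * (M * (k * (δ - K) * l) - 3158 * (e ^ 2 * S * U))
        = (δ - K) * l * (f * S * (M * k) - R) + (δ - K) * l * R
          - 3158 * (f * (e ^ 2 * S ^ 2 * U)) := by ring
    have h3 : f * (e ^ 2 * S ^ 2 * U) ≤ 2 * (e ^ 2 * S ^ 2 * U) :=
      mul_le_mul_of_nonneg_right hf2 (by positivity)
    linarith
  rw [← hE]
  have hx : 0 < e ^ 2 * S ^ 2 * U := by positivity
  have ha0 : 0 < (δ - K) * l := lt_of_lt_of_le (by positivity) hf1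
  refine ⟨?_, by linarith, hf1, hf3, hR0, ?_⟩
  · have h1 : 0 < f * S * E := by
      have : 0 < (δ - K) * l * R := by positivity
      linarith
    exact (mul_pos_iff_of_pos_left (by positivity)).1 h1
  · have hV : e ^ 2 * S * ρ * κ ≤ e ^ 3 * ρ * S ^ 2 * κ ^ 2 := by
      have h1 : 1 ≤ e * S * κ := by
        have h2 : 1 * 1 ≤ e * S := mul_le_mul he hS (by norm_num) he0.le
        have h3 : 1 * 1 ≤ e * S * κ := mul_le_mul (by linarith) hκ1 (by norm_num) (by positivity)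
        linarith
      have h2 : e ^ 2 * S * ρ * κ * 1 ≤ e ^ 2 * S * ρ * κ * (e * S * κ) :=
        mul_le_mul_of_nonneg_left h1 hm0.le
      have h3 : e ^ 2 * S * ρ * κ * (e * S * κ) = e ^ 3 * ρ * S ^ 2 * κ ^ 2 := by ring
      linarith
    have h1 : K * (S - 1) * M + k * M ≤ 2684 * (e ^ 3 * ρ * S ^ 2 * κ ^ 2) := by
      have h2 : K * (S - 1) * M ≤ 44 * (e * ρ) * (S - 1) * M :=
        mul_le_mul_of_nonneg_right (mul_le_mul_of_nonneg_right hKle hS1) hM0.le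
      have h3 : k * M ≤ 44 * (e * ρ) * M := by
        apply mul_le_mul_of_nonneg_right _ hM0.le
        rw [hk]
        have : 0 < e * ρ := by positivity
        linarith
      have h4 : 44 * (e * ρ * S) * M ≤ 44 * (e * ρ * S) * (61 * (e ^ 2 * S * κ ^ 2)) :=
        mul_le_mul_of_nonneg_left hM2 (by positivity)
      have h5 : 44 * (e * ρ) * (S - 1) * M + 44 * (e * ρ) * M = 44 * (e * ρ * S) * M := by ring
      have h6 : 44 * (e * ρ * S) * (61 * (e ^ 2 * S * κ ^ 2))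
          = 2684 * (e ^ 3 * ρ * S ^ 2 * κ ^ 2) := by ring
      linarith
    rw [hR]
    linarith

theorem parA {q s r e M m : ℕ} (hr : 1 ≤ r) (hrq : 2 * r + 1 ≤ q) (he : 1 ≤ e)
    (hM1 : 60 * (e : ℝ) ^ 2 * ((s : ℝ) + 1) * (Real.log q / Real.log (2 * r + 1)) ^ 2 ≤ M)
    (hM2 : (M : ℝ) ≤ 61 * (e : ℝ) ^ 2 * ((s : ℝ) + 1) * (Real.log q / Real.log (2 * r + 1)) ^ 2)
    (hm : 6200 * (e : ℝ) ^ 3 * (2 * r + 1) * ((s : ℝ) + 1) ^ 2 *
      (Real.log q / Real.log (2 * r + 1)) ^ 2 ≤ m) :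
    ∃ δ k K n₀ : ℕ, AdmQ q s r M m δ k K n₀ ((1 + 1 / (e : ℝ)) * ((s : ℝ) + 1))
      (100000 * (e : ℝ) ^ 4 * ((s : ℝ) + 1) ^ 3 * (2 * r + 1) *
        (Real.log q / Real.log (2 * r + 1)) ^ 2 * Real.log q) := by
  have he' : (1 : ℝ) ≤ e := by exact_mod_cast he
  have hr' : (1 : ℝ) ≤ r := by exact_mod_cast hr
  have hq' : 2 * (r : ℝ) + 1 ≤ q := by exact_mod_cast hrq
  obtain ⟨ρ, hρdef⟩ : ∃ ρ : ℝ, ρ = 2 * (r : ℝ) + 1 := ⟨_, rfl⟩
  obtain ⟨L, hLdef⟩ : ∃ L : ℝ, L = Real.log q := ⟨_, rfl⟩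
  obtain ⟨l, hldef⟩ : ∃ l : ℝ, l = Real.log (2 * (r : ℝ) + 1) := ⟨_, rfl⟩
  obtain ⟨S, hSdef⟩ : ∃ S : ℝ, S = (s : ℝ) + 1 := ⟨_, rfl⟩
  obtain ⟨ε, hεdef⟩ : ∃ ε : ℝ, ε = (e : ℝ) := ⟨_, rfl⟩
  rw [← hSdef, ← hLdef, ← hldef, ← hεdef] at hM1 hM2 hm ⊢
  rw [← hρdef] at hm hq' ⊢
  rw [← hεdef] at he'
  have hρ3 : 3 ≤ ρ := by rw [hρdef]; linarith
  have hS1 : 1 ≤ S := by
    rw [hSdef]
    have : (0 : ℝ) ≤ s := Nat.cast_nonneg s
    linarith
  have h3 : (1.098 : ℝ) ≤ Real.log 3 := by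
    rw [Real.le_log_iff_exp_le (by norm_num)]
    have h1 : Real.exp 1.098 = Real.exp 1 * Real.exp 0.098 := by
      rw [← Real.exp_add]; norm_num
    have h2 : Real.exp (0.098 : ℝ) ≤ 1.103 := by
      have := Real.exp_bound' (x := 0.098) (by norm_num) (by norm_num) (n := 4) (by norm_num)
      refine this.trans ?_
      norm_num [Finset.sum_range_succ, Nat.factorial]
    rw [h1]
    have h4 := Real.exp_one_lt_d9
    have h5 := Real.exp_pos (0.098 : ℝ)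
    nlinarith
  have hl3 : 1.098 ≤ l := by
    refine h3.trans ?_
    rw [hldef, ← hρdef]
    exact Real.log_le_log (by norm_num) hρ3
  have hl0 : 0 < l := by linarith
  have hlL : l ≤ L := by
    rw [hldef, hLdef, ← hρdef]
    exact Real.log_le_log (by linarith) hq'
  have hL : 1.098 ≤ L := hl3.trans hlL
  obtain ⟨κ, hκdef⟩ : ∃ κ : ℝ, κ = L / l := ⟨_, rfl⟩
  rw [← hκdef] at hM1 hM2 hm ⊢
  have hκl : κ * l = L := by rw [hκdef]; field_simp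
  have hκ1 : 1 ≤ κ := by rw [hκdef, le_div_iff₀ hl0]; linarith
  have hε0 : 0 < ε := by linarith
  have hS0 : 0 < S := by linarith
  have hρ0 : 0 < ρ := by linarith
  have hκ0 : 0 < κ := by linarith
  have hL0 : 0 < L := by linarith
  have hM1' : 60 * (ε ^ 2 * S * κ ^ 2) ≤ M := by
    have : 60 * ε ^ 2 * S * κ ^ 2 = 60 * (ε ^ 2 * S * κ ^ 2) := by ring
    linarith
  have hM2' : (M : ℝ) ≤ 61 * (ε ^ 2 * S * κ ^ 2) := by
    have : 61 * ε ^ 2 * S * κ ^ 2 = 61 * (ε ^ 2 * S * κ ^ 2) := by ring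
    linarith
  obtain ⟨X, hX⟩ : ∃ X : ℝ, X = ε ^ 2 * S * ρ * κ := ⟨_, rfl⟩
  have hεS : 1 ≤ ε ^ 2 * S := by
    have h1 : (1 : ℝ) ≤ ε ^ 2 := one_le_pow₀ he'
    have : 1 * 1 ≤ ε ^ 2 * S := mul_le_mul h1 hS1 (by norm_num) (by positivity)
    linarith
  have hXρ : ρ ≤ X := by
    have h1 : 1 * 1 ≤ ε ^ 2 * S * κ := mul_le_mul hεS hκ1 (by norm_num) (by positivity)
    have h2 : (1 * 1) * ρ ≤ ε ^ 2 * S * κ * ρ := mul_le_mul_of_nonneg_right h1 hρ0.le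
    rw [hX]
    linarith
  have hX0 : (0 : ℝ) ≤ 400 * X := by linarith
  have hδ1 := Nat.le_ceil (400 * X)
  have hδ2 := (Nat.ceil_lt_add_one hX0).le
  obtain ⟨δ, hδdef⟩ : ∃ δ : ℕ, δ = ⌈400 * X⌉₊ := ⟨_, rfl⟩
  rw [← hδdef] at hδ1 hδ2
  have hδ3 : (δ : ℝ) ≤ 401 * X := by linarith
  rw [hX] at hδ1 hδ3
  obtain ⟨f, hf⟩ : ∃ f : ℝ, f = 1 + 1 / ε := ⟨_, rfl⟩
  have hfe : f * ε = ε + 1 := by rw [hf]; field_simp
  have hf0 : 0 < f := by rw [hf]; positivity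
  have hf2 : f ≤ 2 := by
    rw [hf]
    have : 1 / ε ≤ 1 := by rw [div_le_one hε0]; exact he'
    linarith
  obtain ⟨k, hk⟩ : ∃ k : ℕ, k = 40 * e * (2 * r + 1) := ⟨_, rfl⟩
  obtain ⟨K, hK⟩ : ∃ K : ℕ, K = (40 * e + 4) * (2 * r + 1) := ⟨_, rfl⟩
  have hk' : (k : ℝ) = 40 * ε * ρ := by
    rw [hk, hεdef, hρdef]; push_cast; ring
  have hK' : (K : ℝ) = (40 * ε + 4) * ρ := by
    rw [hK, hεdef, hρdef]; push_cast; ring
  have hlog2 : Real.log 2 ≤ 0.6931471808 := by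
    have := Real.log_two_lt_d9; linarith
  have hlog0 : 0 ≤ Real.log 2 := Real.log_nonneg (by norm_num)
  have hR1 : R1 s δ M k K = (δ : ℝ) + K * (S - 1) * M + k * M := by
    unfold R1
    rw [hSdef]; ring
  obtain ⟨R, hR⟩ : ∃ R : ℝ, R = (δ : ℝ) + K * (S - 1) * M + k * M := ⟨_, rfl⟩
  rw [← hR] at hR1
  have key := parA_real (f := f) he' hS1 hρ3 hL hl0 hlL hκl hκ1 hM1' hM2' hδ1 hδ3 hlog2 hlog0
    hfe hf0 hf2 hk' hK' hR
  obtain ⟨E, hE⟩ : ∃ E : ℝ, E = M * (k * (δ - K) * l) -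
      (δ + (δ : ℝ) ^ 2 * L / 2 + (S - 1) * M * (K + (K : ℝ) ^ 2 * L / 2) +
      M * (k + (k : ℝ) ^ 2 * L / 2 + k * (3 * ρ * (2 * L + 1 + 8 * Real.log 2)))) - 3 * R :=
    ⟨_, rfl⟩
  rw [← hE] at key
  have hEg : Egain q s r δ M k K - 3 * R1 s δ M k K = E := by
    rw [hR1, hE]
    unfold Egain
    rw [← hLdef, ← hldef, ← hρdef, hSdef]
    ring
  obtain ⟨k1, k2, k3, k4, k5, k6⟩ := key
  -- the size of `V`
  obtain ⟨V, hV⟩ : ∃ V : ℝ, V = ε ^ 3 * ρ * S ^ 2 * κ ^ 2 := ⟨_, rfl⟩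
  have hXV : X ≤ V := by
    have h1 : 1 ≤ ε * S * κ := by
      have h2 : 1 * 1 ≤ ε * S := mul_le_mul he' hS1 (by norm_num) hε0.le
      have h3 : 1 * 1 ≤ ε * S * κ := mul_le_mul (by linarith) hκ1 (by norm_num) (by positivity)
      linarith
    have h2 : X * 1 ≤ X * (ε * S * κ) := mul_le_mul_of_nonneg_left h1 (by linarith)
    have h3 : X * (ε * S * κ) = V := by rw [hX, hV]; ring
    linarith
  have hV3 : 3 ≤ V := by linarith
  rw [← hV] at k6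
  rw [← hX] at hδ1 hδ3
  have hMpos : (0 : ℝ) < M := lt_of_lt_of_le (by positivity) hM1'
  have hδpos : (0 : ℝ) < δ := by linarith
  refine ⟨δ, k, K, 4 * M * (s + 1), ?_⟩
  refine ⟨hr, ?_, ?_, ?_, ?_, ?_, le_rfl, ?_, ?_, ?_, ?_⟩
  · exact_mod_cast hMpos
  · have : 0 < 40 * e * (2 * r + 1) := by positivity
    omega
  · rw [hk, hK]
    have h1 : (40 * e + 4) * (2 * r + 1) = 40 * e * (2 * r + 1) + 4 * (2 * r + 1) := by ring
    rw [h1]
    omega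
  · have h1 : (K : ℝ) < δ := by
      rw [hK']
      have h2 : ε * ρ ≤ X := by
        have h4 : ε * 1 ≤ ε * (ε * S * κ) := by
          apply mul_le_mul_of_nonneg_left _ hε0.le
          have h2 : 1 * 1 ≤ ε * S := mul_le_mul he' hS1 (by norm_num) hε0.le
          have h3 : 1 * 1 ≤ ε * S * κ :=
            mul_le_mul (by linarith) hκ1 (by norm_num) (by positivity)
          linarith
        have h5 : (ε * 1) * ρ ≤ (ε * (ε * S * κ)) * ρ := mul_le_mul_of_nonneg_right h4 hρ0.le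
        have h6 : (ε * (ε * S * κ)) * ρ = X := by rw [hX]; ring
        linarith
      have h3 : (40 * ε + 4) * ρ = 40 * (ε * ρ) + 4 * ρ := by ring
      rw [h3]
      linarith
    exact_mod_cast h1
  · have h1 : ((2 * (δ + K * (M * (s + 1))) : ℕ) : ℝ) ≤ m := by
      push_cast
      rw [← hSdef]
      have h2 : (K : ℝ) * (M * S) ≤ 2684 * V := by
        have h3 : (K : ℝ) ≤ 44 * (ε * ρ) := by
          rw [hK']
          have : ρ * 1 ≤ ρ * ε := mul_le_mul_of_nonneg_left he' hρ0.le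
          linarith
        have h4 : (M : ℝ) * S ≤ 61 * (ε ^ 2 * S * κ ^ 2) * S :=
          mul_le_mul_of_nonneg_right hM2' hS0.le
        have h5 : (K : ℝ) * (M * S) ≤ 44 * (ε * ρ) * (61 * (ε ^ 2 * S * κ ^ 2) * S) :=
          mul_le_mul h3 h4 (by positivity) (by positivity)
        have h6 : 44 * (ε * ρ) * (61 * (ε ^ 2 * S * κ ^ 2) * S) = 2684 * V := by rw [hV]; ring
        linarith
      have h7 : 6200 * ε ^ 3 * ρ * S ^ 2 * κ ^ 2 = 6200 * V := by rw [hV]; ring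
      rw [h7] at hm
      linarith
    exact_mod_cast h1
  · rw [hEg]; exact k1
  · rw [hEg, hR1, ← hldef, ← hf]; exact k2
  · rw [hEg, hR1, ← hLdef]
    push_cast
    rw [← hSdef]
    have h1 : Real.log R ≤ R := Real.log_le_self k5.le
    have h2 : Real.log δ ≤ δ := Real.log_le_self hδpos.le
    have h3 : Real.log R + 2 * Real.log δ + 9 * L + 28 < 42720 * (V * L) := by
      have h4 : V * 1.098 ≤ V * L := mul_le_mul_of_nonneg_left hL (by linarith)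
      have h5 : 3 * L ≤ V * L := mul_le_mul_of_nonneg_right hV3 hL0.le
      linarith
    have h6 : 42720 * (V * L) ≤ 42720 * (ε * (V * L)) := by
      have h7 : 1 * (V * L) ≤ ε * (V * L) := mul_le_mul_of_nonneg_right he' (by positivity)
      linarith
    have h8 : R * (Real.log R + 2 * Real.log δ + 9 * L + 28) < R * (42720 * (ε * (V * L))) :=
      mul_lt_mul_of_pos_left (by linarith) k5
    refine lt_of_lt_of_le h8 ?_
    have h9 : (δ - K) * l * R ≤ 2 * S * E := by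
      refine k2.trans ?_
      have : f * (S * E) ≤ 2 * (S * E) := mul_le_mul_of_nonneg_right hf2 (by positivity)
      linarith
    have h10 : 356 * (ε ^ 2 * S * ρ * L) * R ≤ (δ - K) * l * R :=
      mul_le_mul_of_nonneg_right k3 k5.le
    have h11 : (356 * (ε ^ 2 * S * ρ * L) * R) * (2 * (60 * (ε ^ 2 * S * κ ^ 2)))
        ≤ (2 * S * E) * (2 * M) :=
      mul_le_mul (h10.trans h9) (by linarith) (by positivity) (by positivity)
    have h12 : (356 * (ε ^ 2 * S * ρ * L) * R) * (2 * (60 * (ε ^ 2 * S * κ ^ 2)))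
        = R * (42720 * (ε * (V * L))) := by rw [hV]; ring
    have h13 : (2 * S * E) * (2 * M) = E * (4 * M * S) := by ring
    linarith
  · rw [← hldef]
    push_cast
    rw [← hSdef]
    have h1 : 4 * (M : ℝ) * S + 1 ≤ 245 * (ε ^ 2 * S ^ 2 * κ ^ 2) := by
      have h2 : (M : ℝ) * S ≤ 61 * (ε ^ 2 * S * κ ^ 2) * S :=
        mul_le_mul_of_nonneg_right hM2' hS0.le
      have h3 : 61 * (ε ^ 2 * S * κ ^ 2) * S = 61 * (ε ^ 2 * S ^ 2 * κ ^ 2) := by ring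
      have h4 : 1 ≤ ε ^ 2 * S ^ 2 * κ ^ 2 := by
        have h5 : (1 : ℝ) ≤ κ ^ 2 := one_le_pow₀ hκ1
        have h6 : 1 * 1 ≤ (ε ^ 2 * S) * S := mul_le_mul hεS hS1 (by norm_num) (by positivity)
        have h7 : (1 * 1) * 1 ≤ ((ε ^ 2 * S) * S) * κ ^ 2 :=
          mul_le_mul h6 h5 (by norm_num) (by positivity)
        have h8 : ((ε ^ 2 * S) * S) * κ ^ 2 = ε ^ 2 * S ^ 2 * κ ^ 2 := by ring
        linarith
      linarith
    have h9 : (δ - K) * l * (4 * M * S + 1)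
        ≤ 401 * (ε ^ 2 * S * ρ * L) * (245 * (ε ^ 2 * S ^ 2 * κ ^ 2)) :=
      mul_le_mul k4 h1 (by positivity) (by positivity)
    refine h9.trans ?_
    have h10 : 401 * (ε ^ 2 * S * ρ * L) * (245 * (ε ^ 2 * S ^ 2 * κ ^ 2))
        = 98245 * (ε ^ 4 * S ^ 3 * ρ * κ ^ 2 * L) := by ring
    have h11 : 100000 * ε ^ 4 * S ^ 3 * ρ * κ ^ 2 * L
        = 100000 * (ε ^ 4 * S ^ 3 * ρ * κ ^ 2 * L) := by ring
    rw [h10, h11]
    exact mul_le_mul_of_nonneg_right (by norm_num) (by positivity)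

end HZ10
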