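import Pool.Agent.LibHZ10.Defs

/-!
# Row HZ10 PARb: parameters with exponent `3.4 (s + 1)` (MEDIUM, real inequalities, ONLY MATHLIB)

Template: `LibHZ8/PAR.lean`.  Put `S = s + 1`, `ρ = 2 r + 1 ≥ 3`, `L = log q ≥ 100`, `λ = log ρ`, `κ = L / λ ≥ 3/2`, so `L = κ λ`.
Choose `k = 40 ρ`, `K = 44 ρ`, `δ = ⌈130 S ρ κ⌉₊` (so `δ ≤ 130.5 S ρ κ`), `n₀ = 4 M S`.
`a = (δ - K) λ ≥ ρ L (130 S - 44 / κ) ≥ ρ L (130 S - 29.34)`.
Bounds, in units of `ρ² M L` (use `δ ≤ 20.08 ρ M / κ ≤ 13.4 ρ M`, from `M ≥ 6.5 S κ²`; `8 log 2 ≤ 5.5452`; `L ≥ 100`):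
`δ² L / 2 ≤ 1311 S`; `s M K² L / 2 = 968 (S - 1)`; `M k² L / 2 = 800`; `M k 3 ρ (2 L + 1 + 8 log 2) ≤ 248`;
`δ + s M K + M k + 3 R₁ ≤ (176 S + 94) ρ M ≤ S ρ² M L`.
`R₁ = δ + K s M + k M`, `3.4 S k M - R₁ = ρ M (136 S - 44 (S - 1) - 40) - δ ≥ ρ M (92 S - 9.4)`.
hF: `3.4 S (E - 3 R₁) - a R₁ = a (3.4 S k M - R₁) - 3.4 S (costs + 3 R₁)`; in units of `ρ² M L`:
`(130 S - 29.34) (92 S - 9.4) - 3.4 S (1311 S + 968 (S - 1) + 800 + 248 + S)`: for `S = 1`: `8314 - 8024 > 0`;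
as a polynomial: `11960 S² - 3921.3 S + 275 - 7752 S² - 271.9 S = 4208 S² - 4193.2 S + 275 > 0` for `S ≥ 1`.
hE: from hF (`a R₁ > 0`).  hbig: by hF `E - 3 R₁ ≥ a R₁ / (3.4 S) ≥ 29 ρ L R₁`, `n₀ = 4 M S ≥ 26 S² κ²`,
`log R₁ ≤ R₁ ≤ 402 ρ S² κ²`, `log δ ≤ δ` (`Real.log_le_self`): the bracket is `< 754 ρ S² κ² L`.
hA: `a (n₀ + 1) ≤ 130.5 S ρ L (28 S² κ² + 1) ≤ 130.5 * 28.45 S³ ρ κ² L`.
hm: `2 (δ + K M S) ≤ 2 (130.5 / 1.5 + 44 * 7) ρ S² κ² = 790 ρ S² κ²`.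
-/

namespace HZ10

/-- basic bounds for `δ` -/
theorem parB_delta {p c S M δ : ℝ} (hp : 3 ≤ p) (hc1 : 3 / 2 ≤ c) (hS : 1 ≤ S)
    (hM1 : 6.5 * S * c ^ 2 ≤ M) (hδ1 : 130 * (S * p * c) ≤ δ) (hδ2 : δ ≤ 130 * (S * p * c) + 1) :
    0 < δ ∧ 9.75 ≤ M ∧ 4.5 ≤ S * p * c ∧ δ ≤ 130.23 * (S * p * c) ∧ δ ≤ 13.4 * (p * M) ∧
      δ ^ 2 ≤ 2610 * (S * (p ^ 2 * M)) := by
  have hp0 : 0 < p := by linarith
  have hc0 : 0 < c := by linarith
  have hS0 : 0 < S := by linarith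
  have hSp : 3 ≤ S * p := by nlinarith
  have hX : 4.5 ≤ S * p * c := by nlinarith
  have hδ0 : 0 < δ := by linarith
  have hδ3 : δ ≤ 130.23 * (S * p * c) := by linarith
  have hM2 : 9.75 * (S * c) ≤ M := by
    have : 0 ≤ S * c * (c - 3 / 2) := by
      have : 0 ≤ c - 3 / 2 := by linarith
      positivity
    nlinarith
  have hSc : 3 / 2 ≤ S * c := by nlinarith
  have hM0 : 9.75 ≤ M := by linarith
  have hδM : δ ≤ 13.4 * (p * M) := by
    have : p * (9.75 * (S * c)) ≤ p * M := mul_le_mul_of_nonneg_left hM2 hp0.le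
    nlinarith
  refine ⟨hδ0, hM0, hX, hδ3, hδM, ?_⟩
  have h1 : δ ^ 2 ≤ (130.23 * (S * p * c)) ^ 2 := pow_le_pow_left₀ hδ0.le hδ3 2
  have h2 : S * p ^ 2 * (6.5 * S * c ^ 2) ≤ S * p ^ 2 * M :=
    mul_le_mul_of_nonneg_left hM1 (by positivity)
  nlinarith

/-- the number of rows -/
theorem parB_rows {p S M δ : ℝ} (hp : 3 ≤ p) (hS : 1 ≤ S) (hM0 : 9.75 ≤ M)
    (hδM : δ ≤ 13.4 * (p * M)) :
    δ + 44 * p * (S - 1) * M + 40 * p * M ≤ 53.4 * (S * (p * M)) := by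
  have h1 : 0 ≤ (S - 1) * (p * M) := by
    have : 0 ≤ S - 1 := by linarith
    positivity
  nlinarith

theorem parB_pos_of_mul {a b : ℝ} (h : 0 < a * b) (ha : 0 ≤ a) : 0 < b := by
  rcases lt_or_ge 0 b with h1 | h1
  · exact h1
  · exact absurd (mul_nonpos_of_nonneg_of_nonpos ha h1) (not_le.mpr h)

theorem parB_poly {S : ℝ} (hS : 1 ≤ S) : 0 ≤ (130 * S - 29.34) * (92 * S - 9.4) -
    3.4 * S * (1305 * S + 968 * (S - 1) + 1048 + S) := by
  have e : (130 * S - 29.34) * (92 * S - 9.4) -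
      3.4 * S * (1305 * S + 968 * (S - 1) + 1048 + S) =
      4228.4 * (S * (S - 1)) + 35.12 * (S - 1) + 310.916 := by ring
  have h0 : 0 ≤ S - 1 := by linarith
  have h1 : 0 ≤ S * (S - 1) := mul_nonneg (by linarith) h0
  rw [e]
  positivity

/-- the main inequality -/
theorem parB_main {p L l c S M δ t : ℝ} (hp : 3 ≤ p) (hL : 100 ≤ L) (hl : 0 < l)
    (hc : c * l = L) (hc1 : 3 / 2 ≤ c) (hS : 1 ≤ S)
    (hM1 : 6.5 * S * c ^ 2 ≤ M) (hδ1 : 130 * (S * p * c) ≤ δ) (hδ2 : δ ≤ 130 * (S * p * c) + 1)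
    (ht : t ≤ 0.6931471808) :
    (δ - 44 * p) * l * (δ + 44 * p * (S - 1) * M + 40 * p * M) ≤
    3.4 * S * (M * (40 * p * (δ - 44 * p) * l) -
      (δ + δ ^ 2 * L / 2 + (S - 1) * M * (44 * p + (44 * p) ^ 2 * L / 2) +
      M * (40 * p + (40 * p) ^ 2 * L / 2 +
        40 * p * (3 * p * (2 * L + 1 + 8 * t)))) -
      3 * (δ + 44 * p * (S - 1) * M + 40 * p * M)) := by
  obtain ⟨hδ0, hM0, hX, hδ3, hδM, hδsq⟩ := parB_delta hp hc1 hS hM1 hδ1 hδ2
  have hR := parB_rows hp hS hM0 hδM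
  have hp0 : 0 < p := by linarith
  have hL0 : 0 < L := by linarith
  have hc0 : 0 < c := by linarith
  have hS0 : 0 < S := by linarith
  have hM00 : 0 < M := by linarith
  obtain ⟨U, hU⟩ : ∃ U : ℝ, U = p ^ 2 * M * L := ⟨_, rfl⟩
  have hU0 : 0 < U := by rw [hU]; positivity
  -- costs
  have c1 : δ ^ 2 * L / 2 ≤ 1305 * (S * U) := by
    have := mul_le_mul_of_nonneg_right hδsq hL0.le
    rw [hU]
    nlinarith
  have c2 : (S - 1) * M * ((44 * p) ^ 2 * L / 2) = 968 * ((S - 1) * U) := by rw [hU]; ring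
  have c3 : M * ((40 * p) ^ 2 * L / 2) = 800 * U := by rw [hU]; ring
  have c4 : M * (40 * p * (3 * p * (2 * L + 1 + 8 * t))) ≤ 248 * U := by
    have h1 : 2 * L + 1 + 8 * t ≤ 2.0655 * L := by linarith
    have h2 : 120 * (p ^ 2 * M) * (2 * L + 1 + 8 * t) ≤ 120 * (p ^ 2 * M) * (2.0655 * L) :=
      mul_le_mul_of_nonneg_left h1 (by positivity)
    rw [hU]
    have h3 : 0 < p ^ 2 * M * L := by positivity
    nlinarith
  have c5 : 4 * (δ + 44 * p * (S - 1) * M + 40 * p * M) ≤ S * U := by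
    have h1 : 300 ≤ p * L := by nlinarith
    have h2 : S * (p * M) * 300 ≤ S * (p * M) * (p * L) :=
      mul_le_mul_of_nonneg_left h1 (by positivity)
    have h3 : 0 < S * (p * M) := by positivity
    rw [hU]
    nlinarith
  have hcost : (δ + δ ^ 2 * L / 2 + (S - 1) * M * (44 * p + (44 * p) ^ 2 * L / 2) +
      M * (40 * p + (40 * p) ^ 2 * L / 2 +
        40 * p * (3 * p * (2 * L + 1 + 8 * t)))) +
      3 * (δ + 44 * p * (S - 1) * M + 40 * p * M) ≤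
      (1305 * S + 968 * (S - 1) + 1048 + S) * U := by
    have e : (δ + δ ^ 2 * L / 2 + (S - 1) * M * (44 * p + (44 * p) ^ 2 * L / 2) +
      M * (40 * p + (40 * p) ^ 2 * L / 2 +
        40 * p * (3 * p * (2 * L + 1 + 8 * t)))) +
      3 * (δ + 44 * p * (S - 1) * M + 40 * p * M) =
      δ ^ 2 * L / 2 + (S - 1) * M * ((44 * p) ^ 2 * L / 2) + M * ((40 * p) ^ 2 * L / 2) +
      M * (40 * p * (3 * p * (2 * L + 1 + 8 * t))) +
      4 * (δ + 44 * p * (S - 1) * M + 40 * p * M) := by ring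
    rw [e, c2, c3]
    linarith
  -- the gain
  have hpL0 : 0 < p * L := by positivity
  have ha : p * L * (130 * S - 29.34) ≤ (δ - 44 * p) * l := by
    have h1 : 130 * (S * p * c) * l ≤ δ * l := mul_le_mul_of_nonneg_right hδ1 hl.le
    have h2 : 130 * (S * p * c) * l = 130 * (S * (p * L)) := by rw [← hc]; ring
    have h3 : 3 / 2 * l ≤ L := by
      rw [← hc]
      exact mul_le_mul_of_nonneg_right hc1 hl.le
    have h4 : p * (3 / 2 * l) ≤ p * L := mul_le_mul_of_nonneg_left h3 hp0.le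
    nlinarith
  have hb : p * M * (92 * S - 9.4) ≤
      3.4 * S * (40 * p * M) - (δ + 44 * p * (S - 1) * M + 40 * p * M) := by
    have : 0 < p * M := by positivity
    nlinarith
  have hab : p * L * (130 * S - 29.34) * (p * M * (92 * S - 9.4)) ≤
      (δ - 44 * p) * l *
        (3.4 * S * (40 * p * M) - (δ + 44 * p * (S - 1) * M + 40 * p * M)) := by
    refine mul_le_mul ha hb ?_ ?_
    · have : 0 ≤ 92 * S - 9.4 := by linarith
      positivity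
    · refine le_trans ?_ ha
      have : 0 ≤ 130 * S - 29.34 := by linarith
      positivity
  have hab2 : p * L * (130 * S - 29.34) * (p * M * (92 * S - 9.4)) =
      (130 * S - 29.34) * (92 * S - 9.4) * U := by rw [hU]; ring
  have hcost3 := mul_le_mul_of_nonneg_left hcost (show 0 ≤ 3.4 * S by positivity)
  have hpoly : 0 ≤ ((130 * S - 29.34) * (92 * S - 9.4) -
      3.4 * S * (1305 * S + 968 * (S - 1) + 1048 + S)) * U := by
    exact mul_nonneg (parB_poly hS) hU0.le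
  have e1 : ((130 * S - 29.34) * (92 * S - 9.4) -
      3.4 * S * (1305 * S + 968 * (S - 1) + 1048 + S)) * U =
      (130 * S - 29.34) * (92 * S - 9.4) * U -
      3.4 * S * ((1305 * S + 968 * (S - 1) + 1048 + S) * U) := by ring
  rw [e1] at hpoly
  rw [hab2] at hab
  clear hab2 e1 c1 c2 c3 c4 c5 hcost ha hb hR hδsq hδM hδ3 hX hM1 hδ1 hδ2
  generalize (δ + δ ^ 2 * L / 2 + (S - 1) * M * (44 * p + (44 * p) ^ 2 * L / 2) +
      M * (40 * p + (40 * p) ^ 2 * L / 2 +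
        40 * p * (3 * p * (2 * L + 1 + 8 * t)))) = C at hcost3 ⊢
  generalize (δ + 44 * p * (S - 1) * M + 40 * p * M) = R at hab hcost3 ⊢
  have e2 : 3.4 * S * (M * (40 * p * (δ - 44 * p) * l) - C - 3 * R) =
      (δ - 44 * p) * l * (3.4 * S * (40 * p * M) - R) + (δ - 44 * p) * l * R -
      3.4 * S * (C + 3 * R) := by ring
  rw [e2]
  linarith

theorem parB_a {p L l c S δ : ℝ} (hp : 3 ≤ p) (hL : 100 ≤ L) (hl : 0 < l)
    (hc : c * l = L) (hc1 : 3 / 2 ≤ c) (hS : 1 ≤ S) (hδ1 : 130 * (S * p * c) ≤ δ) :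
    p * L * (100.66 * S) ≤ (δ - 44 * p) * l := by
  have hp0 : 0 < p := by linarith
  have hpL0 : 0 < p * L := by positivity
  have h1 : 130 * (S * p * c) * l ≤ δ * l := mul_le_mul_of_nonneg_right hδ1 hl.le
  have h2 : 130 * (S * p * c) * l = 130 * (S * (p * L)) := by rw [← hc]; ring
  have h3 : 3 / 2 * l ≤ L := by
    rw [← hc]
    exact mul_le_mul_of_nonneg_right hc1 hl.le
  have h4 : p * (3 / 2 * l) ≤ p * L := mul_le_mul_of_nonneg_left h3 hp0.le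
  have h5 : 0 ≤ (S - 1) * (p * L) := by
    have : 0 ≤ S - 1 := by linarith
    positivity
  have e : (δ - 44 * p) * l = δ * l - 44 * (p * l) := by ring
  rw [e]
  linarith

theorem parB_K {p c S δ : ℝ} (hp : 3 ≤ p) (hc1 : 3 / 2 ≤ c) (hS : 1 ≤ S)
    (hδ1 : 130 * (S * p * c) ≤ δ) : 44 * p < δ := by
  have hp0 : 0 < p := by linarith
  have h1 : 3 / 2 * p ≤ c * p := mul_le_mul_of_nonneg_right hc1 hp0.le
  have h2 : 0 ≤ (S - 1) * (c * p) := by
    have : 0 ≤ S - 1 := by linarith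
    positivity
  have e : S * p * c = (S - 1) * (c * p) + c * p := by ring
  rw [e] at hδ1
  linarith

theorem parB_Y {p c S : ℝ} (hp : 3 ≤ p) (hc1 : 3 / 2 ≤ c) (hS : 1 ≤ S) :
    S * p * c * 1.5 ≤ p * (S * S) * c ^ 2 ∧ 1.5 ≤ S * c ∧ 4.5 ≤ p * (S * S) * c ^ 2 := by
  have hp0 : 0 < p := by linarith
  have hc0 : 0 < c := by linarith
  have hS0 : 0 < S := by linarith
  have hSc : 1.5 ≤ S * c := by nlinarith
  have h2 : S * p * c * 1.5 ≤ S * p * c * (S * c) :=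
    mul_le_mul_of_nonneg_left hSc (by positivity)
  have e : S * p * c * (S * c) = p * (S * S) * c ^ 2 := by ring
  rw [e] at h2
  refine ⟨h2, hSc, ?_⟩
  have h3 : 3 * 1.5 ≤ p * (S * c) := mul_le_mul hp hSc (by norm_num) hp0.le
  have e2 : S * p * c = p * (S * c) := by ring
  rw [e2] at h2
  linarith

theorem parB_m {p c S M δ : ℝ} (hp : 3 ≤ p) (hc1 : 3 / 2 ≤ c) (hS : 1 ≤ S)
    (hM2 : M ≤ 7 * S * c ^ 2) (hδ3 : δ ≤ 130.23 * (S * p * c)) :
    2 * (δ + 44 * p * (M * S)) ≤ 800 * p * S ^ 2 * c ^ 2 := by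
  obtain ⟨hY, -, -⟩ := parB_Y hp hc1 hS
  have hp0 : 0 < p := by linarith
  have hS0 : 0 < S := by linarith
  have hc0 : 0 < c := by linarith
  have h2 : 44 * p * (M * S) ≤ 44 * p * (7 * S * c ^ 2 * S) := by
    refine mul_le_mul_of_nonneg_left ?_ (by linarith)
    exact mul_le_mul_of_nonneg_right hM2 (by linarith)
  have e : 44 * p * (7 * S * c ^ 2 * S) = 308 * (p * (S * S) * c ^ 2) := by ring
  have e2 : 800 * p * S ^ 2 * c ^ 2 = 800 * (p * (S * S) * c ^ 2) := by ring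
  rw [e] at h2
  rw [e2]
  have : 0 < p * (S * S) * c ^ 2 := by positivity
  linarith

theorem parB_big {p L l c S M δ u v G R : ℝ} (hp : 3 ≤ p) (hL : 100 ≤ L) (hl : 0 < l)
    (hc : c * l = L) (hc1 : 3 / 2 ≤ c) (hS : 1 ≤ S)
    (hM1 : 6.5 * S * c ^ 2 ≤ M) (hM2 : M ≤ 7 * S * c ^ 2)
    (hδ1 : 130 * (S * p * c) ≤ δ) (hδ3 : δ ≤ 130.23 * (S * p * c))
    (hR : R ≤ 53.4 * (S * (p * M))) (hR0 : 0 < R) (hu : u ≤ R) (hv : v ≤ δ)
    (key : (δ - 44 * p) * l * R ≤ 3.4 * S * G) :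
    R * (u + 2 * v + 9 * L + 28) < G * (4 * M * S) := by
  have ha := parB_a hp hL hl hc hc1 hS hδ1
  obtain ⟨hY, hSc, hXge⟩ := parB_Y hp hc1 hS
  have hp0 : 0 < p := by linarith
  have hS0 : 0 < S := by linarith
  have hc0 : 0 < c := by linarith
  have hL0 : 0 < L := by linarith
  have hM0 : 0 < M := lt_of_lt_of_le (by positivity) hM1
  have ha0 : 0 < (δ - 44 * p) * l := lt_of_lt_of_le (by positivity) ha
  obtain ⟨X, hXd⟩ : ∃ X : ℝ, X = p * (S * S) * c ^ 2 := ⟨_, rfl⟩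
  rw [← hXd] at hY hXge
  have hX0 : 0 < X := by linarith
  have hv' : v ≤ 87 * X := by linarith
  have hu' : u ≤ 374 * X := by
    have h1 : S * (p * M) ≤ S * (p * (7 * S * c ^ 2)) := by
      refine mul_le_mul_of_nonneg_left ?_ hS0.le
      exact mul_le_mul_of_nonneg_left hM2 hp0.le
    have h2 : S * (p * (7 * S * c ^ 2)) = 7 * X := by rw [hXd]; ring
    rw [h2] at h1
    linarith
  have hbr : u + 2 * v + 9 * L + 28 < 700 * (X * L) := by
    have h1 : X * 100 ≤ X * L := mul_le_mul_of_nonneg_left hL hX0.le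
    have h2 : 4.5 * L ≤ X * L := mul_le_mul_of_nonneg_right hXge hL0.le
    linarith
  have hgain : 700 * (X * L) * (3.4 * S) ≤ (δ - 44 * p) * l * (4 * M * S) := by
    have h1 : p * L * (100.66 * S) * (4 * (6.5 * S * c ^ 2) * S) ≤
        (δ - 44 * p) * l * (4 * M * S) := by
      refine mul_le_mul ha ?_ (by positivity) ha0.le
      refine mul_le_mul_of_nonneg_right ?_ hS0.le
      linarith
    refine le_trans ?_ h1
    have e : p * L * (100.66 * S) * (4 * (6.5 * S * c ^ 2) * S) =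
        (100.66 * 26) * (S * (X * L)) := by rw [hXd]; ring
    have e2 : 700 * (X * L) * (3.4 * S) = 2380 * (S * (X * L)) := by ring
    rw [e, e2]
    exact mul_le_mul_of_nonneg_right (by norm_num) (by positivity)
  have hfin : R * (u + 2 * v + 9 * L + 28) * (3.4 * S) < G * (4 * M * S) * (3.4 * S) := by
    calc R * (u + 2 * v + 9 * L + 28) * (3.4 * S) < R * (700 * (X * L)) * (3.4 * S) := by
          refine mul_lt_mul_of_pos_right ?_ (by positivity)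
          exact mul_lt_mul_of_pos_left hbr hR0
      _ = R * (700 * (X * L) * (3.4 * S)) := by ring
      _ ≤ R * ((δ - 44 * p) * l * (4 * M * S)) :=
          mul_le_mul_of_nonneg_left hgain hR0.le
      _ = (δ - 44 * p) * l * R * (4 * M * S) := by ring
      _ ≤ 3.4 * S * G * (4 * M * S) :=
          mul_le_mul_of_nonneg_right key (by positivity)
      _ = G * (4 * M * S) * (3.4 * S) := by ring
  exact lt_of_mul_lt_mul_right hfin (by positivity)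

theorem parB_A {p L l c S M δ : ℝ} (hp : 3 ≤ p) (hL : 100 ≤ L) (hl : 0 < l)
    (hc : c * l = L) (hc1 : 3 / 2 ≤ c) (hS : 1 ≤ S)
    (hM2 : M ≤ 7 * S * c ^ 2) (hM0 : 0 < M)
    (hδ3 : δ ≤ 130.23 * (S * p * c)) :
    (δ - 44 * p) * l * (4 * M * S + 1) ≤ 4000 * S ^ 3 * p * c ^ 2 * L := by
  obtain ⟨-, hSc, -⟩ := parB_Y hp hc1 hS
  have hp0 : 0 < p := by linarith
  have hS0 : 0 < S := by linarith
  have hc0 : 0 < c := by linarith
  have hL0 : 0 < L := by linarith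
  have h1 : (δ - 44 * p) * l ≤ 130.23 * (S * (p * L)) := by
    have h2 : (δ - 44 * p) * l ≤ 130.23 * (S * p * c) * l := by
      refine mul_le_mul_of_nonneg_right ?_ hl.le
      linarith
    have h3 : 130.23 * (S * p * c) * l = 130.23 * (S * (p * L)) := by rw [← hc]; ring
    linarith
  have h4 : 4 * M * S + 1 ≤ 28.45 * (S ^ 2 * c ^ 2) := by
    have h5 : M * S ≤ 7 * S * c ^ 2 * S := mul_le_mul_of_nonneg_right hM2 hS0.le
    have h6 : 1.5 * 1.5 ≤ S * c * (S * c) := mul_le_mul hSc hSc (by norm_num) (by positivity)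
    have e : 7 * S * c ^ 2 * S = 7 * (S ^ 2 * c ^ 2) := by ring
    have e2 : S * c * (S * c) = S ^ 2 * c ^ 2 := by ring
    rw [e] at h5
    rw [e2] at h6
    linarith
  calc (δ - 44 * p) * l * (4 * M * S + 1) ≤
        130.23 * (S * (p * L)) * (28.45 * (S ^ 2 * c ^ 2)) := by
        refine mul_le_mul h1 h4 (by positivity) (by positivity)
    _ = 130.23 * 28.45 * (S ^ 3 * p * c ^ 2 * L) := by ring
    _ ≤ 4000 * (S ^ 3 * p * c ^ 2 * L) := by
        refine mul_le_mul_of_nonneg_right (by norm_num) (by positivity)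
    _ = 4000 * S ^ 3 * p * c ^ 2 * L := by ring

theorem parB {q s r M m : ℕ} (hr : 1 ≤ r) (hκ : 3 / 2 * Real.log (2 * r + 1) ≤ Real.log q)
    (hL : 100 ≤ Real.log q)
    (hM1 : 6.5 * ((s : ℝ) + 1) * (Real.log q / Real.log (2 * r + 1)) ^ 2 ≤ M)
    (hM2 : (M : ℝ) ≤ 7 * ((s : ℝ) + 1) * (Real.log q / Real.log (2 * r + 1)) ^ 2)
    (hm : 800 * (2 * r + 1) * ((s : ℝ) + 1) ^ 2 *
      (Real.log q / Real.log (2 * r + 1)) ^ 2 ≤ m) :
    ∃ δ k K n₀ : ℕ, AdmQ q s r M m δ k K n₀ (3.4 * ((s : ℝ) + 1))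
      (4000 * ((s : ℝ) + 1) ^ 3 * (2 * r + 1) *
        (Real.log q / Real.log (2 * r + 1)) ^ 2 * Real.log q) := by
  have hr' : (1 : ℝ) ≤ r := by exact_mod_cast hr
  obtain ⟨p, hpdef⟩ : ∃ p : ℝ, p = 2 * (r : ℝ) + 1 := ⟨_, rfl⟩
  obtain ⟨L, hLdef⟩ : ∃ L : ℝ, L = Real.log q := ⟨_, rfl⟩
  obtain ⟨l, hldef⟩ : ∃ l : ℝ, l = Real.log (2 * (r : ℝ) + 1) := ⟨_, rfl⟩
  obtain ⟨S, hSdef⟩ : ∃ S : ℝ, S = (s : ℝ) + 1 := ⟨_, rfl⟩
  rw [← hLdef, ← hldef, ← hSdef] at hM1 hM2 hm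
  rw [← hLdef, ← hldef] at hκ
  rw [← hLdef] at hL
  rw [← hpdef] at hm
  have hp3 : 3 ≤ p := by rw [hpdef]; linarith
  have hp0 : 0 < p := by linarith
  have hl0 : 0 < l := by
    rw [hldef, ← hpdef]
    exact Real.log_pos (by linarith)
  obtain ⟨c, hcdef⟩ : ∃ c : ℝ, c = L / l := ⟨_, rfl⟩
  rw [← hcdef] at hM1 hM2 hm
  have hcl : c * l = L := by rw [hcdef]; field_simp
  have hc1 : 3 / 2 ≤ c := by rw [hcdef, le_div_iff₀ hl0]; exact hκ
  have hc0 : 0 < c := by linarith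
  have hS : (1 : ℝ) ≤ S := by
    rw [hSdef]
    have : (0 : ℝ) ≤ s := Nat.cast_nonneg s
    linarith
  have hS0 : 0 < S := by linarith
  have hs : (s : ℝ) = S - 1 := by rw [hSdef]; ring
  have hX0 : (0 : ℝ) ≤ 130 * (S * p * c) := by positivity
  have hδ1 := Nat.le_ceil (130 * (S * p * c))
  have hδ2 := (Nat.ceil_lt_add_one hX0).le
  refine ⟨⌈130 * (S * p * c)⌉₊, 40 * (2 * r + 1), 44 * (2 * r + 1), 4 * M * (s + 1), ?_⟩
  generalize ⌈130 * (S * p * c)⌉₊ = δ at hδ1 hδ2 ⊢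
  obtain ⟨hδ0, hM0, hX, hδ3, hδM, hδsq⟩ := parB_delta hp3 hc1 hS hM1 hδ1 hδ2
  have hR := parB_rows hp3 hS hM0 hδM
  have key := parB_main hp3 hL hl0 hcl hc1 hS hM1 hδ1 hδ2
    (t := Real.log 2) (Real.log_two_lt_d9.le.trans (by norm_num))
  have hL0 : 0 < L := by linarith
  have hpL0 : 0 < p * L := by positivity
  have ha := parB_a hp3 hL hl0 hcl hc1 hS hδ1
  have ha0 : 0 < ((δ : ℝ) - 44 * p) * l := lt_of_lt_of_le (by positivity) ha
  have hE1 : Egain q s r δ M (40 * (2 * r + 1)) (44 * (2 * r + 1)) =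
      (M * (40 * p * (δ - 44 * p) * l) -
      (δ + δ ^ 2 * L / 2 + (S - 1) * M * (44 * p + (44 * p) ^ 2 * L / 2) +
      M * (40 * p + (40 * p) ^ 2 * L / 2 +
        40 * p * (3 * p * (2 * L + 1 + 8 * Real.log 2))))) := by
    unfold Egain
    rw [← hLdef, ← hldef]
    push_cast
    rw [← hpdef, hs]
  have hR1 : R1 s δ M (40 * (2 * r + 1)) (44 * (2 * r + 1)) =
      δ + 44 * p * (S - 1) * M + 40 * p * M := by
    unfold R1
    push_cast
    rw [← hpdef, hs]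
  have hR0 : 0 < (δ : ℝ) + 44 * p * (S - 1) * M + 40 * p * M := by
    have h1 : 0 ≤ 44 * p * (S - 1) * (M : ℝ) := by
      have : 0 ≤ S - 1 := by linarith
      positivity
    have h2 : 0 ≤ 40 * p * (M : ℝ) := by positivity
    linarith
  have hE0 : 0 < Egain q s r δ M (40 * (2 * r + 1)) (44 * (2 * r + 1)) -
      3 * R1 s δ M (40 * (2 * r + 1)) (44 * (2 * r + 1)) := by
    rw [hE1, hR1]
    have h1 : 0 < ((δ : ℝ) - 44 * p) * l * (δ + 44 * p * (S - 1) * M + 40 * p * M) :=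
      mul_pos ha0 hR0
    have h2 := lt_of_lt_of_le h1 key
    exact parB_pos_of_mul h2 (by positivity)
  refine ⟨hr, ?_, by omega, by omega, ?_, ?_, le_refl _, hE0, ?_, ?_, ?_⟩
  · have : (1 : ℝ) ≤ M := le_trans (by norm_num) hM0
    exact_mod_cast this
  · have : ((44 * (2 * r + 1) : ℕ) : ℝ) < (δ : ℝ) := by
      push_cast
      rw [← hpdef]
      exact parB_K hp3 hc1 hS hδ1
    exact_mod_cast this
  · have : ((2 * (δ + 44 * (2 * r + 1) * (M * (s + 1))) : ℕ) : ℝ) ≤ (m : ℝ) := by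
      refine le_trans ?_ hm
      push_cast
      rw [← hpdef, ← hSdef]
      exact parB_m hp3 hc1 hS hM2 hδ3
    exact_mod_cast this
  · rw [hE1, hR1, ← hldef]
    push_cast
    rw [← hpdef, ← hSdef]
    exact key
  · rw [hE1, hR1, ← hLdef]
    push_cast
    rw [← hSdef]
    exact parB_big hp3 hL hl0 hcl hc1 hS hM1 hM2 hδ1 hδ3 hR hR0
      (Real.log_le_self hR0.le) (Real.log_le_self hδ0.le) key
  · rw [← hLdef, ← hldef, ← hcdef]
    push_cast
    rw [← hpdef, ← hSdef]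
    exact parB_A hp3 hL hl0 hcl hc1 hS hM2 (by linarith) hδ3

end HZ10
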