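import Pool.Agent.LibHZ10.Meas
import Pool.Agent.LibHZ7.Par
import Pool.Agent.LibHZ10.PARa
import Pool.Agent.LibHZ10.PARb
import Pool.Agent.LibHZ10.NUMa
import Pool.Agent.LibHZ10.NUMb

/-!
# HZ10: measures in progressions (helper89)
-/

namespace HZ10

open Finset HZ89 Polynomial HZ8

/-- sets with `Cs + I` in a dense set of terms -/
theorem kst_sets {q x₀ h N M : ℕ} (hq : 1 ≤ q) (hM : 1 ≤ M)
    (hinj : ∀ t < 2 * N, ∀ t' < 2 * N, h * t % q = h * t' % q → t = t')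
    {E : Finset ℕ} (hE : E ⊆ range N) (h4 : 4 * M ≤ E.card) :
    ∃ Cs I : Finset ℕ, (∀ c ∈ Cs, c < q) ∧ (∀ x ∈ I, x < q) ∧ Cs.card = M ∧
      2 * (N : ℝ) * ((E.card : ℝ) / (4 * N)) ^ M ≤ I.card ∧
      ∀ x ∈ I, ∀ c ∈ Cs, ∃ t ∈ E, (x + c) % q = (x₀ + h * t) % q := by
  classical
  obtain ⟨A, hA, hAc, hX⟩ := kst hM hE h4
  set X := (range (2 * N)).filter (fun x => ∀ a ∈ A, ∃ e ∈ E, x + a = N + e) with hXdef
  have hA' : ∀ a ∈ A, a < 2 * N := fun a ha => by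
    have := mem_range.1 (hA ha)
    omega
  refine ⟨A.image (fun a => h * a % q),
    X.image (fun x => (x₀ + (q - 1) * (h * N) + h * x) % q), ?_, ?_, ?_, ?_, ?_⟩
  · intro c hc
    obtain ⟨a, _, rfl⟩ := mem_image.1 hc
    exact Nat.mod_lt _ (by omega)
  · intro c hc
    obtain ⟨a, _, rfl⟩ := mem_image.1 hc
    exact Nat.mod_lt _ (by omega)
  · rw [card_image_of_injOn, hAc]
    intro a ha a' ha' haa
    exact hinj a (hA' a ha) a' (hA' a' ha') haa
  · rw [card_image_of_injOn]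
    · exact hX
    · intro x hx x' hx' hxx
      have h1 : x < 2 * N := mem_range.1 (mem_filter.1 hx).1
      have h2 : x' < 2 * N := mem_range.1 (mem_filter.1 hx').1
      exact hinj x h1 x' h2 (Nat.ModEq.add_left_cancel' _ hxx)
  · intro y hy c hc
    obtain ⟨x, hx, rfl⟩ := mem_image.1 hy
    obtain ⟨a, ha, rfl⟩ := mem_image.1 hc
    obtain ⟨e, he, hxe⟩ := (mem_filter.1 hx).2 a ha
    refine ⟨e, he, ?_⟩
    rw [← Nat.add_mod]
    have h2 : x₀ + (q - 1) * (h * N) + h * x + h * a = x₀ + h * e + q * (h * N) := by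
      have h3 : h * x + h * a = h * N + h * e := by rw [← mul_add, hxe, mul_add]
      obtain ⟨p, rfl⟩ : ∃ p, q = p + 1 := ⟨q - 1, by omega⟩
      rw [Nat.add_sub_cancel, add_mul]
      omega
    rw [h2, Nat.add_mul_mod_self_left]

theorem inj_of_coprime {q h N : ℕ} (hN : 2 * N ≤ q) (hh : h.Coprime q) :
    ∀ t < 2 * N, ∀ t' < 2 * N, h * t % q = h * t' % q → t = t' := by
  intro t ht t' ht' htt
  have h3 : t ≡ t' [MOD q] := Nat.ModEq.cancel_left_of_coprime (by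
    rw [Nat.coprime_comm] at hh
    exact hh) htt
  exact Nat.ModEq.eq_of_lt_of_lt h3 (by omega) (by omega)

theorem bound_le {A F N' H : ℝ} {X : ℝ} (hH : 1 ≤ H) (hA : A ≤ N') (hX : F ≤ X) :
    Real.exp (-N') * H ^ (-X) ≤ Real.exp (-(A + F * Real.log H)) := by
  have h0 : 0 < H := by linarith
  rw [Real.rpow_def_of_pos h0, ← Real.exp_add]
  refine Real.exp_le_exp.2 ?_
  have := mul_le_mul_of_nonneg_right hX (Real.log_nonneg hH)
  linarith

theorem M_pos {M : ℕ} {c y : ℝ} (hc : 0 < c) (hy : 0 < y) (h : c * y ^ 2 ≤ M) : 1 ≤ M := by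
  have h1 : (0 : ℝ) < M := lt_of_lt_of_le (by positivity) h
  exact_mod_cast h1

/-- one denominator, almost all terms -/
theorem densityA {q s e : ℕ} (he : 1 ≤ e) (x₀ h N : ℕ) (hh : h.Coprime q) (hN : 2 * N ≤ q)
    (ξ : Fin s → ℝ) {H b : ℕ} (hb : 1 ≤ b) (hbH : b ≤ H) (E : Finset ℕ)
    (hE : ∀ t ∈ E, t < N ∧ ∃ (a : ℤ) (d : Fin s → ℤ), (∀ i, |d i| ≤ H) ∧
      |b * hur (((x₀ + h * t : ℕ) : ℝ) / q) - a - ∑ i, d i * ξ i| <
        Real.exp (-(N : ℝ)) * (H : ℝ) ^ (-((1 + 1 / (e : ℝ)) * ((s : ℝ) + 1)))) :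
    (E.card : ℝ) ≤ 4 * N * Real.exp (-((Real.log N) ^ 3 /
      (500 * (e : ℝ) ^ 2 * ((s : ℝ) + 1) * (Real.log q) ^ 2))) := by
  by_contra hcon
  have hcon' := not_le.1 hcon
  have hEr : E ⊆ range N := fun t ht => mem_range.2 (hE t ht).1
  have hEN : E.card ≤ N := by simpa using card_le_card hEr
  obtain ⟨r, M, hr, hrq, hM1, hM2, h4, hm, hA⟩ := numA (by omega : N ≤ q) hEN he hcon'
  have hq3 : 3 ≤ q := by omega
  have hq : 1 ≤ q := by omega
  have hrr : (1 : ℝ) ≤ r := by exact_mod_cast hr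
  have hqr : (3 : ℝ) ≤ q := by exact_mod_cast hq3
  have her : (1 : ℝ) ≤ e := by exact_mod_cast he
  have hs0 : (0 : ℝ) ≤ s := Nat.cast_nonneg s
  have hlam : 0 < Real.log (2 * (r : ℝ) + 1) := Real.log_pos (by linarith)
  have hL : 0 < Real.log q := Real.log_pos (by linarith)
  have hMpos : 1 ≤ M := M_pos (c := 60 * (e : ℝ) ^ 2 * ((s : ℝ) + 1)) (by positivity)
    (div_pos hL hlam) hM1
  obtain ⟨Cs, I, hC, hI, hCc, hIc, hCI⟩ := kst_sets (x₀ := x₀) hq hMpos (inj_of_coprime hN hh)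
    hEr h4
  obtain ⟨δ, k, K, n₀, hP⟩ := parA (m := I.card) hr hrq he hM1 hM2 (hm.trans hIc)
  refine measA hq hC hI hCc rfl hP ξ hb hbH (fun x hx c hc => ?_)
  obtain ⟨t, ht, hxt⟩ := hCI x hx c hc
  obtain ⟨-, a, d, hd, hlt⟩ := hE t ht
  refine ⟨a, d, hd, ?_⟩
  rw [HZ8.hur_mod hq hxt]
  refine hlt.le.trans (bound_le ?_ hA le_rfl)
  exact_mod_cast hb.trans hbH

/-- all denominators, almost all terms -/
theorem densityB {q s : ℕ} (x₀ h N : ℕ) (hh : h.Coprime q) (hN : 2 * N ≤ q)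
    (ξ : Fin s → ℝ) {H : ℕ} (hH : 1 ≤ H) (E : Finset ℕ)
    (hE : ∀ t ∈ E, t < N ∧ ∃ (b : ℕ) (a : ℤ) (d : Fin s → ℤ), 1 ≤ b ∧ b ≤ H ∧ (∀ i, |d i| ≤ H) ∧
      |b * hur (((x₀ + h * t : ℕ) : ℝ) / q) - a - ∑ i, d i * ξ i| <
        Real.exp (-(N : ℝ)) *
          (H : ℝ) ^ (-(60 * ((s : ℝ) + 1) ^ 2 * (Real.log q / Real.log N) ^ 2))) :
    (E.card : ℝ) ≤ 4 * N * Real.exp (-((Real.log N) ^ 3 /
      (80 * ((s : ℝ) + 1) * (Real.log q) ^ 2))) := by
  by_contra hcon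
  have hcon' := not_le.1 hcon
  have hEr : E ⊆ range N := fun t ht => mem_range.2 (hE t ht).1
  have hEN : E.card ≤ N := by simpa using card_le_card hEr
  obtain ⟨r, M, hr, hκ, hL100, hM1, hM2, h4, hm, hA, hF⟩ := numB (by omega : N ≤ q) hEN hcon'
  have hrr : (1 : ℝ) ≤ r := by exact_mod_cast hr
  have hq : 1 ≤ q := by
    rcases Nat.eq_zero_or_pos q with h0 | h0
    · rw [h0] at hL100
      norm_num at hL100
    · exact h0
  have hs0 : (0 : ℝ) ≤ s := Nat.cast_nonneg s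
  have hlam : 0 < Real.log (2 * (r : ℝ) + 1) := Real.log_pos (by linarith)
  have hL : 0 < Real.log q := by linarith
  have hMpos : 1 ≤ M := M_pos (c := 6.5 * ((s : ℝ) + 1)) (by positivity)
    (div_pos hL hlam) hM1
  obtain ⟨Cs, I, hC, hI, hCc, hIc, hCI⟩ := kst_sets (x₀ := x₀) hq hMpos (inj_of_coprime hN hh)
    hEr h4
  obtain ⟨δ, k, K, n₀, hP⟩ := parB (m := I.card) hr hκ hL100 hM1 hM2 (hm.trans hIc)
  refine measB hq hC hI hCc rfl hP ξ hH (fun x hx c hc => ?_)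
  obtain ⟨t, ht, hxt⟩ := hCI x hx c hc
  obtain ⟨-, b, a, d, hb1, hb2, hd, hlt⟩ := hE t ht
  refine ⟨b, a, d, hb1, hb2, hd, ?_⟩
  rw [HZ8.hur_mod hq hxt]
  have h5 := bound_le (H := (H : ℝ)) (by exact_mod_cast hH) hA hF
  rw [mul_assoc (3.4 * ((s : ℝ) + 1))] at h5
  exact hlt.le.trans h5

/-- one denominator, short progressions -/
theorem windowA {q s e : ℕ} (he : 1 ≤ e) (x₀ h N : ℕ) (hh : h.Coprime q) (hN : N ≤ q)
    (hNb : 30000 * (e : ℝ) ^ 3 * ((s : ℝ) + 1) ^ 2 * Real.log q ^ 2 ≤ N) (hq2 : 2 ≤ q)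
    (ξ : Fin s → ℝ) {H b : ℕ} (hb : 1 ≤ b) (hbH : b ≤ H) (G : Finset ℕ)
    (hG : ∀ t < N, (∀ (a : ℤ) (d : Fin s → ℤ), (∀ i, |d i| ≤ H) →
      Real.exp (-(300000 * (e : ℝ) ^ 4 * ((s : ℝ) + 1) ^ 3 * Real.log q ^ 3)) *
          (H : ℝ) ^ (-((1 + 1 / (e : ℝ)) * ((s : ℝ) + 1))) ≤
        |b * hur (((x₀ + h * t : ℕ) : ℝ) / q) - a - ∑ i, d i * ξ i|) → t ∈ G) :
    (N : ℝ) ≤ 110 * (e : ℝ) ^ 2 * ((s : ℝ) + 1) * Real.log q ^ 2 * G.card := by
  classical
  have hq : 1 ≤ q := by omega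
  have hqr : (2 : ℝ) ≤ q := by exact_mod_cast hq2
  have hNq : (N : ℝ) ≤ q := by exact_mod_cast hN
  have her : (1 : ℝ) ≤ e := by exact_mod_cast he
  have hs0 : (0 : ℝ) ≤ s := Nat.cast_nonneg s
  have hL1 : 0.69 ≤ Real.log q := by
    have h1 := Real.log_two_gt_d9
    have h2 : Real.log 2 ≤ Real.log q := Real.log_le_log (by norm_num) hqr
    linarith
  obtain ⟨L, hL⟩ : ∃ L, L = Real.log q := ⟨_, rfl⟩
  obtain ⟨S, hS⟩ : ∃ S, S = (s : ℝ) + 1 := ⟨_, rfl⟩
  have hS1 : 1 ≤ S := by linarith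
  have hNL : 30000 * (e : ℝ) ^ 3 * S ^ 2 * L ^ 2 ≤ N := by rw [hL, hS]; exact hNb
  have he3 : (1 : ℝ) ≤ (e : ℝ) ^ 3 := one_le_pow₀ her
  have he2 : (1 : ℝ) ≤ (e : ℝ) ^ 2 := one_le_pow₀ her
  have hS2 : (1 : ℝ) ≤ S ^ 2 := one_le_pow₀ hS1
  have hL0 : 0 < L := by rw [hL]; linarith
  have hLsq : 0 < L ^ 2 := by positivity
  have heS : (1 : ℝ) ≤ (e : ℝ) ^ 3 * S ^ 2 := one_le_mul_of_one_le_of_one_le he3 hS2
  have hN0 : 30000 * L ^ 2 ≤ N := by
    have := mul_le_mul_of_nonneg_right heS hLsq.le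
    linarith
  have hL9 : 9 ≤ L := by
    rw [hL]
    apply HZ7.exp_small hL1
    rw [Real.exp_log (by linarith), ← hL]
    linarith
  -- the parameters
  obtain ⟨lam, hlam⟩ : ∃ lam, lam = Real.log (2 * ((1 : ℕ) : ℝ) + 1) := ⟨_, rfl⟩
  have hlam3 : lam = Real.log 3 := by
    rw [hlam]
    norm_num
  have h3a := Real.log_three_gt_d9
  have h3b := Real.log_three_lt_d9
  rw [← hlam3] at h3a h3b
  obtain ⟨x, hx⟩ : ∃ x, x = (L / lam) ^ 2 := ⟨_, rfl⟩
  have hxlam : x * lam ^ 2 = L ^ 2 := by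
    rw [hx]
    have : lam ≠ 0 := by linarith
    field_simp
  have hlam2a : 1.2069 ≤ lam ^ 2 := by nlinarith
  have hx0 : 0 ≤ x := by rw [hx]; positivity
  have hx1 : 1.2069 * x ≤ L ^ 2 := by nlinarith
  have hlam2b : lam ^ 2 ≤ 1.207 := by nlinarith
  have hx2 : 1 ≤ x := by
    have h1 : 81 ≤ L ^ 2 := by nlinarith
    nlinarith
  obtain ⟨y, hy⟩ : ∃ y, y = (e : ℝ) ^ 2 * S * x := ⟨_, rfl⟩
  have hy1 : 1 ≤ y := by
    rw [hy]
    exact one_le_mul_of_one_le_of_one_le (one_le_mul_of_one_le_of_one_le he2 hS1) hx2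
  obtain ⟨M, hM⟩ : ∃ M : ℕ, M = ⌈60 * y⌉₊ := ⟨_, rfl⟩
  have hM1 : 60 * y ≤ M := by rw [hM]; exact Nat.le_ceil _
  have hM2 : (M : ℝ) ≤ 61 * y := by
    have : (M : ℝ) < 60 * y + 1 := by rw [hM]; exact Nat.ceil_lt_add_one (by positivity)
    linarith
  have hMpos : 1 ≤ M := by
    have : (0 : ℝ) < M := by linarith
    exact_mod_cast this
  have hyL : 1.2069 * y ≤ (e : ℝ) ^ 2 * S * L ^ 2 := by
    rw [hy]
    have := mul_le_mul_of_nonneg_left hx1 (by positivity : (0 : ℝ) ≤ (e : ℝ) ^ 2 * S)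
    linarith
  have hML : (M : ℝ) ≤ 50.6 * ((e : ℝ) ^ 2 * S * L ^ 2) := by linarith
  have hMN : (M : ℝ) ≤ 0.002 * N := by
    have h1 : (e : ℝ) ^ 2 * S * L ^ 2 ≤ (e : ℝ) ^ 3 * S ^ 2 * L ^ 2 := by
      refine mul_le_mul_of_nonneg_right ?_ hLsq.le
      have h2 : (e : ℝ) ^ 2 ≤ (e : ℝ) ^ 3 := pow_le_pow_right₀ her (by norm_num)
      have h3 : S ≤ S ^ 2 := by nlinarith
      exact mul_le_mul h2 h3 (by linarith) (by positivity)
    linarith
  have hMN' : M ≤ N := by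
    have h1 : (0 : ℝ) ≤ N := Nat.cast_nonneg N
    have h2 : (M : ℝ) ≤ N := by linarith
    exact_mod_cast h2
  have hMq : M ≤ q := hMN'.trans hN
  have hβ : ((N - M : ℕ) : ℝ) = N - M := by
    push_cast [Nat.cast_sub hMN']
    ring
  have hinj : ∀ (z N : ℕ), N ≤ q → Set.InjOn (fun i : ℕ => (z + h * i) % q) (range N : Set ℕ) := by
    intro z N hN i hi j hj hij
    have hi' : i < q := lt_of_lt_of_le (mem_range.1 (mem_coe.1 hi)) hN
    have hj' : j < q := lt_of_lt_of_le (mem_range.1 (mem_coe.1 hj)) hN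
    have h1 : z + h * i ≡ z + h * j [MOD q] := hij
    have h2 : h * i ≡ h * j [MOD q] := Nat.ModEq.add_left_cancel' z h1
    have h3 : i ≡ j [MOD q] := Nat.ModEq.cancel_left_of_coprime (by
      rw [Nat.coprime_comm] at hh
      exact hh) h2
    exact Nat.ModEq.eq_of_lt_of_lt h3 hi' hj'
  set B' := (range (N - M)).filter (fun j => ∀ i ∈ range M, i + j ∉ G) with hB'
  have hB'r : B' ⊆ range (N - M) := filter_subset _ _
  have hB'lt : (B'.card : ℝ) < 6200 * (e : ℝ) ^ 3 * 3 * S ^ 2 * x := by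
    by_contra hcon
    push Not at hcon
    have hIc : (B'.image fun j => (x₀ + h * j) % q).card = B'.card := by
      refine card_image_of_injOn ?_
      exact (hinj x₀ (N - M) ((Nat.sub_le _ _).trans hN)).mono (by exact_mod_cast hB'r)
    have hCc : ((range M).image fun i => (0 + h * i) % q).card = M := by
      rw [card_image_of_injOn (hinj 0 M hMq), card_range]
    obtain ⟨δ, k, K, n₀, hP⟩ := parA (q := q) (s := s) (r := 1) (e := e) (M := M)
      (m := (B'.image fun j => (x₀ + h * j) % q).card) le_rfl (by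
        have : (3 : ℝ) ≤ q := by
          have h1 : Real.exp 1 ≤ Real.exp L := Real.exp_le_exp.2 (by linarith)
          have h2 := Real.add_one_le_exp L
          rw [hL, Real.exp_log (by linarith), ← hL] at h2
          linarith
        have h2 : 3 ≤ q := by exact_mod_cast this
        omega) he (by
        rw [← hlam, ← hL, ← hS, ← hx]
        calc 60 * (e : ℝ) ^ 2 * S * x = 60 * y := by rw [hy]; ring
          _ ≤ M := hM1) (by
        rw [← hlam, ← hL, ← hS, ← hx]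
        calc (M : ℝ) ≤ 61 * y := hM2
          _ = _ := by rw [hy]; ring) (by
        rw [← hlam, ← hL, ← hS, ← hx, hIc]
        push_cast
        refine le_trans (le_of_eq ?_) hcon
        ring)
    refine measA hq (fun c hc => ?_) (fun c hc => ?_) hCc rfl hP ξ hb hbH
      (fun u hu c hc => ?_)
    · obtain ⟨i, _, rfl⟩ := mem_image.1 hc
      exact Nat.mod_lt _ (by omega)
    · obtain ⟨i, _, rfl⟩ := mem_image.1 hc
      exact Nat.mod_lt _ (by omega)
    obtain ⟨j, hj, rfl⟩ := mem_image.1 hu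
    obtain ⟨i, hi, rfl⟩ := mem_image.1 hc
    have hjN := mem_range.1 (hB'r hj)
    have hiM := mem_range.1 hi
    have hnot := (mem_filter.1 hj).2 i hi
    have hmod : ((x₀ + h * j) % q + (0 + h * i) % q) % q = (x₀ + h * (i + j)) % q := by
      rw [← Nat.add_mod]
      congr 1
      ring
    rw [HZ8.hur_mod hq hmod]
    by_contra hbad
    push Not at hbad
    refine hnot (hG (i + j) (by omega) fun a d hd => ?_)
    refine le_trans ?_ (hbad a d hd).le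
    refine bound_le ?_ ?_ le_rfl
    · exact_mod_cast hb.trans hbH
    · rw [← hlam, ← hL, ← hS, ← hx]
      push_cast
      have h1 : x ≤ L ^ 2 := by linarith
      have h2 := mul_le_mul_of_nonneg_left h1
        (by positivity : (0 : ℝ) ≤ 300000 * (e : ℝ) ^ 4 * S ^ 3 * L)
      calc 100000 * (e : ℝ) ^ 4 * S ^ 3 * (2 * 1 + 1) * x * L =
          300000 * (e : ℝ) ^ 4 * S ^ 3 * L * x := by ring
        _ ≤ 300000 * (e : ℝ) ^ 4 * S ^ 3 * L * L ^ 2 := h2
        _ = _ := by ring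
  have hcov : range (N - M) ⊆
      B' ∪ (range M).biUnion (fun i => (range (N - M)).filter (fun j => i + j ∈ G)) := by
    intro j hj
    by_cases hcase : ∀ i ∈ range M, i + j ∉ G
    · exact mem_union_left _ (mem_filter.2 ⟨hj, hcase⟩)
    · push Not at hcase
      obtain ⟨i, hi, hij⟩ := hcase
      exact mem_union_right _ (mem_biUnion.2 ⟨i, hi, mem_filter.2 ⟨hj, hij⟩⟩)
  have hfib : ∀ i ∈ range M, ((range (N - M)).filter (fun j => i + j ∈ G)).card ≤ G.card := by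
    intro i _
    apply Finset.card_le_card_of_injOn (fun j => i + j)
    · intro j hj
      exact (mem_filter.1 hj).2
    · intro j _ j' _ hjj
      exact Nat.add_left_cancel hjj
  have hcard : N - M ≤ B'.card + M * G.card := by
    calc N - M = (range (N - M)).card := (card_range _).symm
      _ ≤ _ := card_le_card hcov
      _ ≤ _ := card_union_le _ _
      _ ≤ B'.card + M * G.card := by
        have := Finset.card_biUnion_le_card_mul (range M)
          (fun i => (range (N - M)).filter (fun j => i + j ∈ G)) G.card hfib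
        rw [card_range] at this
        omega
  have hcardr : ((N - M : ℕ) : ℝ) ≤ B'.card + M * G.card := by exact_mod_cast hcard
  rw [hβ] at hcardr
  have hG0 : (0 : ℝ) ≤ G.card := Nat.cast_nonneg _
  have h5 : (M : ℝ) * G.card ≤ 50.6 * ((e : ℝ) ^ 2 * S * L ^ 2) * G.card :=
    mul_le_mul_of_nonneg_right hML hG0
  have h6 : 6200 * (e : ℝ) ^ 3 * 3 * S ^ 2 * x ≤ 0.52 * N := by
    have h7 := mul_le_mul_of_nonneg_left hx1 (by positivity : (0 : ℝ) ≤ (e : ℝ) ^ 3 * S ^ 2)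
    nlinarith
  have h8 : (N : ℝ) ≤ 110 * ((e : ℝ) ^ 2 * S * L ^ 2 * G.card) := by
    have h9 : (0 : ℝ) ≤ (e : ℝ) ^ 2 * S * L ^ 2 * G.card := by positivity
    nlinarith
  rw [← hL, ← hS]
  linarith

end HZ10
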