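import Pool.Agent.LibHZ10.Core
import Pool.Agent.LibHZ8.FIN

/-!
# HZ10: the choice of `n` (helper89)
-/

namespace HZ10

open Finset HZ89 Polynomial HZ8

theorem meas {q s r M m δ k K n₀ : ℕ} {F A X : ℝ} {I Cs : Finset ℕ} (hq : 1 ≤ q)
    (hC : ∀ c ∈ Cs, c < q) (hI : ∀ x ∈ I, x < q) (hM : Cs.card = M) (hm : I.card = m)
    (hP : AdmQ q s r M m δ k K n₀ F A) (hX : 0 ≤ X)
    (ξ : Fin s → ℝ) (b₀ : ℕ → ℚ) (b : ℕ → Fin s → ℚ) {η : ℝ}
    (hη : η ≤ Real.exp (-(A + F * X)))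
    (hS : ∀ x ∈ I, ∀ c ∈ Cs, |HZ7.SS q ((x : ℝ) + c) -
      ((b₀ ((x + c) % q) : ℝ) + ∑ i, (b ((x + c) % q) i : ℝ) * ξ i)| ≤ η)
    {D₀ : ℕ} (hD₀ : 1 ≤ D₀) {B : ℝ} (hB : 1 ≤ B) (wt : ℕ → ℕ) {W : ℕ} (hW : 1 ≤ W)
    (hw1 : ∀ x ∈ I, 1 ≤ wt x) (hw2 : ∀ x ∈ I, wt x ≤ W)
    (h0 : ∀ x ∈ I, ∀ c ∈ Cs, ∃ z : ℤ, (D₀ : ℝ) * wt x * (b₀ ((x + c) % q) : ℝ) = z)
    (h1 : ∀ x ∈ I, ∀ c ∈ Cs, ∀ i, ∃ z : ℤ, (D₀ : ℝ) * wt x * (b ((x + c) % q) i : ℝ) = z)
    (h2 : ∀ x ∈ I, ∀ c ∈ Cs, ∀ i, |(b ((x + c) % q) i : ℝ)| ≤ B)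
    (hD : R1 s δ M k K * Real.log ((D₀ : ℝ) * W) + K * s * M * Real.log B ≤
      R1 s δ M k K * (3 * Real.log q + X)) : False := by
  obtain ⟨hr, hM1, hk, hK, hKδ, hmm, hn, hE, hF, hbig, hA⟩ := hP
  obtain ⟨R, hR⟩ : ∃ R, R = R1 s δ M k K := ⟨_, rfl⟩
  obtain ⟨E, hEd⟩ : ∃ E, E = Egain q s r δ M k K := ⟨_, rfl⟩
  rw [← hR, ← hEd] at hE hF hbig
  rw [← hR] at hD
  have hqr : (1 : ℝ) ≤ q := by exact_mod_cast hq
  have hL : 0 ≤ Real.log q := Real.log_nonneg hqr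
  have hMr : (1 : ℝ) ≤ M := by exact_mod_cast hM1
  have hkr : (1 : ℝ) ≤ k := by exact_mod_cast hk
  have hδ1 : (1 : ℝ) ≤ δ := by exact_mod_cast (by omega : 1 ≤ δ)
  have hδK : (K : ℝ) < δ := by exact_mod_cast hKδ
  have hrr : (1 : ℝ) ≤ r := by exact_mod_cast hr
  have hs0 : (0 : ℝ) ≤ s := Nat.cast_nonneg s
  have hK0 : (0 : ℝ) ≤ K := Nat.cast_nonneg K
  have hkM : (k : ℝ) * M ≤ R := by
    rw [hR]
    unfold R1
    have : (0 : ℝ) ≤ K * s * M := by positivity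
    linarith
  have hkM0 : (1 : ℝ) ≤ k * M := by nlinarith
  have hR1 : 1 ≤ R := by linarith
  have hlam : 0 < Real.log (2 * r + 1) := Real.log_pos (by linarith)
  obtain ⟨G, hG⟩ : ∃ G, G = E - 3 * R := ⟨_, rfl⟩
  rw [← hG] at hE hF hbig
  obtain ⟨v, hv⟩ : ∃ v : ℕ, v = ⌈R * X / G⌉₊ := ⟨_, rfl⟩
  have hv1 : R * X / G ≤ v := by rw [hv]; exact Nat.le_ceil _
  have hv2 : (v : ℝ) < R * X / G + 1 := by
    rw [hv]
    exact Nat.ceil_lt_add_one (by positivity)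
  have hv3 : R * X ≤ G * v := by
    rw [div_le_iff₀ hE] at hv1
    linarith
  obtain ⟨n, hnd⟩ : ∃ n : ℕ, n = n₀ + v := ⟨_, rfl⟩
  have hn4 : 4 * M * (s + 1) ≤ n := by omega
  have hMS : 1 ≤ M * (s + 1) := Nat.one_le_iff_ne_zero.2 (mul_ne_zero (by omega) (by omega))
  have hn4' : 4 * (M * (s + 1)) ≤ n := by
    rw [← mul_assoc]
    exact hn4
  have hn3 : 3 ≤ n := by omega
  have hnr : (3 : ℝ) ≤ n := by exact_mod_cast hn3
  -- the condition on degrees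
  have hdeg : 6 * M * (M * (s + 1) + 1) + δ * n + M * (s + 1) * (K * n) + m * (M * (s + 1)) <
      m * n := by
    obtain ⟨Y, hY⟩ : ∃ Y, Y = M * (s + 1) := ⟨_, rfl⟩
    rw [← hY] at hmm hn4' hMS ⊢
    have hMY : M ≤ Y := by rw [hY]; exact Nat.le_mul_of_pos_right M (by omega)
    have g1 : 6 * M * (Y + 1) ≤ 12 * (Y * Y) := by nlinarith
    have g2 : 4 * (m * Y) ≤ m * n := by nlinarith
    have g3 : 2 * ((δ + K * Y) * n) ≤ m * n := by
      have := Nat.mul_le_mul_right n hmm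
      linarith
    have hK14 : 11 ≤ K := by omega
    have g4 : 12 * (Y * Y) * 4 < m * n := by
      have g5 : 22 * Y ≤ m := by nlinarith
      have g6 : (22 * Y) * (4 * Y) ≤ m * n := Nat.mul_le_mul g5 hn4'
      have g7 : 0 < Y * Y := Nat.mul_pos (by omega) (by omega)
      nlinarith
    nlinarith
  -- eta
  have hnle : ((δ : ℝ) - K) * Real.log (2 * r + 1) * n ≤ A + F * X := by
    have ha0 : 0 < ((δ : ℝ) - K) * Real.log (2 * r + 1) := mul_pos (by linarith) hlam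
    have hFX : ((δ : ℝ) - K) * Real.log (2 * r + 1) * (R * X / G) ≤ F * X := by
      rw [mul_div_assoc', div_le_iff₀ hE]
      have := mul_le_mul_of_nonneg_right hF hX
      linarith
    have hnc : (n : ℝ) = n₀ + v := by
      rw [hnd]
      push_cast
      ring
    rw [hnc]
    have h3 : ((δ : ℝ) - K) * Real.log (2 * r + 1) * (n₀ + v) ≤
        ((δ : ℝ) - K) * Real.log (2 * r + 1) * ((n₀ + 1) + R * X / G) :=
      mul_le_mul_of_nonneg_left (by linarith) ha0.le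
    rw [mul_add] at h3
    linarith
  have hη2 : η ≤ (1 / (2 * (r : ℝ) + 1)) ^ (δ * n - K * n) := by
    refine hη.trans ?_
    have e1 : (1 / (2 * (r : ℝ) + 1)) ^ (δ * n - K * n) =
        Real.exp (-(((δ : ℝ) - K) * Real.log (2 * r + 1) * n)) := by
      have hN : ((δ * n - K * n : ℕ) : ℝ) = ((δ : ℝ) - K) * n := by
        rw [Nat.cast_sub (Nat.mul_le_mul_right n hKδ.le)]
        push_cast
        ring
      have h3 : (1 / (2 * (r : ℝ) + 1)) = Real.exp (-Real.log (2 * r + 1)) := by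
        rw [Real.exp_neg, Real.exp_log (by positivity), one_div]
      rw [h3, ← Real.exp_nat_mul, hN]
      congr 1
      ring
    rw [e1]
    exact Real.exp_le_exp.2 (by linarith)
  have key := coreQ hq hr hn3 hC hI hM hm hM1 hk hK hKδ hdeg ξ b₀ b hη2 hS hD₀ hB wt hW hw1 hw2
    h0 h1 h2
  have eR : (δ : ℝ) + K * s * M + k * M = R := by rw [hR, R1]
  rw [eR, ← hEd] at key
  -- the logarithms
  have hlogn : Real.log n ≤ n - 1 := by
    have := Real.log_le_sub_one_of_pos (show (0 : ℝ) < n by linarith)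
    linarith
  have e2 : Real.log (R * n) = Real.log R + Real.log n :=
    Real.log_mul (by linarith) (by linarith)
  have e3 : Real.log (200 * ((δ : ℝ) * n + 2) ^ 2) ≤ 7.5 + 2 * Real.log δ + 2 * Real.log n := by
    have h3 : (200 : ℝ) * ((δ : ℝ) * n + 2) ^ 2 ≤ 1800 * (δ * n) ^ 2 := by
      have h4 : (δ : ℝ) * n + 2 ≤ 3 * (δ * n) := by nlinarith
      have h5 : (0 : ℝ) ≤ (δ : ℝ) * n + 2 := by positivity
      have h6 := pow_le_pow_left₀ h5 h4 2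
      nlinarith
    have h4 := Real.log_le_log (by positivity) h3
    have hδ0 : (δ : ℝ) ≠ 0 := by linarith
    have hn0 : (n : ℝ) ≠ 0 := by linarith
    have h4b : Real.log (1800 * ((δ : ℝ) * n) ^ 2) =
        Real.log 1800 + 2 * (Real.log δ + Real.log n) := by
      rw [Real.log_mul (by norm_num) (by positivity), Real.log_pow, Real.log_mul hδ0 hn0]
      push_cast
      ring
    rw [h4b] at h4
    have h5 : Real.log 1800 ≤ 7.5 := by
      have h6 : (1800 : ℝ) ≤ Real.exp 7.5 := by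
        have h7 : Real.exp 7.5 = (Real.exp 1) ^ 7 * Real.exp 0.5 := by
          rw [← Real.exp_nat_mul, ← Real.exp_add]
          norm_num
        have h8 := Real.exp_one_gt_d9
        have h9 : (1.6487 : ℝ) ≤ Real.exp 0.5 := by
          have h10 : Real.exp 0.5 * Real.exp 0.5 = Real.exp 1 := by
            rw [← Real.exp_add]
            norm_num
          have h11 := Real.exp_pos (0.5 : ℝ)
          by_contra hcon
          push Not at hcon
          nlinarith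
        rw [h7]
        have h12 : (2.718281 : ℝ) ^ 7 ≤ (Real.exp 1) ^ 7 :=
          pow_le_pow_left₀ (by norm_num) (by linarith) 7
        have h13 : (1096.6 : ℝ) ≤ 2.718281 ^ 7 := by norm_num
        nlinarith
      rw [Real.log_le_iff_le_exp (by norm_num)]
      exact h6
    linarith
  have hlog2 : 8 * Real.log 2 ≤ 5.546 := by
    have := Real.log_two_lt_d9
    linarith
  have hlogδ : 0 ≤ Real.log δ := Real.log_nonneg hδ1
  have hlogn0 : 0 ≤ Real.log n := Real.log_nonneg (by linarith)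
  have f1 : 3 * k * M * (2 * Real.log q + 1 + 8 * Real.log 2) ≤
      R * (6 * Real.log q + 19.64) := by
    have g1 : 3 * (2 * Real.log q + 1 + 8 * Real.log 2) ≤ 6 * Real.log q + 19.64 := by linarith
    have g2 : 0 ≤ 6 * Real.log q + 19.64 := by linarith
    calc 3 * k * M * (2 * Real.log q + 1 + 8 * Real.log 2) =
        (k * M) * (3 * (2 * Real.log q + 1 + 8 * Real.log 2)) := by ring
      _ ≤ (k * M) * (6 * Real.log q + 19.64) := mul_le_mul_of_nonneg_left g1 (by linarith)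
      _ ≤ R * (6 * Real.log q + 19.64) := mul_le_mul_of_nonneg_right hkM g2
  have f2 : k * M * Real.log (200 * ((δ : ℝ) * n + 2) ^ 2) ≤
      R * (7.5 + 2 * Real.log δ + 2 * Real.log n) := by
    calc k * M * Real.log (200 * ((δ : ℝ) * n + 2) ^ 2) ≤
        k * M * (7.5 + 2 * Real.log δ + 2 * Real.log n) :=
          mul_le_mul_of_nonneg_left e3 (by linarith)
      _ ≤ R * (7.5 + 2 * Real.log δ + 2 * Real.log n) :=
        mul_le_mul_of_nonneg_right hkM (by linarith)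
  have hR0 : 0 < R := by linarith
  have f3 := mul_le_mul_of_nonneg_left hlogn hR0.le
  have hGE : G * n = E * n - 3 * (R * n) := by rw [hG]; ring
  have hnc : (n : ℝ) = n₀ + v := by
    rw [hnd]
    push_cast
    ring
  have hGn : G * n = G * n₀ + G * v := by rw [hnc]; ring
  rw [e2] at key
  nlinarith [key, f1, f2, f3, hv3, hbig, hD]

/-- common denominator -/
theorem measA {q s r M m δ k K n₀ : ℕ} {F A : ℝ} {I Cs : Finset ℕ} (hq : 1 ≤ q)
    (hC : ∀ c ∈ Cs, c < q) (hI : ∀ x ∈ I, x < q) (hM : Cs.card = M) (hm : I.card = m)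
    (hP : AdmQ q s r M m δ k K n₀ F A) (ξ : Fin s → ℝ) {H b : ℕ} (hb : 1 ≤ b) (hbH : b ≤ H)
    (h : ∀ x ∈ I, ∀ c ∈ Cs, ∃ (a : ℤ) (d : Fin s → ℤ), (∀ i, |d i| ≤ H) ∧
      |b * hur (((x + c : ℕ) : ℝ) / q) - a - ∑ i, d i * ξ i| ≤
        Real.exp (-(A + F * Real.log H))) : False := by
  classical
  have hq0 : (0 : ℝ) < q := by exact_mod_cast hq
  have hqr : (1 : ℝ) ≤ q := by exact_mod_cast hq
  have hbr : (1 : ℝ) ≤ b := by exact_mod_cast hb
  have hHr : (b : ℝ) ≤ H := by exact_mod_cast hbH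
  have hH1 : 1 ≤ H := hb.trans hbH
  have hH1r : (1 : ℝ) ≤ H := by exact_mod_cast hH1
  have hper : ∀ y l : ℕ, HZ7.SS q ((y + q * l : ℕ) : ℝ) = HZ7.SS q (y : ℝ) := by
    intro y l
    have := HZ7.SS_per (q := q) (y : ℝ) l
    push_cast
    exact this
  have hmod : ∀ y : ℕ, HZ7.SS q (y : ℝ) = HZ7.SS q ((y % q : ℕ) : ℝ) := by
    intro y
    conv_lhs => rw [← Nat.mod_add_div y q]
    exact hper _ _
  have key : ∀ y : ℕ, ∃ (a : ℤ) (d : Fin s → ℤ), (∃ x ∈ I, ∃ c ∈ Cs, (x + c) % q = y) →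
      (∀ i, |d i| ≤ H) ∧ |b * hur ((y : ℝ) / q) - a - ∑ i, d i * ξ i| ≤
        Real.exp (-(A + F * Real.log H)) := by
    intro y
    by_cases hy : ∃ x ∈ I, ∃ c ∈ Cs, (x + c) % q = y
    · obtain ⟨x, hx, c, hc, hxc⟩ := hy
      obtain ⟨a, d, hd1, hd2⟩ := h x hx c hc
      refine ⟨a, d, fun _ => ⟨hd1, ?_⟩⟩
      have e1 : hur ((y : ℝ) / q) = hur (((x + c : ℕ) : ℝ) / q) := by
        refine HZ8.hur_mod hq ?_
        rw [← hxc, Nat.mod_mod]
      rw [e1]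
      exact hd2
    · exact ⟨0, fun _ => 0, fun h' => absurd h' hy⟩
  choose a d had using key
  refine meas hq hC hI hM hm hP (X := Real.log H) (Real.log_nonneg hH1r) ξ
    (fun y => (a y : ℚ) / (b * (q : ℚ) ^ 3)) (fun y i => (d y i : ℚ) / (b * (q : ℚ) ^ 3)) le_rfl
    (fun x hx c hc => ?_) (D₀ := b * q ^ 3) (Nat.one_le_iff_ne_zero.2 (by positivity))
    (B := (H : ℝ) / b) ((one_le_div (by linarith)).2 hHr) (fun _ => 1) (W := 1) le_rfl
    (fun _ _ => le_rfl) (fun _ _ => le_rfl) (fun x hx c hc => ?_) (fun x hx c hc i => ?_)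
    (fun x hx c hc i => ?_) ?_
  · have h1 := (had ((x + c) % q) ⟨x, hx, c, hc, rfl⟩).2
    have e1 : HZ7.SS q ((x : ℝ) + c) = 1 / (q : ℝ) ^ 3 * hur ((((x + c) % q : ℕ) : ℝ) / q) := by
      rw [← HZ7.SS_hur hq, ← hmod]
      push_cast
      rfl
    rw [e1]
    obtain ⟨y, hy⟩ : ∃ y, y = (x + c) % q := ⟨_, rfl⟩
    rw [← hy] at h1 ⊢
    have hq3 : (1 : ℝ) ≤ (q : ℝ) ^ 3 := one_le_pow₀ hqr
    have hbq : (1 : ℝ) ≤ b * (q : ℝ) ^ 3 := by nlinarith
    have e2 : 1 / (q : ℝ) ^ 3 * hur ((y : ℝ) / q) -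
        ((((a y : ℚ) / (b * (q : ℚ) ^ 3) : ℚ) : ℝ) +
          ∑ i, (((d y i : ℚ) / (b * (q : ℚ) ^ 3) : ℚ) : ℝ) * ξ i) =
        (1 / (b * (q : ℝ) ^ 3)) * (b * hur ((y : ℝ) / q) - a y - ∑ i, d y i * ξ i) := by
      have e3 : ∑ i, (((d y i : ℚ) / (b * (q : ℚ) ^ 3) : ℚ) : ℝ) * ξ i =
          (1 / (b * (q : ℝ) ^ 3)) * ∑ i, d y i * ξ i := by
        rw [mul_sum]
        refine sum_congr rfl fun i _ => ?_
        push_cast
        ring
      rw [e3]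
      push_cast
      field_simp
      ring
    rw [e2, abs_mul, abs_of_nonneg (by positivity)]
    have h2 : 1 / (b * (q : ℝ) ^ 3) ≤ 1 := by
      rw [div_le_one (by linarith)]
      exact hbq
    calc 1 / (b * (q : ℝ) ^ 3) * |b * hur ((y : ℝ) / q) - a y - ∑ i, d y i * ξ i| ≤
        1 * |b * hur ((y : ℝ) / q) - a y - ∑ i, d y i * ξ i| :=
          mul_le_mul_of_nonneg_right h2 (abs_nonneg _)
      _ ≤ _ := by rw [one_mul]; exact h1
  · refine ⟨a ((x + c) % q), ?_⟩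
    push_cast
    field_simp
  · refine ⟨d ((x + c) % q) i, ?_⟩
    push_cast
    field_simp
  · have h1 := (had ((x + c) % q) ⟨x, hx, c, hc, rfl⟩).1 i
    obtain ⟨y, hy⟩ : ∃ y, y = (x + c) % q := ⟨_, rfl⟩
    rw [← hy] at h1 ⊢
    have h2 : |(d y i : ℝ)| ≤ H := by
      have h3 : ((|d y i| : ℤ) : ℝ) ≤ ((H : ℤ) : ℝ) := by exact_mod_cast h1
      rw [Int.cast_abs] at h3
      simpa using h3
    have hq3 : (1 : ℝ) ≤ (q : ℝ) ^ 3 := one_le_pow₀ hqr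
    have e1 : (((d y i : ℚ) / (b * (q : ℚ) ^ 3) : ℚ) : ℝ) = (d y i : ℝ) / (b * (q : ℝ) ^ 3) := by
      push_cast
      rfl
    rw [e1, abs_div, abs_of_nonneg (by positivity : (0 : ℝ) ≤ b * (q : ℝ) ^ 3)]
    refine div_le_div₀ (by linarith) h2 (by linarith) ?_
    nlinarith
  · have hq3 : (0 : ℝ) < (q : ℝ) ^ 3 := by positivity
    have e1 : Real.log (((b * q ^ 3 : ℕ) : ℝ) * ((1 : ℕ) : ℝ)) = Real.log b + 3 * Real.log q := by
      push_cast
      rw [mul_one, Real.log_mul (by linarith) hq3.ne', Real.log_pow]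
      push_cast
      ring
    have e2 : Real.log ((H : ℝ) / b) = Real.log H - Real.log b :=
      Real.log_div (by linarith) (by linarith)
    rw [e1, e2]
    have h3 : Real.log b ≤ Real.log H := Real.log_le_log (by linarith) hHr
    have h4 : (K : ℝ) * s * M ≤ R1 s δ M k K := by
      unfold R1
      have h5 : (0 : ℝ) ≤ δ := Nat.cast_nonneg δ
      have h6 : (0 : ℝ) ≤ k * M := by positivity
      linarith
    have h7 := mul_le_mul_of_nonneg_right h4 (sub_nonneg.2 h3)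
    nlinarith

/-- every value has its own denominator -/
theorem measB {q s r M m δ k K n₀ : ℕ} {F A : ℝ} {I Cs : Finset ℕ} (hq : 1 ≤ q)
    (hC : ∀ c ∈ Cs, c < q) (hI : ∀ x ∈ I, x < q) (hM : Cs.card = M) (hm : I.card = m)
    (hP : AdmQ q s r M m δ k K n₀ F A) (ξ : Fin s → ℝ) {H : ℕ} (hH : 1 ≤ H)
    (h : ∀ x ∈ I, ∀ c ∈ Cs, ∃ (b : ℕ) (a : ℤ) (d : Fin s → ℤ), 1 ≤ b ∧ b ≤ H ∧
      (∀ i, |d i| ≤ H) ∧ |b * hur (((x + c : ℕ) : ℝ) / q) - a - ∑ i, d i * ξ i| ≤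
        Real.exp (-(A + F * ((M + 1) * Real.log H)))) : False := by
  classical
  have hq0 : (0 : ℝ) < q := by exact_mod_cast hq
  have hqr : (1 : ℝ) ≤ q := by exact_mod_cast hq
  have hH1r : (1 : ℝ) ≤ H := by exact_mod_cast hH
  have hper : ∀ y l : ℕ, HZ7.SS q ((y + q * l : ℕ) : ℝ) = HZ7.SS q (y : ℝ) := by
    intro y l
    have := HZ7.SS_per (q := q) (y : ℝ) l
    push_cast
    exact this
  have hmod : ∀ y : ℕ, HZ7.SS q (y : ℝ) = HZ7.SS q ((y % q : ℕ) : ℝ) := by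
    intro y
    conv_lhs => rw [← Nat.mod_add_div y q]
    exact hper _ _
  have key : ∀ y : ℕ, ∃ (b : ℕ) (a : ℤ) (d : Fin s → ℤ), 1 ≤ b ∧
      ((∃ x ∈ I, ∃ c ∈ Cs, (x + c) % q = y) → b ≤ H ∧
      (∀ i, |d i| ≤ H) ∧ |b * hur ((y : ℝ) / q) - a - ∑ i, d i * ξ i| ≤
        Real.exp (-(A + F * ((M + 1) * Real.log H)))) := by
    intro y
    by_cases hy : ∃ x ∈ I, ∃ c ∈ Cs, (x + c) % q = y
    · obtain ⟨x, hx, c, hc, hxc⟩ := hy
      obtain ⟨b, a, d, hb1, hb2, hd1, hd2⟩ := h x hx c hc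
      refine ⟨b, a, d, hb1, fun _ => ⟨hb2, hd1, ?_⟩⟩
      have e1 : hur ((y : ℝ) / q) = hur (((x + c : ℕ) : ℝ) / q) := by
        refine HZ8.hur_mod hq ?_
        rw [← hxc, Nat.mod_mod]
      rw [e1]
      exact hd2
    · exact ⟨1, 0, fun _ => 0, le_rfl, fun h' => absurd h' hy⟩
  choose b a d hb1 had using key
  have hMlog : 0 ≤ (M + 1) * Real.log H := by
    have := Real.log_nonneg hH1r
    positivity
  have hbpos : ∀ y, (1 : ℝ) ≤ b y := fun y => by exact_mod_cast hb1 y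
  have hbH : ∀ x ∈ I, ∀ c ∈ Cs, b ((x + c) % q) ≤ H := fun x hx c hc =>
    (had ((x + c) % q) ⟨x, hx, c, hc, rfl⟩).1
  have hq3 : (1 : ℝ) ≤ (q : ℝ) ^ 3 := one_le_pow₀ hqr
  have hdiv : ∀ (z : ℤ) (x c : ℕ), c ∈ Cs → ∃ z' : ℤ, ((q ^ 3 : ℕ) : ℝ) *
      ((∏ c ∈ Cs, b ((x + c) % q) : ℕ) : ℝ) *
      (((z : ℚ) / (b ((x + c) % q) * (q : ℚ) ^ 3) : ℚ) : ℝ) = z' := by
    intro z x c hc
    have h1 : ∏ c ∈ Cs, b ((x + c) % q) = b ((x + c) % q) * ∏ c ∈ Cs.erase c, b ((x + c) % q) :=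
      (Finset.mul_prod_erase Cs (fun c => b ((x + c) % q)) hc).symm
    obtain ⟨w, hw⟩ : ∃ w, w = ∏ c ∈ Cs.erase c, b ((x + c) % q) := ⟨_, rfl⟩
    rw [h1, ← hw]
    refine ⟨w * z, ?_⟩
    have h2 : (b ((x + c) % q) : ℝ) ≠ 0 := by
      have := hbpos ((x + c) % q)
      linarith
    push_cast
    field_simp
  refine meas hq hC hI hM hm hP hMlog ξ
    (fun y => (a y : ℚ) / (b y * (q : ℚ) ^ 3)) (fun y i => (d y i : ℚ) / (b y * (q : ℚ) ^ 3))
    le_rfl (fun x hx c hc => ?_) (D₀ := q ^ 3) (Nat.one_le_iff_ne_zero.2 (by positivity))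
    (B := (H : ℝ)) hH1r (fun x => ∏ c ∈ Cs, b ((x + c) % q)) (W := H ^ M)
    (Nat.one_le_iff_ne_zero.2 (by positivity))
    (fun x _ => Finset.one_le_prod' fun c _ => hb1 _) (fun x hx => ?_)
    (fun x hx c hc => hdiv _ x c hc) (fun x hx c hc i => hdiv _ x c hc)
    (fun x hx c hc i => ?_) ?_
  · have h1 := (had ((x + c) % q) ⟨x, hx, c, hc, rfl⟩).2.2
    have e1 : HZ7.SS q ((x : ℝ) + c) = 1 / (q : ℝ) ^ 3 * hur ((((x + c) % q : ℕ) : ℝ) / q) := by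
      rw [← HZ7.SS_hur hq, ← hmod]
      push_cast
      rfl
    rw [e1]
    obtain ⟨y, hy⟩ : ∃ y, y = (x + c) % q := ⟨_, rfl⟩
    rw [← hy] at h1 ⊢
    have hb := hbpos y
    have hb0 : (b y : ℝ) ≠ 0 := by linarith
    have hbq : (1 : ℝ) ≤ b y * (q : ℝ) ^ 3 := by nlinarith
    have e2 : 1 / (q : ℝ) ^ 3 * hur ((y : ℝ) / q) -
        ((((a y : ℚ) / (b y * (q : ℚ) ^ 3) : ℚ) : ℝ) +
          ∑ i, (((d y i : ℚ) / (b y * (q : ℚ) ^ 3) : ℚ) : ℝ) * ξ i) =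
        (1 / (b y * (q : ℝ) ^ 3)) * (b y * hur ((y : ℝ) / q) - a y - ∑ i, d y i * ξ i) := by
      have e3 : ∑ i, (((d y i : ℚ) / (b y * (q : ℚ) ^ 3) : ℚ) : ℝ) * ξ i =
          (1 / (b y * (q : ℝ) ^ 3)) * ∑ i, d y i * ξ i := by
        rw [mul_sum]
        refine sum_congr rfl fun i _ => ?_
        push_cast
        ring
      rw [e3]
      push_cast
      field_simp
      ring
    rw [e2, abs_mul, abs_of_nonneg (by positivity)]
    have h2 : 1 / (b y * (q : ℝ) ^ 3) ≤ 1 := by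
      rw [div_le_one (by linarith)]
      exact hbq
    calc 1 / (b y * (q : ℝ) ^ 3) * |b y * hur ((y : ℝ) / q) - a y - ∑ i, d y i * ξ i| ≤
        1 * |b y * hur ((y : ℝ) / q) - a y - ∑ i, d y i * ξ i| :=
          mul_le_mul_of_nonneg_right h2 (abs_nonneg _)
      _ ≤ _ := by rw [one_mul]; exact h1
  · calc ∏ c ∈ Cs, b ((x + c) % q) ≤ ∏ _c ∈ Cs, H := Finset.prod_le_prod' fun c hc => hbH x hx c hc
      _ = H ^ M := by rw [prod_const, hM]
  · have h1 := (had ((x + c) % q) ⟨x, hx, c, hc, rfl⟩).2.1 i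
    obtain ⟨y, hy⟩ : ∃ y, y = (x + c) % q := ⟨_, rfl⟩
    rw [← hy] at h1 ⊢
    have hb := hbpos y
    have h2 : |(d y i : ℝ)| ≤ H := by
      have h3 : ((|d y i| : ℤ) : ℝ) ≤ ((H : ℤ) : ℝ) := by exact_mod_cast h1
      rw [Int.cast_abs] at h3
      simpa using h3
    have e1 : (((d y i : ℚ) / (b y * (q : ℚ) ^ 3) : ℚ) : ℝ) =
        (d y i : ℝ) / (b y * (q : ℝ) ^ 3) := by
      push_cast
      rfl
    rw [e1, abs_div, abs_of_nonneg (by positivity : (0 : ℝ) ≤ b y * (q : ℝ) ^ 3)]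
    have hbq : (1 : ℝ) ≤ b y * (q : ℝ) ^ 3 := by nlinarith
    exact (div_le_self (abs_nonneg _) hbq).trans h2
  · have e1 : Real.log (((q ^ 3 : ℕ) : ℝ) * ((H ^ M : ℕ) : ℝ)) =
        3 * Real.log q + M * Real.log H := by
      push_cast
      rw [Real.log_mul (by positivity) (by positivity), Real.log_pow, Real.log_pow]
      push_cast
      ring
    rw [e1]
    have h4 : (K : ℝ) * s * M ≤ R1 s δ M k K := by
      unfold R1
      have h5 : (0 : ℝ) ≤ δ := Nat.cast_nonneg δ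
      have h6 : (0 : ℝ) ≤ k * M := by positivity
      linarith
    have h7 := mul_le_mul_of_nonneg_right h4 (Real.log_nonneg hH1r)
    linarith

end HZ10
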