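import Pool.Agent.LibHZ10.Fin

/-!
# HZ10: all heights up to `2 ^ 2 ^ J` (helper89)
-/

namespace HZ10

open Finset HZ89 Polynomial HZ8

/-- all denominators, almost all terms, all heights up to `2 ^ 2 ^ J` -/
theorem densityC {q s : ℕ} (x₀ h N J : ℕ) (hh : h.Coprime q) (hN : 2 * N ≤ q)
    (ξ : Fin s → ℝ) :
    ∃ E : Finset ℕ, (E.card : ℝ) ≤ (J + 1) * (4 * N * Real.exp (-((Real.log N) ^ 3 /
      (80 * ((s : ℝ) + 1) * (Real.log q) ^ 2)))) ∧ ∀ t < N, t ∉ E → ∀ H : ℕ, 2 ≤ H →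
      H ≤ 2 ^ 2 ^ J → ∀ (b : ℕ) (a : ℤ) (d : Fin s → ℤ), 1 ≤ b → b ≤ H → (∀ i, |d i| ≤ H) →
      Real.exp (-(N : ℝ)) *
          (H : ℝ) ^ (-(120 * ((s : ℝ) + 1) ^ 2 * (Real.log q / Real.log N) ^ 2)) ≤
        |b * hur (((x₀ + h * t : ℕ) : ℝ) / q) - a - ∑ i, d i * ξ i| := by
  classical
  obtain ⟨Y, hY⟩ : ∃ Y, Y = ((s : ℝ) + 1) ^ 2 * (Real.log q / Real.log N) ^ 2 := ⟨_, rfl⟩
  have hY0 : 0 ≤ Y := by rw [hY]; positivity
  have key : ∀ j : ℕ, ∃ E : Finset ℕ, (E.card : ℝ) ≤ 4 * N * Real.exp (-((Real.log N) ^ 3 /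
      (80 * ((s : ℝ) + 1) * (Real.log q) ^ 2))) ∧ ∀ t < N, t ∉ E →
      ∀ (b : ℕ) (a : ℤ) (d : Fin s → ℤ), 1 ≤ b → b ≤ 2 ^ 2 ^ j → (∀ i, |d i| ≤ ((2 ^ 2 ^ j : ℕ) : ℤ)) →
      Real.exp (-(N : ℝ)) * (((2 ^ 2 ^ j : ℕ) : ℕ) : ℝ) ^ (-(60 * Y)) ≤
        |b * hur (((x₀ + h * t : ℕ) : ℝ) / q) - a - ∑ i, d i * ξ i| := by
    intro j
    refine ⟨(Finset.range N).filter fun t => ∃ (b : ℕ) (a : ℤ) (d : Fin s → ℤ), 1 ≤ b ∧
      b ≤ 2 ^ 2 ^ j ∧ (∀ i, |d i| ≤ ((2 ^ 2 ^ j : ℕ) : ℤ)) ∧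
      |b * hur (((x₀ + h * t : ℕ) : ℝ) / q) - a - ∑ i, d i * ξ i| <
        Real.exp (-(N : ℝ)) * (((2 ^ 2 ^ j : ℕ) : ℕ) : ℝ) ^ (-(60 * Y)), ?_,
      fun t ht hE b a d hb hbH hd => ?_⟩
    · refine densityB x₀ h N hh hN ξ (H := 2 ^ 2 ^ j) (Nat.one_le_two_pow) _ fun t ht => ?_
      refine ⟨Finset.mem_range.1 (Finset.mem_filter.1 ht).1, ?_⟩
      have h1 := (Finset.mem_filter.1 ht).2
      rw [hY, ← mul_assoc] at h1
      exact h1
    · by_contra hcon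
      exact hE (Finset.mem_filter.2
        ⟨Finset.mem_range.2 ht, b, a, d, hb, hbH, hd, not_le.1 hcon⟩)
  choose E hE1 hE2 using key
  refine ⟨(Finset.range (J + 1)).biUnion E, ?_, fun t ht htE H hH2 hHJ b a d hb hbH hd => ?_⟩
  · have h1 : (((Finset.range (J + 1)).biUnion E).card : ℝ) ≤
        ∑ j ∈ Finset.range (J + 1), ((E j).card : ℝ) := by
      exact_mod_cast Finset.card_biUnion_le
    refine h1.trans ((Finset.sum_le_sum fun j _ => hE1 j).trans ?_)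
    rw [Finset.sum_const, Finset.card_range, nsmul_eq_mul]
    push_cast
    exact le_rfl
  · -- the scale of `H`
    obtain ⟨j, hjJ, hj1, hj2⟩ : ∃ j ≤ J, H ≤ 2 ^ 2 ^ j ∧ 2 ^ 2 ^ j ≤ H ^ 2 := by
      induction J with
      | zero => exact ⟨0, le_rfl, hHJ, by
          have : 2 ^ 2 ^ 0 = 2 := by norm_num
          rw [this]
          nlinarith⟩
      | succ J ih =>
        by_cases hc : H ≤ 2 ^ 2 ^ J
        · obtain ⟨j, hj, hj'⟩ := ih (by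
            intro hmem
            refine htE ?_
            obtain ⟨i, hi, hti⟩ := Finset.mem_biUnion.1 hmem
            exact Finset.mem_biUnion.2 ⟨i, Finset.mem_range.2 (by
              have := Finset.mem_range.1 hi
              omega), hti⟩) hc
          exact ⟨j, by omega, hj'⟩
        · refine ⟨J + 1, le_rfl, hHJ, ?_⟩
          have h2 : 2 ^ 2 ^ J < H := not_le.1 hc
          have h3 : 2 ^ 2 ^ (J + 1) = (2 ^ 2 ^ J) ^ 2 := by
            rw [← pow_mul, ← pow_succ]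
          rw [h3]
          exact Nat.pow_le_pow_left h2.le 2
    have htj : t ∉ E j := fun h1 => htE (Finset.mem_biUnion.2 ⟨j, Finset.mem_range.2 (by omega), h1⟩)
    have h1 := hE2 j t ht htj b a d hb (hbH.trans hj1) (fun i => (hd i).trans (by exact_mod_cast hj1))
    refine le_trans ?_ h1
    refine mul_le_mul_of_nonneg_left ?_ (Real.exp_pos _).le
    obtain ⟨P, hP⟩ : ∃ P : ℕ, P = 2 ^ 2 ^ j := ⟨_, rfl⟩
    rw [← hP] at hj1 hj2 ⊢
    have hHr : (2 : ℝ) ≤ H := by exact_mod_cast hH2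
    have hPr : (P : ℝ) ≤ (H : ℝ) ^ 2 := by exact_mod_cast hj2
    have hP0 : (0 : ℝ) < P := by
      have : (H : ℝ) ≤ P := by exact_mod_cast hj1
      linarith
    have e1 : (H : ℝ) ^ (-(120 * ((s : ℝ) + 1) ^ 2 * (Real.log q / Real.log N) ^ 2)) =
        ((H : ℝ) ^ 2) ^ (-(60 * Y)) := by
      rw [← Real.rpow_natCast (H : ℝ) 2, ← Real.rpow_mul (by linarith), hY]
      congr 1
      push_cast
      ring
    rw [e1, Real.rpow_neg (by positivity), Real.rpow_neg hP0.le]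
    exact inv_anti₀ (Real.rpow_pos_of_pos hP0 _) (Real.rpow_le_rpow hP0.le hPr (by linarith))

end HZ10
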